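import Pool.Graph.R_pool_sql_team_seeded_64922ed1.X31.K10

/-! Linear forms modulo one at integers with restricted digits are not concentrated. -/

set_option autoImplicit false

namespace Pool.Agent.H56.AC

open Finset
open Pool.Agent.X31.CT

lemma nn_zero : nn 0 = 0 := by
  have h := nn_le 0 0
  have h2 := nn_nonneg 0
  simp at h
  linarith

lemma nn_neg (x : ℝ) : nn (-x) = nn x := by
  have key : ∀ y : ℝ, nn (-y) ≤ nn y := by
    intro y
    have h := nn_le (-y) (-round y)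
    refine h.trans (le_of_eq ?_)
    unfold nn
    rw [← abs_neg]
    congr 1
    push_cast
    ring
  apply le_antisymm (key x)
  have := key (-x)
  rwa [neg_neg] at this

lemma nn_add (x y : ℝ) : nn (x + y) ≤ nn x + nn y := by
  have h := nn_le (x + y) (round x + round y)
  refine h.trans ?_
  unfold nn
  refine le_trans (le_of_eq ?_) (abs_add_le _ _)
  congr 1
  push_cast
  ring

lemma nn_sub (x y : ℝ) : nn (x - y) ≤ nn x + nn y := by
  have h := nn_add x (-y)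
  rw [nn_neg] at h
  rwa [← sub_eq_add_neg] at h

lemma nn_nat_mul (n : ℕ) (x : ℝ) : nn (n * x) ≤ n * nn x := by
  have h := nn_mul (n : ℤ) x
  rwa [Int.cast_natCast, Nat.abs_cast] at h

lemma nn_abs_le (x : ℝ) : nn x ≤ |x| := by
  have := nn_le x 0
  simpa using this

lemma nn_eq_abs (x : ℝ) (h : |x| ≤ 1 / 2) : nn x = |x| := by
  apply le_antisymm (nn_abs_le x)
  unfold nn
  by_cases h0 : round x = 0
  · rw [h0, Int.cast_zero, sub_zero]
  · have h1 : (1 : ℝ) ≤ |(round x : ℝ)| := by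
      have : (1 : ℤ) ≤ |round x| := Int.one_le_abs h0
      exact_mod_cast this
    have h2 : |(round x : ℝ)| ≤ |x - round x| + |x| := by
      have := abs_sub (x) (x - round x)
      rw [sub_sub_cancel] at this
      linarith
    linarith

lemma nn_sum {ι : Type*} (s : Finset ι) (f : ι → ℝ) : nn (∑ i ∈ s, f i) ≤ ∑ i ∈ s, nn (f i) := by
  classical
  induction s using Finset.induction_on with
  | empty => rw [sum_empty, sum_empty, nn_zero]
  | insert a s ha ih =>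
    rw [sum_insert ha, sum_insert ha]
    exact (nn_add _ _).trans (by linarith)

/-- two elements of a large set of integers with restricted digits differ in a given block of digits only -/
lemma block_pair {b : ℕ} (hb : 2 ≤ b) {𝒟 : ℕ → Finset ℕ} (h : DS b 𝒟) (i j m T : ℕ) (hT : T < 2 ^ j)
    (G : Finset ℕ) (hG : G ⊆ KK b 𝒟 (i + (j + m))) (hcard : (KK b 𝒟 (i + (j + m))).card ≤ T * G.card) :
    ∃ x ∈ G, ∃ y ∈ G, ∃ v : ℕ, 1 ≤ v ∧ v < b ^ j ∧ (y : ℤ) - x = b ^ i * v := by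
  classical
  by_contra hcon
  have h1 : G.card = ∑ u ∈ KK b 𝒟 i, ∑ z ∈ KK b (sh j (sh i 𝒟)) m,
      ((KK b (sh i 𝒟) j).filter (fun w => u + b ^ i * (w + b ^ j * z) ∈ G)).card := by
    have e1 : G.card = ∑ x ∈ KK b 𝒟 (i + (j + m)), (if x ∈ G then 1 else 0) := by
      rw [← card_filter]
      congr 1
      ext x
      rw [mem_filter]
      exact ⟨fun hx => ⟨hG hx, hx⟩, fun hx => hx.2⟩
    rw [e1, sum_split hb i (j + m) h]
    apply sum_congr rfl
    intro u _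
    rw [sum_split hb j m (DS_sh h i), sum_comm]
    apply sum_congr rfl
    intro z _
    rw [card_filter]
  have h2 : ∀ u ∈ KK b 𝒟 i, ∀ z ∈ KK b (sh j (sh i 𝒟)) m,
      ((KK b (sh i 𝒟) j).filter (fun w => u + b ^ i * (w + b ^ j * z) ∈ G)).card ≤ 1 := by
    intro u _ z _
    by_contra hc
    push Not at hc
    obtain ⟨w₁, hw₁, w₂, hw₂, hne⟩ := one_lt_card.1 hc
    wlog hlt : w₁ < w₂ generalizing w₁ w₂
    · exact this w₂ hw₂ w₁ hw₁ (Ne.symm hne) (by omega)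
    rw [mem_filter] at hw₁ hw₂
    apply hcon
    refine ⟨_, hw₁.2, _, hw₂.2, w₂ - w₁, by omega, ?_, ?_⟩
    · have := KK_lt j (DS_sh h i) w₂ hw₂.1
      omega
    · push_cast [Nat.cast_sub hlt.le]
      ring
  have h3 : G.card ≤ (KK b 𝒟 i).card * (KK b (sh j (sh i 𝒟)) m).card := by
    rw [h1]
    calc _ ≤ ∑ _u ∈ KK b 𝒟 i, ∑ _z ∈ KK b (sh j (sh i 𝒟)) m, 1 :=
          sum_le_sum fun u hu => sum_le_sum fun z hz => h2 u hu z hz
      _ = _ := by rw [sum_const, sum_const]; simp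
  have h4 : (KK b 𝒟 (i + (j + m))).card = (KK b 𝒟 i).card * ((KK b (sh i 𝒟) j).card * (KK b (sh j (sh i 𝒟)) m).card) := by
    rw [card_split hb h i (j + m), card_split hb (DS_sh h i) j m]
  have h5 : 2 ^ j ≤ (KK b (sh i 𝒟) j).card := card_pos' hb j (DS_sh h i)
  have h6 : 0 < (KK b 𝒟 i).card := lt_of_lt_of_le (by positivity) (card_pos' hb i h)
  have h7 : 0 < (KK b (sh j (sh i 𝒟)) m).card := lt_of_lt_of_le (by positivity) (card_pos' hb m (DS_sh (DS_sh h i) j))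
  have h8 : (KK b 𝒟 i).card * ((KK b (sh i 𝒟) j).card * (KK b (sh j (sh i 𝒟)) m).card) ≤
      T * ((KK b 𝒟 i).card * (KK b (sh j (sh i 𝒟)) m).card) := by
    rw [← h4]
    exact hcard.trans (Nat.mul_le_mul_left _ h3)
  have h9 : T * ((KK b 𝒟 i).card * (KK b (sh j (sh i 𝒟)) m).card) <
      (KK b 𝒟 i).card * ((KK b (sh i 𝒟) j).card * (KK b (sh j (sh i 𝒟)) m).card) := by
    calc T * ((KK b 𝒟 i).card * (KK b (sh j (sh i 𝒟)) m).card) <
        2 ^ j * ((KK b 𝒟 i).card * (KK b (sh j (sh i 𝒟)) m).card) := Nat.mul_lt_mul_of_pos_right hT (Nat.mul_pos h6 h7)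
      _ ≤ (KK b (sh i 𝒟) j).card * ((KK b 𝒟 i).card * (KK b (sh j (sh i 𝒟)) m).card) := Nat.mul_le_mul_right _ h5
      _ = _ := by ring
  omega

/-- linear forms modulo one at integers with restricted digits -/
theorem rc_one {b : ℕ} (hb : 2 ≤ b) : ∃ C : ℕ, 1 ≤ C ∧ ∀ T : ℕ, 2 ≤ T → ∀ k : ℕ, T ^ C ≤ b ^ k →
    ∀ 𝒟 : ℕ → Finset ℕ, DS b 𝒟 → ∀ γ β η : ℝ, 0 ≤ η → η * (T : ℝ) ^ C ≤ 1 →
    ∀ G : Finset ℕ, G ⊆ KK b 𝒟 k → (KK b 𝒟 k).card ≤ T * G.card → (∀ x ∈ G, nn (γ * x + β) ≤ η) →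
    ∃ q : ℕ, 1 ≤ q ∧ q ≤ T ^ C ∧ nn (q * γ) * (b : ℝ) ^ k ≤ (T : ℝ) ^ C * η := by
  refine ⟨5 * b + 3, by omega, fun T hT k hk 𝒟 hD γ β η hη hηT G hG hcard hnn => ?_⟩
  have hTr : (2 : ℝ) ≤ T := by exact_mod_cast hT
  have hT1 : (1 : ℝ) ≤ T := by linarith
  have hbn : 0 < b := by omega
  obtain ⟨j, hj⟩ : ∃ j, j = Nat.log 2 T + 1 := ⟨_, rfl⟩
  have hj1 : T < 2 ^ j := by rw [hj]; exact Nat.lt_pow_succ_log_self (by norm_num) T
  have hj2 : 2 ^ j ≤ 2 * T := by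
    rw [hj, pow_succ, mul_comm]
    exact Nat.mul_le_mul_left _ (Nat.pow_log_le_self 2 (by omega))
  have hB : b ^ j ≤ T ^ (2 * b) := by
    calc b ^ j ≤ (2 ^ b) ^ j := Nat.pow_le_pow_left (Nat.lt_two_pow_self).le _
      _ = (2 ^ j) ^ b := by rw [← pow_mul, ← pow_mul, mul_comm]
      _ ≤ (T * T) ^ b := Nat.pow_le_pow_left (hj2.trans (Nat.mul_le_mul_right _ hT)) _
      _ = T ^ (2 * b) := by rw [← sq, ← pow_mul]
  have hjk : j ≤ k := by
    have h1 : b ^ j ≤ b ^ k := hB.trans ((Nat.pow_le_pow_right (by omega) (by omega)).trans hk)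
    exact (Nat.pow_le_pow_iff_right (by omega)).1 h1
  have hBr : (b : ℝ) ^ j ≤ (T : ℝ) ^ (2 * b) := by exact_mod_cast hB
  have hBj0 : (0 : ℝ) < (b : ℝ) ^ j := by positivity
  have hkey : ((b ^ j : ℕ) : ℝ) * (b ^ j : ℕ) * ((b : ℝ) + 1) * (2 * η) < 1 := by
    push_cast
    have h1 : (b : ℝ) + 1 ≤ (T : ℝ) ^ b := by
      have : b + 1 ≤ T ^ b := by
        calc b + 1 ≤ 2 ^ b := Nat.lt_two_pow_self
          _ ≤ T ^ b := Nat.pow_le_pow_left hT _
      exact_mod_cast this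
    have h2 : (b : ℝ) ^ j * (b : ℝ) ^ j * ((b : ℝ) + 1) * (2 * η) ≤
        (T : ℝ) ^ (2 * b) * (T : ℝ) ^ (2 * b) * (T : ℝ) ^ b * (T * η) := by gcongr
    have h3 : (T : ℝ) ^ (2 * b) * (T : ℝ) ^ (2 * b) * (T : ℝ) ^ b * (T * η) = η * (T : ℝ) ^ (5 * b + 1) := by
      ring
    have h4 : (T : ℝ) ^ 2 * (η * (T : ℝ) ^ (5 * b + 1)) ≤ 1 := by
      calc (T : ℝ) ^ 2 * (η * (T : ℝ) ^ (5 * b + 1)) = η * (T : ℝ) ^ (5 * b + 3) := by ring
        _ ≤ 1 := hηT
    have h5 : 0 ≤ η * (T : ℝ) ^ (5 * b + 1) := by positivity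
    have h6 : (4 : ℝ) ≤ (T : ℝ) ^ 2 := by nlinarith
    nlinarith
  have hch := chain2 b (b ^ j) (2 * η) γ (by linarith) hkey (fun t => b ^ t) (k - j) (pow_zero b) (by
    intro t _
    exact ⟨b, by omega, le_rfl, by rw [pow_succ, mul_comm]⟩) (by
    intro t ht
    have hk2 : k = t + (j + (k - j - t)) := by omega
    rw [hk2] at hG hcard
    obtain ⟨x, hx, y, hy, v, hv1, hv2, hv3⟩ := block_pair hb hD t j (k - j - t) T hj1 G hG hcard
    refine ⟨v, by exact_mod_cast (by omega : v ≠ 0), ?_, ?_⟩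
    · rw [Nat.abs_cast]
      exact_mod_cast hv2.le
    · have e1 : ((v : ℤ) : ℝ) * (γ * ((b ^ t : ℕ) : ℝ)) = (γ * y + β) - (γ * x + β) := by
        have e2 : ((y : ℝ) - x) = (b : ℝ) ^ t * v := by exact_mod_cast hv3
        push_cast
        linear_combination (-γ) * e2
      rw [e1]
      refine (nn_sub _ _).trans ?_
      have := hnn x hx
      have := hnn y hy
      linarith)
  obtain ⟨w, hw1, hw2, n, hn⟩ := hch
  refine ⟨w, hw1, hw2.trans (hB.trans (Nat.pow_le_pow_right (by omega) (by omega))), ?_⟩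
  have hw0 : (0 : ℝ) < w := by exact_mod_cast hw1
  have hwB : (w : ℝ) ≤ (b : ℝ) ^ j := by exact_mod_cast hw2
  have e1 : nn (w * γ) ≤ w * |γ - n / w| := by
    refine (nn_le _ n).trans (le_of_eq ?_)
    rw [← abs_of_pos hw0, ← abs_mul, abs_of_pos hw0]
    congr 1
    field_simp
  have e2 : (b : ℝ) ^ k = (b : ℝ) ^ (k - j) * (b : ℝ) ^ j := by
    rw [← pow_add]
    congr 1
    omega
  have e3 : |γ - n / w| * (b : ℝ) ^ (k - j) ≤ 2 * η := by
    push_cast at hn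
    exact hn
  calc nn (w * γ) * (b : ℝ) ^ k ≤ (w * |γ - n / w|) * (b : ℝ) ^ k := by gcongr
    _ = w * (|γ - n / w| * (b : ℝ) ^ (k - j)) * (b : ℝ) ^ j := by rw [e2]; ring
    _ ≤ (b : ℝ) ^ j * (2 * η) * (b : ℝ) ^ j := by gcongr
    _ ≤ (T : ℝ) ^ (2 * b) * (T * η) * (T : ℝ) ^ (2 * b) := by gcongr
    _ = (T : ℝ) ^ (4 * b + 1) * η := by ring
    _ ≤ (T : ℝ) ^ (5 * b + 3) * η := by
        apply mul_le_mul_of_nonneg_right _ hη
        exact pow_le_pow_right₀ hT1 (by omega)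

end Pool.Agent.H56.AC
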