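import Pool.Agent.H56.AC.MV
import Pool.Graph.R_pool_sql_team_seeded_64922ed1.X31.M3

/-! Large exponential sums over a polynomial at integers with restricted digits times an integer. -/

set_option autoImplicit false

namespace Pool.Agent.H56.AC

open Finset
open Pool.Agent.X31.CT
open Pool.Agent.H469R2.NK (e norm_e e_add conj_e e_zero)

/-- the inequality of Cauchy and Schwarz -/
lemma cs_diff' {α : Type*} (U : Finset α) (Z : Finset ℕ) (Q : α → ℕ → ℝ) (η : ℝ) (hη : 0 ≤ η)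
    (h : η * (U.card * Z.card) ≤ ‖∑ u ∈ U, ∑ z ∈ Z, e (Q u z)‖) :
    η ^ 2 * (U.card : ℝ) ^ 2 * Z.card ≤ ∑ u ∈ U, ∑ u' ∈ U, ‖∑ z ∈ Z, e (Q u z - Q u' z)‖ := by
  rcases Nat.eq_zero_or_pos Z.card with hZ | hZ
  · rw [hZ]
    simp only [Nat.cast_zero, mul_zero]
    exact sum_nonneg fun u _ => sum_nonneg fun u' _ => norm_nonneg _
  have hZr : (0 : ℝ) < Z.card := by exact_mod_cast hZ
  rw [sum_comm] at h
  have h1 : ‖∑ z ∈ Z, ∑ u ∈ U, e (Q u z)‖ ^ 2 ≤ Z.card * ∑ z ∈ Z, ‖∑ u ∈ U, e (Q u z)‖ ^ 2 := by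
    calc ‖∑ z ∈ Z, ∑ u ∈ U, e (Q u z)‖ ^ 2 ≤ (∑ z ∈ Z, ‖∑ u ∈ U, e (Q u z)‖) ^ 2 :=
          pow_le_pow_left₀ (norm_nonneg _) (norm_sum_le _ _) 2
      _ ≤ _ := sq_sum_le_card_mul_sum_sq
  have h2 : ((∑ z ∈ Z, ‖∑ u ∈ U, e (Q u z)‖ ^ 2 : ℝ) : ℂ) =
      ∑ u ∈ U, ∑ u' ∈ U, ∑ z ∈ Z, e (Q u z - Q u' z) := by
    push_cast
    have h3 : ∀ z ∈ Z, ((‖∑ u ∈ U, e (Q u z)‖ : ℂ)) ^ 2 = ∑ u ∈ U, ∑ u' ∈ U, e (Q u z - Q u' z) := by
      intro z _
      have h4 : ((‖∑ u ∈ U, e (Q u z)‖ : ℂ)) ^ 2 = (∑ u ∈ U, e (Q u z)) * (starRingEnd ℂ) (∑ u ∈ U, e (Q u z)) := by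
        rw [Complex.mul_conj, Complex.normSq_eq_norm_sq]
        push_cast
        rfl
      rw [h4, map_sum, sum_mul_sum]
      apply sum_congr rfl
      intro u _
      apply sum_congr rfl
      intro u' _
      rw [Pool.Agent.X31.e_sub]
    rw [sum_congr rfl h3, sum_comm]
    apply sum_congr rfl
    intro u _
    rw [sum_comm]
  have h5 : ∑ z ∈ Z, ‖∑ u ∈ U, e (Q u z)‖ ^ 2 ≤ ∑ u ∈ U, ∑ u' ∈ U, ‖∑ z ∈ Z, e (Q u z - Q u' z)‖ := by
    have h6 : ‖((∑ z ∈ Z, ‖∑ u ∈ U, e (Q u z)‖ ^ 2 : ℝ) : ℂ)‖ ≤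
        ∑ u ∈ U, ∑ u' ∈ U, ‖∑ z ∈ Z, e (Q u z - Q u' z)‖ := by
      rw [h2]
      refine (norm_sum_le _ _).trans (sum_le_sum fun u _ => norm_sum_le _ _)
    rw [Complex.norm_real, Real.norm_eq_abs, abs_of_nonneg (sum_nonneg fun z _ => by positivity)] at h6
    exact h6
  have h7 : (η * (U.card * Z.card)) ^ 2 ≤ Z.card * ∑ u ∈ U, ∑ u' ∈ U, ‖∑ z ∈ Z, e (Q u z - Q u' z)‖ := by
    calc (η * (U.card * Z.card)) ^ 2 ≤ ‖∑ z ∈ Z, ∑ u ∈ U, e (Q u z)‖ ^ 2 :=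
          pow_le_pow_left₀ (by positivity) h 2
      _ ≤ _ := h1.trans (mul_le_mul_of_nonneg_left h5 hZr.le)
  have h8 : (η * (U.card * Z.card)) ^ 2 = Z.card * (η ^ 2 * (U.card : ℝ) ^ 2 * Z.card) := by ring
  rw [h8] at h7
  exact le_of_mul_le_mul_left h7 hZr

/-- geometric sums -/
lemma geo (γ : ℝ) (M : ℕ) : ‖∑ y ∈ range M, e (γ * y)‖ * (2 * nn γ) ≤ 1 := by
  obtain ⟨δ, hδ⟩ : ∃ δ : ℝ, δ = γ - round γ := ⟨_, rfl⟩
  have hnn : nn γ = |δ| := by rw [hδ]; rfl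
  have hδ1 : |δ| ≤ 1 / 2 := by rw [← hnn]; exact nn_half γ
  have he : ∀ y : ℕ, e (γ * y) = e δ ^ y := by
    intro y
    have h1 : γ * y = δ * y + ((round γ * y : ℤ) : ℝ) := by
      rw [hδ]
      push_cast
      ring
    rw [h1, e_add, e_int, mul_one]
    induction y with
    | zero => simp [e_zero]
    | succ y ih =>
      rw [pow_succ, ← ih (by
        rw [hδ]
        push_cast
        ring), ← e_add]
      congr 1
      push_cast
      ring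
  have h1 : (∑ y ∈ range M, e (γ * y)) * (e δ - 1) = e δ ^ M - 1 := by
    rw [sum_congr rfl fun y _ => he y]
    exact geom_sum_mul _ _
  have h2 : ‖e δ - 1‖ = 2 * |Real.sin (Real.pi * δ)| := by
    have h3 : e δ = Complex.exp (Complex.I * ((2 * Real.pi * δ : ℝ) : ℂ)) := by
      unfold e
      congr 1
      push_cast
      ring
    rw [h3, Complex.norm_exp_I_mul_ofReal_sub_one, norm_mul, Real.norm_eq_abs, Real.norm_eq_abs, abs_two]
    congr 3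
    ring
  have h3 : 4 * |δ| ≤ ‖e δ - 1‖ := by
    rw [h2]
    have h4 : |Real.pi * δ| ≤ Real.pi / 2 := by
      rw [abs_mul, abs_of_pos Real.pi_pos]
      nlinarith [Real.pi_pos]
    have h5 := Real.mul_abs_le_abs_sin h4
    rw [abs_mul, abs_of_pos Real.pi_pos] at h5
    have h6 : 2 / Real.pi * (Real.pi * |δ|) = 2 * |δ| := by
      have := Real.pi_pos.ne'
      field_simp
    rw [h6] at h5
    linarith
  have h4 : ‖∑ y ∈ range M, e (γ * y)‖ * ‖e δ - 1‖ ≤ 2 := by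
    rw [← norm_mul, h1]
    refine (norm_sub_le _ _).trans ?_
    rw [norm_pow, norm_e, one_pow, norm_one]
    norm_num
  rw [hnn]
  have h5 : ‖∑ y ∈ range M, e (γ * y)‖ * (4 * |δ|) ≤ 2 := by
    refine le_trans ?_ h4
    exact mul_le_mul_of_nonneg_left h3 (norm_nonneg _)
  nlinarith

/-- the values of the polynomial -/
noncomputable def val {n : ℕ} (F : MvPolynomial (Fin n) ℤ) (x : Fin n → ℕ) : ℝ :=
  ((MvPolynomial.eval (fun i => (x i : ℤ)) F : ℤ) : ℝ)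

lemma val_map {n : ℕ} (F : MvPolynomial (Fin n) ℤ) (x : Fin n → ℕ) :
    MvPolynomial.eval (fun i => (x i : ℝ)) (MvPolynomial.map (Int.castRingHom ℝ) F) = val F x := by
  unfold val
  rw [MvPolynomial.eval_map, MvPolynomial.eval₂_eq', MvPolynomial.eval_eq']
  push_cast
  rfl

/-- large bilinear sums lead to good rational approximations with small denominators -/
theorem bil_big {b : ℕ} (hb : 2 ≤ b) {n : ℕ} (F : MvPolynomial (Fin n) ℤ) (m₀ : Fin n →₀ ℕ) (hm : F.coeff m₀ ≠ 0)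
    (hm0 : m₀ ≠ 0) : ∃ C : ℕ, 1 ≤ C ∧ ∀ T : ℕ, 2 ≤ T → ∀ k M : ℕ, T ^ C ≤ b ^ k → T ^ C ≤ M →
    ∀ 𝒟 : Fin n → ℕ → Finset ℕ, (∀ i, DS b (𝒟 i)) → ∀ (θ : ℝ) (g : (Fin n → ℕ) → ℝ) (h : ℕ → ℝ),
    ((Fintype.piFinset (fun i => KK b (𝒟 i) k)).card : ℝ) * M ≤
      T * ‖∑ x ∈ Fintype.piFinset (fun i => KK b (𝒟 i) k), ∑ y ∈ range M, e (θ * (val F x * y) + g x + h y)‖ →
    ∃ w : ℕ, 1 ≤ w ∧ w ≤ T ^ C ∧ nn (w * θ) * (((b : ℝ) ^ k) ^ (∑ i, m₀ i) * M) ≤ (T : ℝ) ^ C := by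
  classical
  obtain ⟨D, hD⟩ : ∃ D, D = F.totalDegree := ⟨_, rfl⟩
  obtain ⟨C₀, hC₀, hMV⟩ := mv hb D n
  obtain ⟨a, ha⟩ : ∃ a : ℕ, a = (F.coeff m₀).natAbs := ⟨_, rfl⟩
  have ha1 : 1 ≤ a := by rw [ha]; exact Int.natAbs_pos.2 hm
  refine ⟨3 * C₀ + 2 + a, by omega, fun T hT k M hk hM 𝒟 hDS θ g h hS => ?_⟩
  obtain ⟨C, hC⟩ : ∃ C, C = 3 * C₀ + 2 + a := ⟨_, rfl⟩
  rw [← hC] at hk hM ⊢
  have hT0 : 0 < T := by omega
  have hTr : (2 : ℝ) ≤ T := by exact_mod_cast hT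
  have hT1 : (1 : ℝ) ≤ T := by linarith
  have hM1 : 1 ≤ M := (Nat.one_le_pow _ _ hT0).trans hM
  have hMr : (0 : ℝ) < M := by exact_mod_cast hM1
  obtain ⟨Ω, hΩ⟩ : ∃ Ω, Ω = Fintype.piFinset (fun i => KK b (𝒟 i) k) := ⟨_, rfl⟩
  rw [← hΩ] at hS
  have hΩpos : 0 < Ω.card := by
    rw [hΩ, Fintype.card_piFinset]
    exact prod_pos fun i _ => lt_of_lt_of_le (by positivity) (card_pos' hb k (hDS i))
  have hΩr : (0 : ℝ) < Ω.card := by exact_mod_cast hΩpos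
  have h1 := cs_diff' Ω (range M) (fun x y => θ * (val F x * y) + g x + h y) (1 / T) (by positivity) (by
    rw [card_range, one_div, inv_mul_le_iff₀ (by positivity)]
    exact hS)
  rw [card_range] at h1
  -- one of the points
  obtain ⟨u', hu', hmax⟩ := exists_max_image Ω (fun u' => ∑ u ∈ Ω, ‖∑ z ∈ range M,
    e ((θ * (val F u * z) + g u + h z) - (θ * (val F u' * z) + g u' + h z))‖) (card_pos.1 hΩpos)
  obtain ⟨s, hs⟩ : ∃ s : (Fin n → ℕ) → ℝ, s = fun u => ‖∑ z ∈ range M,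
    e ((θ * (val F u * z) + g u + h z) - (θ * (val F u' * z) + g u' + h z))‖ := ⟨_, rfl⟩
  have h2 : ∑ u ∈ Ω, ∑ u' ∈ Ω, ‖∑ z ∈ range M,
      e ((θ * (val F u * z) + g u + h z) - (θ * (val F u' * z) + g u' + h z))‖ ≤ Ω.card * ∑ u ∈ Ω, s u := by
    rw [sum_comm]
    refine (sum_le_card_nsmul Ω _ (∑ u ∈ Ω, s u) (fun x hx => ?_)).trans (le_of_eq ?_)
    · rw [hs]
      exact hmax x hx
    · rw [nsmul_eq_mul]
  have h3 : (Ω.card : ℝ) * M ≤ (T : ℝ) ^ 2 * ∑ u ∈ Ω, s u := by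
    have h4 := h1.trans h2
    have h5 : (Ω.card : ℝ) * ((1 / T) ^ 2 * Ω.card * M) ≤ Ω.card * ∑ u ∈ Ω, s u := by
      refine le_trans (le_of_eq ?_) h4
      ring
    have h6 := le_of_mul_le_mul_left h5 hΩr
    have h7 : (T : ℝ) ^ 2 * ((1 / T) ^ 2 * Ω.card * M) ≤ (T : ℝ) ^ 2 * ∑ u ∈ Ω, s u :=
      mul_le_mul_of_nonneg_left h6 (by positivity)
    refine le_trans (le_of_eq ?_) h7
    field_simp
  obtain ⟨G, hG⟩ : ∃ G, G = Ω.filter (fun u => (M : ℝ) ≤ 2 * (T : ℝ) ^ 2 * s u) := ⟨_, rfl⟩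
  have hsM : ∀ u, s u ≤ M := by
    intro u
    rw [hs]
    refine (norm_sum_le _ _).trans (le_of_eq ?_)
    simp only [norm_e]
    rw [sum_const, card_range, nsmul_eq_mul, mul_one]
  have hGc : Ω.card ≤ 2 * T ^ 2 * G.card := by
    have h4 : 2 * (T : ℝ) ^ 2 * ∑ u ∈ Ω, s u ≤ 2 * (T : ℝ) ^ 2 * (G.card * M) + Ω.card * M := by
      rw [mul_sum]
      calc ∑ u ∈ Ω, 2 * (T : ℝ) ^ 2 * s u ≤ ∑ u ∈ Ω, ((if u ∈ G then 2 * (T : ℝ) ^ 2 * M else 0) + (M : ℝ)) := by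
            apply sum_le_sum
            intro u hu
            split_ifs with hc
            · have := mul_le_mul_of_nonneg_left (hsM u) (show (0 : ℝ) ≤ 2 * (T : ℝ) ^ 2 by positivity)
              linarith
            · rw [hG, mem_filter] at hc
              push Not at hc
              have := hc hu
              linarith
        _ = _ := by
            rw [sum_add_distrib, sum_const, nsmul_eq_mul, ← sum_filter, sum_const, nsmul_eq_mul]
            have e1 : Ω.filter (fun u => u ∈ G) = G := by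
              ext u
              rw [mem_filter]
              constructor
              · exact fun h => h.2
              · intro h
                refine ⟨?_, h⟩
                rw [hG] at h
                exact (mem_filter.1 h).1
            rw [e1]
            ring
    have h5 : (Ω.card : ℝ) * M ≤ 2 * (T : ℝ) ^ 2 * G.card * M := by nlinarith
    have h6 := le_of_mul_le_mul_right h5 hMr
    exact_mod_cast h6
  -- the linear forms
  have hnn : ∀ u ∈ G, nn (θ * val F u - θ * val F u') ≤ (T : ℝ) ^ 2 / M := by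
    intro u hu
    rw [hG, mem_filter] at hu
    have h4 : s u = ‖∑ y ∈ range M, e ((θ * val F u - θ * val F u') * y)‖ := by
      rw [hs]
      simp only
      have h5 : ∀ y ∈ range M, e ((θ * (val F u * y) + g u + h y) - (θ * (val F u' * y) + g u' + h y)) =
          e (g u - g u') * e ((θ * val F u - θ * val F u') * y) := by
        intro y _
        rw [← e_add]
        congr 1
        ring
      rw [sum_congr rfl h5, ← mul_sum, norm_mul, norm_e, one_mul]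
    have h5 := geo (θ * val F u - θ * val F u') M
    rw [← h4] at h5
    rw [le_div_iff₀ hMr]
    have h6 := nn_nonneg (θ * val F u - θ * val F u')
    obtain ⟨v, hv⟩ : ∃ v, v = nn (θ * val F u - θ * val F u') := ⟨_, rfl⟩
    rw [← hv] at h5 h6 ⊢
    calc v * M ≤ v * (2 * (T : ℝ) ^ 2 * s u) := mul_le_mul_of_nonneg_left hu.2 h6
      _ = (T : ℝ) ^ 2 * (s u * (2 * v)) := by ring
      _ ≤ (T : ℝ) ^ 2 * 1 := mul_le_mul_of_nonneg_left h5 (by positivity)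
      _ = _ := mul_one _
  -- the polynomial
  obtain ⟨T', hT'⟩ : ∃ T', T' = 2 * T ^ 2 := ⟨_, rfl⟩
  have hT'2 : 2 ≤ T' := by
    rw [hT']
    have : 1 ≤ T ^ 2 := Nat.one_le_pow _ _ hT0
    omega
  have hT'3 : T' ≤ T ^ 3 := by rw [hT']; exact two_sq_le T hT
  have hT'C : T' ^ C₀ ≤ T ^ (3 * C₀) := by
    rw [pow_mul]
    exact Nat.pow_le_pow_left hT'3 _
  have hT'Cr : (T' : ℝ) ^ C₀ ≤ (T : ℝ) ^ (3 * C₀) := by exact_mod_cast hT'C
  obtain ⟨P, hP⟩ : ∃ P : MvPolynomial (Fin n) ℝ, P = MvPolynomial.C θ * MvPolynomial.map (Int.castRingHom ℝ) F +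
    MvPolynomial.C (-(θ * val F u')) := ⟨_, rfl⟩
  have hPd : ∀ i, P.degreeOf i ≤ D := by
    intro i
    rw [hP]
    refine (MvPolynomial.degreeOf_add_le _ _ _).trans (max_le ?_ ?_)
    · refine (MvPolynomial.degreeOf_C_mul_le _ _ _).trans ?_
      refine le_trans ?_ ((MvPolynomial.degreeOf_le_totalDegree F i).trans hD.ge)
      rw [MvPolynomial.degreeOf_le_iff]
      intro m hmm
      apply MvPolynomial.monomial_le_degreeOf
      exact MvPolynomial.support_map_subset _ _ hmm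
    · rw [MvPolynomial.degreeOf_C]
      exact Nat.zero_le _
  obtain ⟨q, hq1, hq2, hq3⟩ := hMV T' hT'2 k (hT'C.trans ((Nat.pow_le_pow_right hT0 (by omega)).trans hk)) 𝒟 hDS P hPd
    ((T : ℝ) ^ 2 / M) (by positivity) (by
      rw [div_mul_eq_mul_div, div_le_one hMr]
      calc (T : ℝ) ^ 2 * (T' : ℝ) ^ C₀ ≤ (T : ℝ) ^ 2 * (T : ℝ) ^ (3 * C₀) := by gcongr
        _ = (T : ℝ) ^ (3 * C₀ + 2) := by ring
        _ ≤ (T : ℝ) ^ C := pow_le_pow_right₀ hT1 (by omega)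
        _ ≤ M := by exact_mod_cast hM) G (by
      rw [← hΩ, hG]
      exact filter_subset _ _) (by
      rw [← hΩ, hT']
      exact hGc) (by
      intro x hx
      rw [hP, MvPolynomial.eval_add, MvPolynomial.eval_mul, MvPolynomial.eval_C, MvPolynomial.eval_C, val_map]
      have := hnn x hx
      rw [← sub_eq_add_neg]
      exact this)
  have h5 := hq3 m₀
  have h6 : P.coeff m₀ = θ * ((F.coeff m₀ : ℤ) : ℝ) := by
    rw [hP, MvPolynomial.coeff_add, MvPolynomial.coeff_C_mul, MvPolynomial.coeff_C, if_neg hm0.symm, add_zero,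
      MvPolynomial.coeff_map]
    rfl
  rw [h6] at h5
  have h7 : nn (((q * a : ℕ) : ℝ) * θ) = nn (q * (θ * ((F.coeff m₀ : ℤ) : ℝ))) := by
    rcases Int.natAbs_eq (F.coeff m₀) with h8 | h8
    · have h9 : ((F.coeff m₀ : ℤ) : ℝ) = a := by
        rw [ha]
        conv_lhs => rw [h8]
        simp
      rw [h9]
      congr 1
      push_cast
      ring
    · have h9 : ((F.coeff m₀ : ℤ) : ℝ) = -a := by
        rw [ha]
        conv_lhs => rw [h8]
        simp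
      rw [h9, ← nn_neg]
      congr 1
      push_cast
      ring
  refine ⟨q * a, Nat.mul_pos hq1 ha1, ?_, ?_⟩
  · have h8 : a ≤ T ^ a := by
      calc a ≤ 2 ^ a := Nat.lt_two_pow_self.le
        _ ≤ T ^ a := Nat.pow_le_pow_left hT _
    calc q * a ≤ T ^ (3 * C₀) * T ^ a := Nat.mul_le_mul (hq2.trans hT'C) h8
      _ = T ^ (3 * C₀ + a) := by rw [← pow_add]
      _ ≤ T ^ C := Nat.pow_le_pow_right hT0 (by omega)
  · rw [h7]
    have h8 := mul_le_mul_of_nonneg_right h5 hMr.le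
    calc nn (q * (θ * ((F.coeff m₀ : ℤ) : ℝ))) * (((b : ℝ) ^ k) ^ (∑ i, m₀ i) * M) =
        nn (q * (θ * ((F.coeff m₀ : ℤ) : ℝ))) * ((b : ℝ) ^ k) ^ (∑ i, m₀ i) * M := by ring
      _ ≤ (T' : ℝ) ^ C₀ * ((T : ℝ) ^ 2 / M) * M := h8
      _ = (T' : ℝ) ^ C₀ * (T : ℝ) ^ 2 := by field_simp
      _ ≤ (T : ℝ) ^ (3 * C₀) * (T : ℝ) ^ 2 := by gcongr
      _ = (T : ℝ) ^ (3 * C₀ + 2) := by ring
      _ ≤ (T : ℝ) ^ C := pow_le_pow_right₀ hT1 (by omega)

end Pool.Agent.H56.AC
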