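import Pool.Agent.H56.AC.Scale

/-! Linear equations in three primes, the large coefficient near polynomial values: all scales. -/

set_option autoImplicit false

namespace Pool.Agent.H56.AC

open Finset Filter Topology
open Pool.Agent.X31.CT
open Pool.Agent.X275.MD (GoodQ good_of_scales pow_ev)
open Pool.Agent.Y883.T5 (Solv)

/-- the sizes -/
lemma ev_k (b A K U Cs : ℕ) (hb : 2 ≤ b) (δ : ℝ) (hδ : 0 < δ) (N₀ : ℕ) : ∃ k₀ : ℕ, ∀ k : ℕ, k₀ ≤ k →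
    N₀ ≤ k ∧ 2 * (k : ℝ) ^ ((U + 1) * Cs) ≤ ((b : ℝ) ^ k) ^ (δ / 8) ∧
    32 * ((k : ℝ) ^ (A + 1)) ^ (K + 2) ≤ (b : ℝ) ^ k ∧ (k : ℝ) ^ (A + 1) ≤ ((b : ℝ) ^ k) ^ (1 / 2 : ℝ) ∧
    (6 : ℝ) ^ (2 / δ) ≤ k ∧ (k : ℝ) ^ ((U + 1) * Cs) ≤ (b : ℝ) ^ k := by
  obtain ⟨M₁, h1⟩ := pow_ev hb 2 (δ / 8) (by norm_num) (by linarith) ((U + 1) * Cs)
  obtain ⟨M₂, h2⟩ := pow_ev hb 32 1 (by norm_num) (by norm_num) ((A + 1) * (K + 2))
  obtain ⟨M₃, h3⟩ := pow_ev hb 1 (1 / 2) (by norm_num) (by norm_num) (A + 1)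
  obtain ⟨M₄, h4⟩ := exists_nat_ge ((6 : ℝ) ^ (2 / δ))
  obtain ⟨M₅, h5⟩ := pow_ev hb 1 1 (by norm_num) (by norm_num) ((U + 1) * Cs)
  refine ⟨M₁ + M₂ + M₃ + M₄ + M₅ + N₀, fun k hk => ?_⟩
  refine ⟨by omega, h1 k (by omega), ?_, ?_, ?_, ?_⟩
  · have := h2 k (by omega)
    rw [Real.rpow_one] at this
    rw [← pow_mul]
    exact this
  · have := h3 k (by omega)
    rw [one_mul] at this
    exact this
  · have h6 : ((M₄ : ℕ) : ℝ) ≤ k := by exact_mod_cast (by omega : M₄ ≤ k)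
    linarith
  · have := h5 k (by omega)
    rw [one_mul, Real.rpow_one] at this
    exact this

set_option maxHeartbeats 4000000 in
open Classical in
theorem coefP {b : ℕ} (hb : 2 ≤ b) {n : ℕ} (F : MvPolynomial (Fin n) ℤ) (hF : 1 ≤ F.totalDegree) (ε : ℝ) (hε : 0 < ε)
    (A T K U : ℕ) : ∃ k₀ : ℕ, ∀ k : ℕ, k₀ ≤ k → ∀ (c₀ : ℤ) (𝒟 : Fin n → ℕ → Finset ℕ), (∀ i, DS b (𝒟 i)) →
      |(c₀ : ℝ)| ≤ ((b : ℝ) ^ k) ^ F.totalDegree * (k : ℝ) ^ A →
      (((Fintype.piFinset (fun i => KK b (𝒟 i) k)).filter (fun x => ∃ m : ℤ,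
        |((m - (c₀ + MvPolynomial.eval (fun i => (x i : ℤ)) F) : ℤ) : ℝ)| ≤ (k : ℝ) ^ A ∧
          ¬ GoodQ ε T K m.natAbs)).card : ℝ) ≤ (Fintype.piFinset (fun i => KK b (𝒟 i) k)).card / (k : ℝ) ^ U := by
  obtain ⟨m₀, hm₀, hm₀d⟩ := exists_top F hF
  obtain ⟨d, hd⟩ : ∃ d, d = F.totalDegree := ⟨_, rfl⟩
  obtain ⟨H, hH1, hH⟩ := val_le hb F
  obtain ⟨Cs, hCs1, hCs⟩ := small_val hb F m₀ hm₀ (by omega)
  rw [hm₀d] at hCs
  rw [← hd] at hH hCs hF ⊢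
  obtain ⟨δ, hδ⟩ : ∃ δ : ℝ, δ = min ε 1 := ⟨_, rfl⟩
  have hδ0 : 0 < δ := by rw [hδ]; exact lt_min hε one_pos
  have hδ1 : δ ≤ 1 := by rw [hδ]; exact min_le_right _ _
  have hδε : δ ≤ ε := by rw [hδ]; exact min_le_left _ _
  have hK0 : (0 : ℝ) ≤ K := Nat.cast_nonneg _
  obtain ⟨η, hη⟩ : ∃ η : ℝ, η = min (δ / 5) (1 / (K + 3)) := ⟨_, rfl⟩
  have hη0 : 0 < η := by rw [hη]; exact lt_min (by linarith) (by positivity)
  have hη1 : η ≤ δ / 5 := by rw [hη]; exact min_le_left _ _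
  have hη2 : (K + 3 : ℝ) * η ≤ 1 := by
    have : η ≤ 1 / (K + 3) := by rw [hη]; exact min_le_right _ _
    rw [le_div_iff₀ (by positivity)] at this
    linarith
  obtain ⟨A', hA'⟩ : ∃ A' : ℕ, A' = max (4 * T + 10) (A + U + 2) := ⟨_, rfl⟩
  have hA'1 : 4 * T + 10 ≤ A' := by rw [hA']; exact le_max_left _ _
  have hA'2 : A + U + 2 ≤ A' := by rw [hA']; exact le_max_right _ _
  obtain ⟨N₀, h0⟩ := scaleP hb F (by rw [← hd]; exact hF) η hη0 T A' hA'1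
  rw [← hd] at h0
  obtain ⟨κ, hκ⟩ : ∃ κ : ℕ, κ = N₀ + 4 * 2 ^ A + H + 4 + 2 ^ (U + 3) * (d * b * (K + 3) + 1) := ⟨_, rfl⟩
  obtain ⟨k₀, hk₀⟩ := ev_k b A K U Cs hb δ hδ0 κ
  refine ⟨k₀, fun k hk c₀ 𝒟 hDS hc₀ => ?_⟩
  obtain ⟨m1, m2, m3, m4, m5, m6⟩ := hk₀ k hk
  have hb2 : (2 : ℝ) ≤ b := by exact_mod_cast hb
  have hb0 : (0 : ℝ) < b := by linarith
  have hb1 : (1 : ℝ) ≤ b := by linarith
  have hκr : (κ : ℝ) ≤ k := by exact_mod_cast m1
  have hk4 : 4 ≤ k := by omega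
  have hkH : H + 4 ≤ k := by omega
  have hkHr : (H : ℝ) + 4 ≤ k := by exact_mod_cast hkH
  have hk1 : (1 : ℝ) ≤ k := by exact_mod_cast (by omega : 1 ≤ k)
  have hk0 : (0 : ℝ) < k := by linarith
  obtain ⟨Ω, hΩ⟩ : ∃ Ω, Ω = Fintype.piFinset (fun i => KK b (𝒟 i) k) := ⟨_, rfl⟩
  obtain ⟨bk, hbk⟩ : ∃ bk : ℝ, bk = (b : ℝ) ^ k := ⟨_, rfl⟩
  have hbk1 : 1 ≤ bk := by rw [hbk]; exact one_le_pow₀ hb1
  obtain ⟨B, hB⟩ : ∃ B : ℝ, B = bk ^ d := ⟨_, rfl⟩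
  have hB1 : 1 ≤ B := by rw [hB]; exact one_le_pow₀ hbk1
  have hB0 : 0 < B := by linarith
  have hbkB : bk ≤ B := by
    rw [hB]
    exact le_self_pow₀ hbk1 (by omega)
  have hH' := hH k 𝒟 hDS
  have hCs' := fun T hT hk => hCs T hT k hk 𝒟 hDS
  rw [← hΩ] at hH' hCs' ⊢
  rw [← hbk] at m2 m3 m4 m6 hH' hCs' hc₀
  rw [← hB] at hH' hCs' hc₀
  have hm2 : 2 * (k : ℝ) ^ ((U + 1) * Cs) ≤ B ^ (δ / 8) :=
    m2.trans (Real.rpow_le_rpow (by linarith) hbkB (by positivity))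
  have hm3 : 32 * ((k : ℝ) ^ (A + 1)) ^ (K + 2) ≤ B := m3.trans hbkB
  have hm4 : (k : ℝ) ^ (A + 1) ≤ B ^ (1 / 2 : ℝ) := m4.trans (Real.rpow_le_rpow (by linarith) hbkB (by positivity))
  have hk0A : (1 : ℝ) ≤ (k : ℝ) ^ A := one_le_pow₀ hk1
  have hkA : (k : ℝ) ^ A ≤ (k : ℝ) ^ (A + 1) := pow_le_pow_right₀ hk1 (by omega)
  obtain ⟨Z, hZ⟩ : ∃ Z : ℝ, Z = (Ω.card : ℝ) := ⟨_, rfl⟩
  have hZ0 : 0 ≤ Z := by rw [hZ]; exact Nat.cast_nonneg _
  -- the small values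
  have hT₀k : (k ^ (U + 1)) ^ Cs ≤ b ^ k := by
    have h6 : ((k : ℝ) ^ (U + 1)) ^ Cs ≤ (b : ℝ) ^ k := by
      rw [← pow_mul, ← hbk]
      exact m6
    exact_mod_cast h6
  have hT₀2 : 2 ≤ k ^ (U + 1) := by
    calc 2 ≤ k := by omega
      _ ≤ k ^ (U + 1) := Nat.le_self_pow (by omega) _
  have hsm := hCs' (k ^ (U + 1)) hT₀2 hT₀k (c₀ : ℝ)
  push_cast at hsm
  rw [← pow_mul] at hsm
  obtain ⟨Xs, hXs⟩ : ∃ Xs, Xs = Ω.filter (fun x => |val F x + c₀| * (k : ℝ) ^ ((U + 1) * Cs) ≤ B) := ⟨_, rfl⟩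
  rw [← hXs] at hsm
  have hXsc : (Xs.card : ℝ) ≤ Z / (2 * (k : ℝ) ^ U) := by
    rw [le_div_iff₀ (by positivity), hZ]
    have h6 : ((k ^ (U + 1) * Xs.card : ℕ) : ℝ) ≤ Ω.card := by exact_mod_cast hsm.le
    push_cast at h6
    have h7 : 2 * (k : ℝ) ^ U ≤ (k : ℝ) ^ (U + 1) := by
      rw [pow_succ]
      have : (0 : ℝ) ≤ (k : ℝ) ^ U := by positivity
      nlinarith
    have h8 : (0 : ℝ) ≤ Xs.card := Nat.cast_nonneg _
    nlinarith
  -- the scales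
  obtain ⟨SI, hSI⟩ : ∃ SI : ℕ → Finset (Fin n → ℕ), SI = fun i => Ω.filter (fun x =>
    (((2 ^ i : ℕ) : ℝ)) ^ η ≤ B ∧ B ≤ (((2 ^ i : ℕ) : ℝ)) ^ (1 - η) ∧
      ∃ m : ℤ, |((m - (c₀ + MvPolynomial.eval (fun i => (x i : ℤ)) F) : ℤ) : ℝ)| ≤ (k : ℝ) ^ A ∧ m ≠ 0 ∧
        ¬ Solv (2 ^ i) T m.natAbs) := ⟨_, rfl⟩
  have hSIc : ∀ i, ((SI i).card : ℝ) ≤ Z * (2 ^ (U + 2) / (k : ℝ) ^ (U + 2)) := by
    intro i
    by_cases hcond : (((2 ^ i : ℕ) : ℝ)) ^ η ≤ B ∧ B ≤ (((2 ^ i : ℕ) : ℝ)) ^ (1 - η)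
    · obtain ⟨c1, c2⟩ := hcond
      have hN1 : (1 : ℝ) ≤ ((2 ^ i : ℕ) : ℝ) := by exact_mod_cast Nat.one_le_two_pow
      have hBN : B ≤ ((2 ^ i : ℕ) : ℝ) := by
        refine c2.trans ?_
        calc (((2 ^ i : ℕ) : ℝ)) ^ (1 - η) ≤ (((2 ^ i : ℕ) : ℝ)) ^ (1 : ℝ) :=
              Real.rpow_le_rpow_of_exponent_le hN1 (by linarith)
          _ = _ := Real.rpow_one _
      have hbMN : b ^ k ≤ 2 ^ i := by
        have h6 : (b : ℝ) ^ k ≤ ((2 ^ i : ℕ) : ℝ) := by rw [← hbk]; exact hbkB.trans hBN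
        have : ((b ^ k : ℕ) : ℝ) ≤ ((2 ^ i : ℕ) : ℝ) := by push_cast; push_cast at h6; exact h6
        exact_mod_cast this
      have hMN : k < 2 ^ i := lt_of_lt_of_le (Nat.lt_pow_self (by omega)) hbMN
      have hlog : (k : ℝ) / 2 ≤ Real.log ((2 ^ i : ℕ) : ℝ) := by
        have h6 : (b : ℝ) ^ k ≤ ((2 ^ i : ℕ) : ℝ) := by rw [← hbk]; exact hbkB.trans hBN
        have e1 := Real.log_le_log (by positivity) h6
        rw [Real.log_pow] at e1
        have h4 : Real.log 2 ≤ Real.log b := Real.log_le_log (by norm_num) hb2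
        have h5 := Real.log_two_gt_d9
        nlinarith
      obtain ⟨L, hL⟩ : ∃ L, L = Real.log ((2 ^ i : ℕ) : ℝ) := ⟨_, rfl⟩
      have h00 := h0 (2 ^ i) (by omega) k c₀ 𝒟 hDS (by rw [← hbk, ← hB]; exact c1) (by rw [← hbk, ← hB]; exact c2)
      rw [← hL] at hlog h00
      have hML : (2 ^ A : ℝ) + 1 ≤ L := by
        have h6 : 4 * 2 ^ A + 4 ≤ k := by omega
        have : ((4 * 2 ^ A + 4 : ℕ) : ℝ) ≤ k := by exact_mod_cast h6
        push_cast at this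
        have h7 : (0 : ℝ) ≤ 2 ^ A := by positivity
        linarith
      have hL1 : 1 ≤ L := by
        have : (0 : ℝ) < 2 ^ A := by positivity
        linarith
      have hSL : (k : ℝ) ^ A ≤ L ^ A' := by
        calc (k : ℝ) ^ A ≤ (2 * L) ^ A := pow_le_pow_left₀ hk0.le (by linarith) _
          _ = 2 ^ A * L ^ A := by rw [mul_pow]
          _ ≤ L * L ^ A := mul_le_mul_of_nonneg_right (by linarith) (by positivity)
          _ = L ^ (A + 1) := by ring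
          _ ≤ L ^ A' := pow_le_pow_right₀ hL1 (by omega)
      have h01 := h00 (by
          rw [← hbk, ← hB]
          exact hc₀.trans (mul_le_mul_of_nonneg_left hSL hB0.le)) (SI i)
        (by rw [hSI, ← hΩ]; exact filter_subset _ _) (by
          intro x hx
          rw [hSI] at hx
          obtain ⟨-, -, -, m, h5, h6, h7⟩ := mem_filter.1 hx
          exact ⟨m, h5.trans hSL, h6, h7⟩)
      rw [← hΩ, ← hZ] at h01
      refine h01.trans ?_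
      rw [← mul_div_assoc]
      rw [div_le_div_iff₀ (by positivity) (by positivity)]
      rw [mul_assoc]
      apply mul_le_mul_of_nonneg_left _ hZ0
      calc (k : ℝ) ^ (U + 2) ≤ (2 * L) ^ (U + 2) := pow_le_pow_left₀ hk0.le (by linarith) _
        _ = 2 ^ (U + 2) * L ^ (U + 2) := by rw [mul_pow]
        _ ≤ 2 ^ (U + 2) * L ^ A' := by
            apply mul_le_mul_of_nonneg_left _ (by positivity)
            exact pow_le_pow_right₀ hL1 (by omega)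
    · have : SI i = ∅ := by
        rw [hSI]
        apply filter_false_of_mem
        intro k _ hk
        exact hcond ⟨hk.1, hk.2.1⟩
      rw [this, card_empty, Nat.cast_zero]
      positivity
  -- the bad vectors
  obtain ⟨W, hW⟩ : ∃ W : ℕ, W = b * (k * d * (K + 3)) + 1 := ⟨_, rfl⟩
  have hsub : Ω.filter (fun x => ∃ m : ℤ,
      |((m - (c₀ + MvPolynomial.eval (fun i => (x i : ℤ)) F) : ℤ) : ℝ)| ≤ (k : ℝ) ^ A ∧ ¬ GoodQ ε T K m.natAbs) ⊆
      Xs ∪ (range W).biUnion SI := by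
    intro x hx
    obtain ⟨hx1, m, hx2, hx3⟩ := mem_filter.1 hx
    rw [mem_union, mem_biUnion]
    by_contra hcon
    push Not at hcon
    obtain ⟨hc1, hc2⟩ := hcon
    apply hx3
    obtain ⟨q, hq⟩ : ∃ q, q = m.natAbs := ⟨_, rfl⟩
    rw [← hq]
    have hxs : B < |val F x + c₀| * (k : ℝ) ^ ((U + 1) * Cs) := by
      rw [hXs, mem_filter] at hc1
      push Not at hc1
      exact hc1 hx1
    have hxm : |(m : ℝ) - (c₀ + val F x)| ≤ (k : ℝ) ^ A := by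
      have e1 : ((m - (c₀ + MvPolynomial.eval (fun i => (x i : ℤ)) F) : ℤ) : ℝ) = (m : ℝ) - (c₀ + val F x) := by
        unfold val
        push_cast
        ring
      rw [← e1]
      exact hx2
    have hqa : (q : ℝ) = |(m : ℝ)| := by rw [hq, Nat.cast_natAbs, Int.cast_abs]
    have hkB2 : (k : ℝ) ^ A ≤ B ^ (1 - δ / 8) := by
      refine hkA.trans (hm4.trans ?_)
      exact Real.rpow_le_rpow_of_exponent_le hB1 (by linarith)
    have hqlo : B ^ (1 - δ / 8) ≤ q := by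
      have e2 : B ^ (1 - δ / 8) * B ^ (δ / 8) = B := by
        rw [← Real.rpow_add hB0]
        simp
      have h6 : |val F x + c₀| ≤ q + (k : ℝ) ^ A := by
        have h7 := abs_sub (m : ℝ) ((m : ℝ) - (c₀ + val F x))
        rw [sub_sub_cancel, ← hqa] at h7
        rw [add_comm (val F x)]
        linarith
      have h7 : B < (q + (k : ℝ) ^ A) * (k : ℝ) ^ ((U + 1) * Cs) :=
        lt_of_lt_of_le hxs (mul_le_mul_of_nonneg_right h6 (by positivity))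
      have h8 : (q + (k : ℝ) ^ A) * (2 * (k : ℝ) ^ ((U + 1) * Cs)) ≤ (q + (k : ℝ) ^ A) * B ^ (δ / 8) :=
        mul_le_mul_of_nonneg_left hm2 (by positivity)
      have h9 : (2 * B ^ (1 - δ / 8)) * B ^ (δ / 8) < (q + (k : ℝ) ^ A) * B ^ (δ / 8) := by
        rw [mul_assoc, e2]
        linarith
      have h10 := lt_of_mul_lt_mul_right h9 (by positivity)
      linarith
    have hB12 : B ^ (1 / 2 : ℝ) ≤ q := by
      refine le_trans ?_ hqlo
      exact Real.rpow_le_rpow_of_exponent_le hB1 (by linarith)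
    have hq6 : (6 : ℝ) ^ (2 / δ) ≤ q := by
      refine m5.trans (le_trans ?_ (hm4.trans hB12))
      exact le_self_pow₀ hk1 (by omega)
    have hqk : (1 : ℝ) ≤ q := hk0A.trans (hkA.trans (hm4.trans hB12))
    have hq1 : 1 ≤ q := by exact_mod_cast hqk
    have hq0 : (0 : ℝ) < q := by linarith
    have hm0 : m ≠ 0 := by
      intro h
      rw [h, Int.natAbs_zero] at hq
      omega
    have hqhi : (q : ℝ) ≤ B * (k : ℝ) ^ (A + 1) := by
      have h6 := hH' x hx1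
      have h7 : |(m : ℝ)| ≤ |(m : ℝ) - (c₀ + val F x)| + |(c₀ : ℝ)| + |val F x| := by
        have h8 := abs_add_three ((m : ℝ) - (c₀ + val F x)) (c₀ : ℝ) (val F x)
        have h9 : (m : ℝ) - (c₀ + val F x) + c₀ + val F x = m := by ring
        rwa [h9] at h8
      rw [← hqa] at h7
      have h8 : (k : ℝ) ^ A ≤ B * (k : ℝ) ^ A := le_mul_of_one_le_left (by positivity) hB1
      have h9 : (H : ℝ) * B ≤ H * (B * (k : ℝ) ^ A) := by
        apply mul_le_mul_of_nonneg_left _ (Nat.cast_nonneg _)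
        exact le_mul_of_one_le_right hB0.le hk0A
      have h10 : B * (k : ℝ) ^ (A + 1) = k * (B * (k : ℝ) ^ A) := by ring
      rw [h10]
      have h11 : (H + 2) * (B * (k : ℝ) ^ A) ≤ k * (B * (k : ℝ) ^ A) :=
        mul_le_mul_of_nonneg_right (by linarith) (by positivity)
      linarith
    apply good_of_scales hδ0 hδε hq1 hq6 _ hδ1
    intro i hi1 hi2 _
    by_contra hns
    have hN1 : (1 : ℝ) ≤ ((2 ^ i : ℕ) : ℝ) := by exact_mod_cast Nat.one_le_two_pow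
    have hlo : B ^ (1 + δ / 4) ≤ ((2 ^ i : ℕ) : ℝ) := by
      refine le_trans ?_ hi1
      calc B ^ (1 + δ / 4) ≤ B ^ ((1 - δ / 8) * (1 + δ / 2)) := by
            apply Real.rpow_le_rpow_of_exponent_le hB1
            nlinarith
        _ = (B ^ (1 - δ / 8)) ^ (1 + δ / 2) := Real.rpow_mul hB0.le _ _
        _ ≤ (q : ℝ) ^ (1 + δ / 2) := Real.rpow_le_rpow (by positivity) hqlo (by linarith)
    have hhi : ((2 ^ i : ℕ) : ℝ) ≤ B ^ (K + 3) := by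
      refine hi2.trans ?_
      calc 32 * (q : ℝ) ^ (K + 2) ≤ 32 * (B * (k : ℝ) ^ (A + 1)) ^ (K + 2) := by
            apply mul_le_mul_of_nonneg_left _ (by norm_num)
            exact pow_le_pow_left₀ hq0.le hqhi _
        _ = (32 * ((k : ℝ) ^ (A + 1)) ^ (K + 2)) * B ^ (K + 2) := by rw [mul_pow]; ring
        _ ≤ B * B ^ (K + 2) := mul_le_mul_of_nonneg_right hm3 (by positivity)
        _ = B ^ (K + 3) := by ring
    have hiW : i ∈ range W := by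
      rw [mem_range]
      have e1 : ((2 ^ i : ℕ) : ℝ) ≤ ((2 ^ (b * (k * d * (K + 3))) : ℕ) : ℝ) := by
        refine hhi.trans ?_
        push_cast
        rw [hB, hbk, ← pow_mul, ← pow_mul, ← mul_assoc k d, pow_mul (2 : ℝ) b (k * d * (K + 3))]
        exact pow_le_pow_left₀ hb0.le (by exact_mod_cast (Nat.lt_two_pow_self (n := b)).le : (b : ℝ) ≤ 2 ^ b) _
      have e2 : 2 ^ i ≤ 2 ^ (b * (k * d * (K + 3))) := by exact_mod_cast e1
      have := (Nat.pow_le_pow_iff_right (by norm_num : 1 < 2)).1 e2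
      omega
    apply hc2 i hiW
    rw [hSI]
    apply mem_filter.2
    refine ⟨hx1, ?_, ?_, m, hx2, hm0, by rw [← hq]; exact hns⟩
    · calc (((2 ^ i : ℕ) : ℝ)) ^ η ≤ (B ^ (K + 3)) ^ η := Real.rpow_le_rpow (by positivity) hhi hη0.le
        _ = B ^ ((K + 3 : ℝ) * η) := by
            rw [Real.rpow_mul hB0.le]
            congr 1
            rw [← Real.rpow_natCast]
            congr 1
            push_cast
            ring
        _ ≤ B ^ (1 : ℝ) := Real.rpow_le_rpow_of_exponent_le hB1 hη2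
        _ = B := Real.rpow_one _
    · calc B = B ^ (1 : ℝ) := (Real.rpow_one _).symm
        _ ≤ B ^ ((1 + δ / 4) * (1 - η)) := by
            apply Real.rpow_le_rpow_of_exponent_le hB1
            nlinarith
        _ = (B ^ (1 + δ / 4)) ^ (1 - η) := Real.rpow_mul hB0.le _ _
        _ ≤ (((2 ^ i : ℕ) : ℝ)) ^ (1 - η) := Real.rpow_le_rpow (by positivity) hlo (by linarith)
  -- counting
  have hc1 : ((Ω.filter (fun x => ∃ m : ℤ,
      |((m - (c₀ + MvPolynomial.eval (fun i => (x i : ℤ)) F) : ℤ) : ℝ)| ≤ (k : ℝ) ^ A ∧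
        ¬ GoodQ ε T K m.natAbs)).card : ℝ) ≤ (Xs.card : ℝ) + ∑ i ∈ range W, ((SI i).card : ℝ) := by
    have e1 := (card_le_card hsub).trans (card_union_le _ _)
    have e2 : ((range W).biUnion SI).card ≤ ∑ i ∈ range W, (SI i).card := card_biUnion_le
    have e3 := e1.trans (Nat.add_le_add_left e2 Xs.card)
    exact_mod_cast e3
  have hc2 : ∑ i ∈ range W, ((SI i).card : ℝ) ≤ Z / (2 * (k : ℝ) ^ U) := by
    calc ∑ i ∈ range W, ((SI i).card : ℝ) ≤ ∑ _i ∈ range W, Z * (2 ^ (U + 2) / (k : ℝ) ^ (U + 2)) :=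
          sum_le_sum (fun i _ => hSIc i)
      _ = W * (Z * (2 ^ (U + 2) / (k : ℝ) ^ (U + 2))) := by rw [sum_const, card_range, nsmul_eq_mul]
      _ = Z * (W * 2 ^ (U + 2)) / (k : ℝ) ^ (U + 2) := by ring
      _ ≤ Z / (2 * (k : ℝ) ^ U) := by
          rw [div_le_div_iff₀ (by positivity) (by positivity)]
          rw [mul_assoc]
          apply mul_le_mul_of_nonneg_left _ hZ0
          have e1 : (W : ℝ) ≤ (d * b * (K + 3) + 1 : ℕ) * k := by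
            rw [hW]
            push_cast
            nlinarith
          have e2 : ((2 ^ (U + 3) * (d * b * (K + 3) + 1) : ℕ) : ℝ) ≤ k := by
            exact_mod_cast (by omega : 2 ^ (U + 3) * (d * b * (K + 3) + 1) ≤ k)
          calc (W : ℝ) * 2 ^ (U + 2) * (2 * (k : ℝ) ^ U) ≤
              ((d * b * (K + 3) + 1 : ℕ) * k) * 2 ^ (U + 2) * (2 * (k : ℝ) ^ U) := by gcongr
            _ = ((2 ^ (U + 3) * (d * b * (K + 3) + 1) : ℕ) : ℝ) * (k * (k : ℝ) ^ U) := by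
                push_cast
                ring
            _ ≤ k * (k * (k : ℝ) ^ U) := mul_le_mul_of_nonneg_right e2 (by positivity)
            _ = (k : ℝ) ^ (U + 2) := by ring
  rw [← hZ]
  calc _ ≤ Z / (2 * (k : ℝ) ^ U) + Z / (2 * (k : ℝ) ^ U) := by linarith
    _ = Z / (k : ℝ) ^ U := by field_simp; ring

end Pool.Agent.H56.AC
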