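import Pool.Agent.H56.AC.En
import Pool.Graph.R_pool_sql_team_seeded_64922ed1.X275.MD.MD8

/-! Almost all vectors, all shifts at once; small values of polynomials. -/

set_option autoImplicit false

namespace Pool.Agent.H56.AC

open Finset Filter Topology
open Pool.Agent.X31 (Sch)
open Pool.Agent.X31.CT
open Pool.Agent.X275.MD (Alm alm_single log_ev bad)

/-- For almost all vectors `x`, for EVERY shift `δ`, almost all `θ (F(x) + c₀) y + δ` are near integers with `R`. -/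
theorem coreP {b : ℕ} {n : ℕ} (F : MvPolynomial (Fin n) ℤ) (d lam : ℕ) (R : ℕ → ℤ → Prop)
    (HR : Alm (PVal b lam F d) R) (D : ℕ) :
    ∃ N₀ : ℕ, ∀ N : ℕ, N₀ ≤ N → ∀ (k m : ℕ) (𝒟 : Fin n → ℕ → Finset ℕ) (θ c₀ : ℝ), (∀ i, DS b (𝒟 i)) →
      b ^ k ≤ (2 ^ m) ^ lam → 2 ^ m ≤ (b ^ k) ^ lam →
      |θ| ≤ Real.log N ^ D → (N : ℝ) / Real.log N ^ D ≤ |θ| * (((b : ℝ) ^ k) ^ d * 2 ^ m) →
      ∀ X : Finset (Fin n → ℕ), X ⊆ Fintype.piFinset (fun i => KK b (𝒟 i) k) →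
        (∀ x ∈ X, ∃ δ : ℝ, (2 : ℝ) ^ m / Real.log N ^ D ≤ ((bad R D N m (θ * (val F x + c₀)) δ).card : ℝ)) →
        (X.card : ℝ) ≤ (Fintype.piFinset (fun i => KK b (𝒟 i) k)).card / Real.log N ^ D := by
  classical
  obtain ⟨N₁, h1⟩ := HR (2 * D) 1
  obtain ⟨N₂, h2⟩ := log_ev 2
  refine ⟨N₁ + N₂, fun N hN k m 𝒟 θ c₀ hD hl1 hl2 hθ hsz X hX hbad => ?_⟩
  have hL2 := h2 N (by omega)
  have hL1 : 1 ≤ Real.log N := by linarith
  obtain ⟨T, hT⟩ : ∃ T, T = Real.log (N : ℝ) ^ D := ⟨_, rfl⟩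
  have hT1 : 1 ≤ T := by rw [hT]; exact one_le_pow₀ hL1
  have hT0 : 0 < T := by linarith
  have hTT : Real.log (N : ℝ) ^ (2 * D) = T * T := by rw [hT, two_mul, pow_add]
  have hTle : T ≤ T * T := by nlinarith
  obtain ⟨Ω, hΩ⟩ : ∃ Ω, Ω = Fintype.piFinset (fun i => KK b (𝒟 i) k) := ⟨_, rfl⟩
  rw [← hΩ] at hX ⊢
  by_contra hcon
  push Not at hcon
  rw [← hT] at hcon hsz hθ
  choose! δ hδ using hbad
  obtain ⟨A, hA⟩ : ∃ A : Finset ((Fin n → ℕ) × ℕ), A = (Ω ×ˢ range (2 ^ m)).filter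
    (fun p => p.1 ∈ X ∧ p.2 ∈ bad R D N m (θ * (val F p.1 + c₀)) (δ p.1)) := ⟨_, rfl⟩
  have hAc : (A.card : ℝ) = ∑ x ∈ X, ((bad R D N m (θ * (val F x + c₀)) (δ x)).card : ℝ) := by
    have e1 : A = (X.sigma (fun x : Fin n → ℕ => bad R D N m (θ * (val F x + c₀)) (δ x))).map
        ⟨fun p : (_ : Fin n → ℕ) × ℕ => (p.1, p.2), fun p q h => by
          simp only [Prod.mk.injEq] at h
          exact Sigma.ext h.1 (heq_of_eq h.2)⟩ := by
      ext p
      rw [hA, mem_filter, mem_product, Finset.mem_map]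
      constructor
      · rintro ⟨_, h4, h5⟩
        exact ⟨⟨p.1, p.2⟩, mem_sigma.2 ⟨h4, h5⟩, rfl⟩
      · rintro ⟨q, hq, rfl⟩
        rw [mem_sigma] at hq
        exact ⟨⟨hX hq.1, (mem_filter.1 hq.2).1⟩, hq.1, hq.2⟩
    rw [e1, card_map, card_sigma]
    push_cast
    rfl
  have hlow : (X.card : ℝ) * ((2 : ℝ) ^ m / T) ≤ A.card := by
    rw [hAc, ← nsmul_eq_mul, ← sum_const]
    apply sum_le_sum
    intro x hx
    rw [hT]
    exact hδ x hx
  have hXpos : 0 < (X.card : ℝ) := lt_of_le_of_lt (by positivity) hcon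
  have hApos : 0 < (A.card : ℝ) := lt_of_lt_of_le (by positivity) hlow
  obtain ⟨E, hE1, hE2⟩ := h1 N (by omega) A (fam F θ δ (fun y => θ * c₀ * y))
    ⟨k, 2 ^ m, 𝒟, θ, δ, fun y => θ * c₀ * y,
      { ds := hD
        pos := Nat.one_le_two_pow
        len₁ := hl1
        len₂ := hl2
        lead := by rw [hTT]; linarith
        size := by
          rw [hTT]
          push_cast
          refine le_trans ?_ hsz
          exact div_le_div_of_nonneg_left (Nat.cast_nonneg _) hT0 hTle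
        sub := by
          rw [hA, hΩ]
          exact filter_subset _ _
        dense := by
          rw [card_product, card_range, ← hΩ, hTT]
          push_cast
          refine le_trans ?_ hlow
          have h5 : (Ω.card : ℝ) / T * (2 ^ m / T) ≤ X.card * (2 ^ m / T) :=
            mul_le_mul_of_nonneg_right hcon.le (by positivity)
          refine le_trans (le_of_eq ?_) h5
          field_simp
        bd := by
          intro p hp
          rw [hA, mem_filter] at hp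
          have h5 := (mem_filter.1 hp.2.2).2.1
          refine le_trans (le_of_eq ?_) h5
          unfold fam
          congr 1
          ring }, fun p => rfl⟩
  have hAE : A ⊆ E := by
    intro p hp
    by_contra hcon2
    have h5 := hE2 p hp hcon2
    rw [hA, mem_filter] at hp
    obtain ⟨s, hs1, hs2⟩ := (mem_filter.1 hp.2.2).2.2
    apply hs2
    apply h5 s
    rw [hTT]
    rw [← hT] at hs1
    refine le_trans (le_of_eq ?_) (hs1.trans hTle)
    unfold fam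
    congr 1
    ring
  have h6 : (A.card : ℝ) ≤ E.card := by exact_mod_cast card_le_card hAE
  rw [pow_one] at hE1
  have h7 : (A.card : ℝ) / Real.log N ≤ A.card / 2 := div_le_div_of_nonneg_left hApos.le (by norm_num) hL2
  linarith

/-- the values are rarely small -/
theorem small_val {b : ℕ} (hb : 2 ≤ b) {n : ℕ} (F : MvPolynomial (Fin n) ℤ) (m₀ : Fin n →₀ ℕ) (hm : F.coeff m₀ ≠ 0)
    (hm0 : 1 ≤ ∑ i, m₀ i) : ∃ C : ℕ, 1 ≤ C ∧ ∀ T : ℕ, 2 ≤ T → ∀ k : ℕ, T ^ C ≤ b ^ k →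
    ∀ 𝒟 : Fin n → ℕ → Finset ℕ, (∀ i, DS b (𝒟 i)) → ∀ c : ℝ,
    T * ((Fintype.piFinset (fun i => KK b (𝒟 i) k)).filter
      (fun x => |val F x + c| * (T : ℝ) ^ C ≤ ((b : ℝ) ^ k) ^ (∑ i, m₀ i))).card <
      (Fintype.piFinset (fun i => KK b (𝒟 i) k)).card := by
  classical
  obtain ⟨D, hD⟩ : ∃ D, D = F.totalDegree := ⟨_, rfl⟩
  obtain ⟨C₀, hC₀, hMV⟩ := mv hb D n
  obtain ⟨a, ha⟩ : ∃ a : ℕ, a = (F.coeff m₀).natAbs := ⟨_, rfl⟩
  have ha1 : 1 ≤ a := by rw [ha]; exact Int.natAbs_pos.2 hm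
  obtain ⟨d, hd⟩ : ∃ d, d = ∑ i, m₀ i := ⟨_, rfl⟩
  rw [← hd] at hm0 ⊢
  have hm₀ne : m₀ ≠ 0 := by
    intro h
    rw [h] at hd
    simp at hd
    omega
  refine ⟨C₀ + 1 + a + 1, by omega, fun T hT k hk 𝒟 hDS c => ?_⟩
  obtain ⟨C, hC⟩ : ∃ C, C = C₀ + 1 + a + 1 := ⟨_, rfl⟩
  rw [← hC] at hk ⊢
  obtain ⟨Ω, hΩ⟩ : ∃ Ω, Ω = Fintype.piFinset (fun i => KK b (𝒟 i) k) := ⟨_, rfl⟩
  obtain ⟨G, hG⟩ : ∃ G, G = Ω.filter (fun x => |val F x + c| * (T : ℝ) ^ C ≤ ((b : ℝ) ^ k) ^ d) := ⟨_, rfl⟩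
  rw [← hΩ, ← hG]
  by_contra hcon
  push Not at hcon
  have hT0 : 0 < T := by omega
  have hTr : (2 : ℝ) ≤ T := by exact_mod_cast hT
  have hT1 : (1 : ℝ) ≤ T := by linarith
  have hTp : (0 : ℝ) < T := by linarith
  have hb1 : (1 : ℝ) ≤ b := by exact_mod_cast (by omega : 1 ≤ b)
  obtain ⟨B, hB⟩ : ∃ B, B = ((b : ℝ) ^ k) ^ d := ⟨_, rfl⟩
  rw [← hB] at hG
  have hbk : (1 : ℝ) ≤ (b : ℝ) ^ k := one_le_pow₀ hb1
  have hBk : (b : ℝ) ^ k ≤ B := by
    rw [hB]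
    exact le_self_pow₀ hbk (by omega)
  have hTC : (T : ℝ) ^ C ≤ B := by
    refine le_trans ?_ hBk
    exact_mod_cast hk
  have hB0 : 0 < B := lt_of_lt_of_le (by positivity) hTC
  -- the parameters
  obtain ⟨θ, hθ⟩ : ∃ θ : ℝ, θ = T / B := ⟨_, rfl⟩
  have hθ0 : 0 < θ := by rw [hθ]; positivity
  obtain ⟨P, hP⟩ : ∃ P : MvPolynomial (Fin n) ℝ, P = MvPolynomial.C θ * MvPolynomial.map (Int.castRingHom ℝ) F +
    MvPolynomial.C (θ * c) := ⟨_, rfl⟩
  have hPd : ∀ i, P.degreeOf i ≤ D := by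
    intro i
    rw [hP]
    refine (MvPolynomial.degreeOf_add_le _ _ _).trans (max_le ?_ ?_)
    · refine (MvPolynomial.degreeOf_C_mul_le _ _ _).trans ?_
      refine le_trans ?_ ((MvPolynomial.degreeOf_le_totalDegree F i).trans hD.ge)
      rw [MvPolynomial.degreeOf_le_iff]
      intro m hmm
      apply MvPolynomial.monomial_le_degreeOf
      exact MvPolynomial.support_map_subset _ _ hmm
    · rw [MvPolynomial.degreeOf_C]
      exact Nat.zero_le _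
  obtain ⟨η, hη⟩ : ∃ η : ℝ, η = 1 / (T : ℝ) ^ C₀ := ⟨_, rfl⟩
  have hη0 : 0 < η := by rw [hη]; positivity
  have hηT : η * (T : ℝ) ^ C₀ = 1 := by rw [hη]; field_simp
  obtain ⟨q, hq1, hq2, hq3⟩ := hMV T hT k ((Nat.pow_le_pow_right hT0 (by omega)).trans hk) 𝒟 hDS P hPd
    η hη0.le hηT.le G (by
      rw [← hΩ, hG]
      exact filter_subset _ _) (by
      rw [← hΩ]
      exact hcon) (by
      intro x hx
      rw [hG, mem_filter] at hx
      rw [hP, MvPolynomial.eval_add, MvPolynomial.eval_mul, MvPolynomial.eval_C, MvPolynomial.eval_C, val_map]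
      refine (nn_abs_le _).trans ?_
      rw [← mul_add, abs_mul, abs_of_pos hθ0, hη, le_div_iff₀ (by positivity), hθ]
      calc T / B * |val F x + c| * (T : ℝ) ^ C₀ = (|val F x + c| * (T : ℝ) ^ (C₀ + 1)) / B := by ring
        _ ≤ (|val F x + c| * (T : ℝ) ^ C) / B := by
            apply div_le_div_of_nonneg_right _ hB0.le
            exact mul_le_mul_of_nonneg_left (pow_le_pow_right₀ hT1 (by omega)) (abs_nonneg _)
        _ ≤ 1 := by
            rw [div_le_one hB0]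
            exact hx.2)
  have h5 := hq3 m₀
  have h6 : P.coeff m₀ = θ * ((F.coeff m₀ : ℤ) : ℝ) := by
    rw [hP, MvPolynomial.coeff_add, MvPolynomial.coeff_C_mul, MvPolynomial.coeff_C, if_neg hm₀ne.symm, add_zero,
      MvPolynomial.coeff_map]
    rfl
  have haa : |((F.coeff m₀ : ℤ) : ℝ)| = a := by
    rw [ha, Nat.cast_natAbs, Int.cast_abs]
  have hqr : (1 : ℝ) ≤ q := by exact_mod_cast hq1
  have hqT : (q : ℝ) ≤ (T : ℝ) ^ C₀ := by exact_mod_cast hq2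
  have har : (1 : ℝ) ≤ a := by exact_mod_cast ha1
  have h7 : |(q : ℝ) * P.coeff m₀| = q * (θ * a) := by
    rw [h6, abs_mul, abs_mul, haa, abs_of_pos hθ0, abs_of_nonneg (Nat.cast_nonneg q)]
  have haT : 2 * (a : ℝ) ≤ (T : ℝ) ^ (a + 1) := by
    have : 2 * a ≤ T ^ (a + 1) := by
      calc 2 * a ≤ 2 * 2 ^ a := Nat.mul_le_mul_left _ Nat.lt_two_pow_self.le
        _ = 2 ^ (a + 1) := by ring
        _ ≤ T ^ (a + 1) := Nat.pow_le_pow_left hT _
    exact_mod_cast this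
  obtain ⟨v, hv⟩ : ∃ v, v = nn ((q : ℝ) * P.coeff m₀) := ⟨_, rfl⟩
  have h8 : |(q : ℝ) * P.coeff m₀| ≤ 1 / 2 := by
    rw [h7, hθ]
    have e1 : (T : ℝ) ^ C = (T : ℝ) ^ (C₀ + 1) * (T : ℝ) ^ (a + 1) := by
      rw [← pow_add, hC]
      congr 1
    rw [e1] at hTC
    calc (q : ℝ) * (T / B * a) ≤ (T : ℝ) ^ C₀ * (T / B * a) := by gcongr
      _ = ((T : ℝ) ^ (C₀ + 1) * (2 * a)) / B * (1 / 2) := by ring
      _ ≤ 1 * (1 / 2) := by
          apply mul_le_mul_of_nonneg_right _ (by norm_num)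
          rw [div_le_one hB0]
          refine le_trans ?_ hTC
          exact mul_le_mul_of_nonneg_left haT (by positivity)
      _ = 1 / 2 := one_mul _
  have h9 : v = q * (θ * a) := by rw [hv, nn_eq_abs _ h8, h7]
  rw [← hv, ← hd, ← hB, mul_comm ((T : ℝ) ^ C₀) η, hηT, h9, hθ] at h5
  have h10 : (q : ℝ) * (T / B * a) * B = q * T * a := by field_simp
  rw [h10] at h5
  have h11 : (1 : ℝ) * 2 * 1 ≤ q * T * a := by gcongr
  linarith

end Pool.Agent.H56.AC
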