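import Pool.Agent.H56.AC.Bil

/-! The real additive energy of a polynomial at integers with restricted digits times an integer; the scheme. -/

set_option autoImplicit false

namespace Pool.Agent.H56.AC

open Finset Filter Topology
open Pool.Agent.X31.CT
open Pool.Agent.X31 (Cl S energy_le Cl_scale Cl_le_card Sch)
open Pool.Agent.H469R2.NK (e norm_e e_add conj_e e_zero)

/-- the pairs of a vector and an integer -/
abbrev KV (b : ℕ) {n : ℕ} (𝒟 : Fin n → ℕ → Finset ℕ) (k M : ℕ) : Finset ((Fin n → ℕ) × ℕ) :=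
  Fintype.piFinset (fun i => KK b (𝒟 i) k) ×ˢ range M

/-- the family -/
noncomputable def fam {n : ℕ} (F : MvPolynomial (Fin n) ℤ) (θ : ℝ) (g : (Fin n → ℕ) → ℝ) (h : ℕ → ℝ)
    (p : (Fin n → ℕ) × ℕ) : ℝ := θ * (val F p.1 * p.2) + g p.1 + h p.2

lemma S_fam (b : ℕ) {n : ℕ} (F : MvPolynomial (Fin n) ℤ) (𝒟 : Fin n → ℕ → Finset ℕ) (k M : ℕ) (θ α : ℝ)
    (g : (Fin n → ℕ) → ℝ) (h : ℕ → ℝ) :
    S (fun p : {p : (Fin n → ℕ) × ℕ // p ∈ KV b 𝒟 k M} => fam F θ g h p.1) α =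
      ∑ x ∈ Fintype.piFinset (fun i => KK b (𝒟 i) k), ∑ y ∈ range M,
        e ((α * θ) * (val F x * y) + (α * g x) + (α * h y)) := by
  unfold S
  rw [← sum_product', ← sum_coe_sort (KV b 𝒟 k M)]
  apply sum_congr rfl
  intro p _
  congr 1
  unfold fam
  ring

/-- the number of the large values -/
theorem pol_count {b : ℕ} (hb : 2 ≤ b) {n : ℕ} (F : MvPolynomial (Fin n) ℤ) (d : ℕ) (C : ℕ)
    (H : ∀ T : ℕ, 2 ≤ T → ∀ k M : ℕ, T ^ C ≤ b ^ k → T ^ C ≤ M →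
    ∀ 𝒟 : Fin n → ℕ → Finset ℕ, (∀ i, DS b (𝒟 i)) → ∀ (θ : ℝ) (g : (Fin n → ℕ) → ℝ) (h : ℕ → ℝ),
    ((Fintype.piFinset (fun i => KK b (𝒟 i) k)).card : ℝ) * M ≤
      T * ‖∑ x ∈ Fintype.piFinset (fun i => KK b (𝒟 i) k), ∑ y ∈ range M, e (θ * (val F x * y) + g x + h y)‖ →
    ∃ w : ℕ, 1 ≤ w ∧ w ≤ T ^ C ∧ nn (w * θ) * (((b : ℝ) ^ k) ^ d * M) ≤ (T : ℝ) ^ C)
    (Θ : ℝ) (hΘ : 0 ≤ Θ) (h' : ℕ) (hh1 : 1 ≤ h') (q : ℕ) (𝒟 : Fin n → ℕ → Finset ℕ) (hD : ∀ i, DS b (𝒟 i))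
    (k M : ℕ) (hk : (2 ^ q) ^ C ≤ b ^ k) (hM : (2 ^ q) ^ C ≤ M) (θ : ℝ) (hθ0 : θ ≠ 0) (hθ : |θ| ≤ Θ)
    (g : (Fin n → ℕ) → ℝ) (h : ℕ → ℝ) (J : ℕ) (hJ1 : 1 ≤ J) (hJ : (J : ℝ) ≤ 2 * (|θ| * (((b : ℝ) ^ k) ^ d * M))) :
    (((Ico 1 J).filter (fun l : ℕ => ((2 : ℕ) : ℝ) ≤ 2 ^ q *
      (‖S (fun p : {p : (Fin n → ℕ) × ℕ // p ∈ KV b 𝒟 k M} => fam F θ g h p.1)
        (l / (8 * h' * J))‖ / Fintype.card {p : (Fin n → ℕ) × ℕ // p ∈ KV b 𝒟 k M}) ^ 1)).card : ℝ) ≤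
      (99 * h' * (Θ + 1)) * ((2 : ℝ) ^ (3 * C)) ^ q := by
  classical
  have hb1 : (1 : ℝ) ≤ b := by exact_mod_cast (by omega : 1 ≤ b)
  have hh'r : (1 : ℝ) ≤ h' := by exact_mod_cast hh1
  have hJr : (1 : ℝ) ≤ J := by exact_mod_cast hJ1
  have hθp : 0 < |θ| := abs_pos.2 hθ0
  have hM1 : 1 ≤ M := (Nat.one_le_pow _ _ (by positivity)).trans hM
  have hMr : (0 : ℝ) < M := by exact_mod_cast hM1
  have hΩ : ∀ i, 0 < (KK b (𝒟 i) k).card := fun i => lt_of_lt_of_le (by positivity) (card_pos' hb k (hD i))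
  have hcard : (Fintype.card {p : (Fin n → ℕ) × ℕ // p ∈ KV b 𝒟 k M} : ℝ) =
      (Fintype.piFinset (fun i => KK b (𝒟 i) k)).card * M := by
    rw [Fintype.card_coe, card_product, card_range]
    push_cast
    rfl
  have hcp : (0 : ℝ) < (Fintype.piFinset (fun i => KK b (𝒟 i) k)).card * M := by
    apply mul_pos _ hMr
    rw [Fintype.card_piFinset]
    exact_mod_cast prod_pos fun i _ => hΩ i
  have hxle : ∀ α : ℝ, ‖S (fun p : {p : (Fin n → ℕ) × ℕ // p ∈ KV b 𝒟 k M} => fam F θ g h p.1) α‖ /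
      Fintype.card {p : (Fin n → ℕ) × ℕ // p ∈ KV b 𝒟 k M} ≤ 1 := by
    intro α
    apply div_le_one_of_le₀ _ (Nat.cast_nonneg _)
    unfold S
    refine (norm_sum_le _ _).trans (le_of_eq ?_)
    simp only [norm_e]
    rw [sum_const, card_univ, nsmul_eq_mul, mul_one]
  rcases Nat.eq_zero_or_pos q with hq | hq
  · rw [hq, filter_false_of_mem, card_empty, Nat.cast_zero]
    · positivity
    · intro l _ hcon
      rw [pow_zero, one_mul, pow_one] at hcon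
      have := hxle (l / (8 * h' * J))
      push_cast at hcon
      linarith
  obtain ⟨T, hT⟩ : ∃ T : ℕ, T = 2 ^ q := ⟨_, rfl⟩
  have hT2 : 2 ≤ T := by
    rw [hT]
    calc 2 = 2 ^ 1 := rfl
      _ ≤ 2 ^ q := Nat.pow_le_pow_right (by norm_num) hq
  have hTr : (2 : ℝ) ≤ T := by exact_mod_cast hT2
  have hTq : (2 : ℝ) ^ q = T := by rw [hT]; push_cast; rfl
  rw [← hT] at hk hM
  obtain ⟨W, hW⟩ : ∃ W : ℕ, W = T ^ C := ⟨_, rfl⟩
  have hW1 : 1 ≤ W := by rw [hW]; exact Nat.one_le_pow _ _ (by omega)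
  have hWr : (1 : ℝ) ≤ W := by exact_mod_cast hW1
  have hWe : (W : ℝ) = (T : ℝ) ^ C := by rw [hW]; push_cast; rfl
  obtain ⟨V, hV⟩ : ∃ V : ℝ, V = ((b : ℝ) ^ k) ^ d * M := ⟨_, rfl⟩
  have hbkd : (1 : ℝ) ≤ ((b : ℝ) ^ k) ^ d := one_le_pow₀ (one_le_pow₀ hb1)
  have hV0 : 0 < V := by rw [hV]; positivity
  have hWV : (W : ℝ) ≤ V := by
    rw [hV]
    have h1 : (W : ℝ) ≤ M := by rw [hW]; exact_mod_cast hM
    calc (W : ℝ) ≤ 1 * M := by linarith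
      _ ≤ _ := by gcongr
  obtain ⟨ω, hω⟩ : ∃ ω, ω = θ / (8 * h' * J) := ⟨_, rfl⟩
  have hω0 : ω ≠ 0 := by
    rw [hω]
    exact div_ne_zero hθ0 (by positivity)
  have hωa : |ω| = |θ| / (8 * h' * J) := by
    rw [hω, abs_div, abs_of_pos (by positivity : (0 : ℝ) < 8 * h' * J)]
  have key := count_frac ((Ico 1 J).filter (fun l : ℕ => ((2 : ℕ) : ℝ) ≤ 2 ^ q *
      (‖S (fun p : {p : (Fin n → ℕ) × ℕ // p ∈ KV b 𝒟 k M} => fam F θ g h p.1)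
        (l / (8 * h' * J))‖ / Fintype.card {p : (Fin n → ℕ) × ℕ // p ∈ KV b 𝒟 k M}) ^ 1))
    ω (W / V) Θ W hω0 (by positivity) (by rw [div_le_one hV0]; exact hWV) (by
      intro l hl
      rw [mem_filter, mem_Ico] at hl
      have hlJ : (l : ℝ) ≤ J := by exact_mod_cast hl.1.2.le
      rw [abs_mul, hωa, abs_of_nonneg (Nat.cast_nonneg l)]
      have h1 : (l : ℝ) / (8 * h' * J) ≤ 1 := by
        rw [div_le_one (by positivity)]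
        nlinarith [mul_le_mul hh'r hlJ (Nat.cast_nonneg l) (by linarith)]
      calc (l : ℝ) * (|θ| / (8 * h' * J)) = (l : ℝ) / (8 * h' * J) * |θ| := by ring
        _ ≤ 1 * Θ := by gcongr
        _ = _ := one_mul _) hΘ (by
      intro l hl
      rw [mem_filter, mem_Ico] at hl
      obtain ⟨_, hl2⟩ := hl
      rw [hTq, pow_one, hcard, S_fam] at hl2
      obtain ⟨w, hw1, hw2, hw3⟩ := H T hT2 k M hk hM 𝒟 hD ((l : ℝ) / (8 * h' * J) * θ)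
        (fun x => (l : ℝ) / (8 * h' * J) * g x) (fun y => (l : ℝ) / (8 * h' * J) * h y) (by
          rw [← mul_div_assoc, le_div_iff₀ hcp] at hl2
          push_cast at hl2
          linarith)
      refine ⟨w, hw1, by rw [hW]; exact hw2, round (w * ((l : ℝ) / (8 * h' * J) * θ)), ?_⟩
      have hw0 : (1 : ℝ) ≤ w := by exact_mod_cast hw1
      have e1 : (l : ℝ) / (8 * h' * J) * θ = l * ω := by rw [hω]; ring
      rw [e1] at hw3 ⊢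
      rw [le_div_iff₀ hV0, hWe, hV]
      refine le_trans ?_ hw3
      apply mul_le_mul_of_nonneg_right _ (by positivity)
      have e2 : |(l : ℝ) * ω - (round (w * (l * ω)) : ℤ) / w| * w = nn (w * (l * ω)) := by
        unfold nn
        rw [← abs_of_pos (show (0 : ℝ) < w by linarith), ← abs_mul, abs_of_pos (show (0 : ℝ) < w by linarith)]
        congr 1
        have : (w : ℝ) ≠ 0 := by linarith
        field_simp
      rw [← e2]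
      exact le_mul_of_one_le_right (abs_nonneg _) hw0)
  refine key.trans ?_
  -- the final estimate
  have h1 : 2 * ((W : ℝ) / V) / |ω| ≤ 32 * h' * W := by
    rw [hωa]
    have h4 : 2 * ((W : ℝ) / V) / (|θ| / (8 * h' * J)) = (16 * h') * (W * J) / (V * |θ|) := by
      field_simp
      norm_num
    rw [h4, div_le_iff₀ (by positivity)]
    calc (16 * h') * ((W : ℝ) * J) ≤ (16 * h') * (W * (2 * (|θ| * V))) := by
          rw [hV]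
          gcongr
      _ = 32 * h' * W * (V * |θ|) := by ring
  have h2 : 2 * ((W : ℝ) / V) / |ω| + 1 ≤ 33 * h' * W := by
    nlinarith [mul_le_mul hh'r hWr (by norm_num) (by linarith)]
  have h3 : (W : ℝ) * (2 * (W * (Θ + 1)) + 1) ≤ 3 * (W * W) * (Θ + 1) := by
    have h4 : 1 ≤ W * (Θ + 1) := by nlinarith
    nlinarith
  calc (W : ℝ) * (2 * (W * (Θ + 1)) + 1) * (2 * ((W : ℝ) / V) / |ω| + 1) ≤
      (3 * (W * W) * (Θ + 1)) * (33 * h' * W) := by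
        apply mul_le_mul h3 h2 (by positivity) (by positivity)
    _ = 99 * h' * (Θ + 1) * (W : ℝ) ^ 3 := by ring
    _ = _ := by
        rw [hWe, ← hTq, ← pow_mul, ← pow_mul, ← pow_mul]
        congr 2
        ring

/-- the real additive energy is minimal up to a constant -/
theorem pol_energy {b : ℕ} (hb : 2 ≤ b) {n : ℕ} (F : MvPolynomial (Fin n) ℤ) (m₀ : Fin n →₀ ℕ) (hm : F.coeff m₀ ≠ 0)
    (hm0 : m₀ ≠ 0) (lam : ℕ) (hlam : 1 ≤ lam) : ∃ h₀ : ℕ, 1 ≤ h₀ ∧ ∀ h' : ℕ, h₀ ≤ h' →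
    ∀ Θ : ℝ, 0 ≤ Θ → ∃ C2 : ℝ, 0 < C2 ∧ ∀ 𝒟 : Fin n → ℕ → Finset ℕ, (∀ i, DS b (𝒟 i)) → ∀ k M : ℕ, 1 ≤ M →
      b ^ k ≤ M ^ lam → M ≤ (b ^ k) ^ lam → ∀ (θ : ℝ) (g : (Fin n → ℕ) → ℝ) (h : ℕ → ℝ), θ ≠ 0 → |θ| ≤ Θ →
      (Cl h' (fun p : {p : (Fin n → ℕ) × ℕ // p ∈ KV b 𝒟 k M} => fam F θ g h p.1) h' : ℝ) *
        (|θ| * (((b : ℝ) ^ k) ^ (∑ i, m₀ i) * M)) ≤ C2 * ((KV b 𝒟 k M).card : ℝ) ^ (2 * h') := by
  classical
  obtain ⟨C, hC, H⟩ := bil_big hb F m₀ hm hm0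
  obtain ⟨d, hd⟩ : ∃ d, d = ∑ i, m₀ i := ⟨_, rfl⟩
  rw [← hd] at H ⊢
  obtain ⟨G, hG⟩ : ∃ G, G = C * (lam * (d + 1)) := ⟨_, rfl⟩
  obtain ⟨E, hE⟩ : ∃ E, E = G + 3 * C + 1 := ⟨_, rfl⟩
  refine ⟨E, by omega, fun h' hh' Θ hΘ => ?_⟩
  have hh1 : 1 ≤ h' := by omega
  have hh'r : (1 : ℝ) ≤ h' := by exact_mod_cast hh1
  obtain ⟨C1, hC1⟩ : ∃ C1 : ℝ, C1 = 99 * h' * (Θ + 1) := ⟨_, rfl⟩
  have hC10 : 0 ≤ C1 := by rw [hC1]; positivity
  obtain ⟨C3, hC3⟩ : ∃ C3 : ℝ, C3 = (Θ + 1) * 2 ^ E := ⟨_, rfl⟩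
  have hC30 : 0 ≤ C3 := by rw [hC3]; positivity
  obtain ⟨C2, hC2⟩ : ∃ C2 : ℝ, C2 = 4 * (1 + 2 * (2 * (C1 * (2 * (2 : ℕ)) ^ E) + 2 * C3 * (2 : ℕ) ^ E)) + 1 := ⟨_, rfl⟩
  have hC20 : 0 < C2 := by rw [hC2]; positivity
  refine ⟨C2, hC20, fun 𝒟 hD k M hM1 hkM hMk θ g h hθ0 hθ => ?_⟩
  have hb1 : (1 : ℝ) ≤ b := by exact_mod_cast (by omega : 1 ≤ b)
  have hθp : 0 < |θ| := abs_pos.2 hθ0
  have hMr : (0 : ℝ) < M := by exact_mod_cast hM1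
  have hΩ : ∀ i, 0 < (KK b (𝒟 i) k).card := fun i => lt_of_lt_of_le (by positivity) (card_pos' hb k (hD i))
  have hcard : (Fintype.card {p : (Fin n → ℕ) × ℕ // p ∈ KV b 𝒟 k M} : ℝ) = (KV b 𝒟 k M).card := by
    rw [Fintype.card_coe]
  have hcp : (0 : ℝ) < (KV b 𝒟 k M).card := by
    rw [card_product, card_range, Fintype.card_piFinset]
    exact_mod_cast Nat.mul_pos (prod_pos fun i _ => hΩ i) hM1
  have : Nonempty {p : (Fin n → ℕ) × ℕ // p ∈ KV b 𝒟 k M} := by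
    rw [← Fintype.card_pos_iff]
    have : (0 : ℝ) < Fintype.card {p : (Fin n → ℕ) × ℕ // p ∈ KV b 𝒟 k M} := by rw [hcard]; exact hcp
    exact_mod_cast this
  have htriv := Cl_le_card h' (fun p : {p : (Fin n → ℕ) × ℕ // p ∈ KV b 𝒟 k M} => fam F θ g h p.1) h'
  rw [hcard] at htriv
  obtain ⟨y, hy⟩ : ∃ y, y = |θ| * (((b : ℝ) ^ k) ^ d * M) := ⟨_, rfl⟩
  have hy0 : 0 < y := by rw [hy]; positivity
  rw [← hy]
  have hcp2 : (0 : ℝ) ≤ ((KV b 𝒟 k M).card : ℝ) ^ (2 * h') := by positivity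
  rcases lt_or_ge y 1 with hy1 | hy1
  · calc _ ≤ ((KV b 𝒟 k M).card : ℝ) ^ (2 * h') * 1 := by
          apply mul_le_mul htriv hy1.le hy0.le (by positivity)
      _ ≤ C2 * (KV b 𝒟 k M).card ^ (2 * h') := by
          rw [mul_comm]
          apply mul_le_mul_of_nonneg_right _ hcp2
          rw [hC2]
          have : 0 ≤ 4 * (1 + 2 * (2 * (C1 * (2 * (2 : ℕ)) ^ E) + 2 * C3 * (2 : ℕ) ^ E)) := by positivity
          linarith
  obtain ⟨μ, hμ⟩ : ∃ μ, μ = min (b ^ k) M := ⟨_, rfl⟩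
  have hbk1 : 1 ≤ b ^ k := Nat.one_le_pow _ _ (by omega)
  have hμ1 : 1 ≤ μ := by rw [hμ]; exact le_min hbk1 hM1
  have hμk : μ ≤ b ^ k := by rw [hμ]; exact min_le_left _ _
  have hμM : μ ≤ M := by rw [hμ]; exact min_le_right _ _
  have hkμ : b ^ k ≤ μ ^ lam := by
    rw [hμ]
    rcases le_total (b ^ k) M with h1 | h1
    · rw [min_eq_left h1]
      exact Nat.le_self_pow (by omega) _
    · rw [min_eq_right h1]
      exact hkM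
  have hMμ : M ≤ μ ^ lam := by
    rw [hμ]
    rcases le_total (b ^ k) M with h1 | h1
    · rw [min_eq_left h1]
      exact hMk
    · rw [min_eq_right h1]
      exact Nat.le_self_pow (by omega) _
  obtain ⟨q0, hq0⟩ : ∃ q0, q0 = Nat.log 2 μ / C := ⟨_, rfl⟩
  have hq0a : C * q0 ≤ Nat.log 2 μ := by rw [hq0]; exact Nat.mul_div_le _ _
  have hq0b : Nat.log 2 μ + 1 ≤ C * (q0 + 1) := by
    rw [hq0]
    exact Nat.lt_mul_div_succ _ (by omega)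
  have hμ2 : μ ≤ 2 ^ (C * (q0 + 1)) :=
    (Nat.lt_pow_succ_log_self (by norm_num) μ).le.trans (Nat.pow_le_pow_right (by norm_num) hq0b)
  have hlev : ∀ q ≤ q0, (2 ^ q) ^ C ≤ μ := by
    intro q hq
    calc (2 ^ q) ^ C = 2 ^ (C * q) := by rw [← pow_mul, mul_comm]
      _ ≤ 2 ^ (Nat.log 2 μ) := Nat.pow_le_pow_right (by norm_num) ((Nat.mul_le_mul_left _ hq).trans hq0a)
      _ ≤ μ := Nat.pow_log_le_self 2 (by omega)
  have hyq : y ≤ C3 * (2 ^ E) ^ q0 := by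
    have h1 : (b ^ k) ^ d * M ≤ 2 ^ (G * (q0 + 1)) := by
      calc (b ^ k) ^ d * M ≤ (μ ^ lam) ^ d * μ ^ lam := Nat.mul_le_mul (Nat.pow_le_pow_left hkμ _) hMμ
        _ = μ ^ (lam * (d + 1)) := by rw [← pow_mul, ← pow_add]; ring_nf
        _ ≤ (2 ^ (C * (q0 + 1))) ^ (lam * (d + 1)) := Nat.pow_le_pow_left hμ2 _
        _ = 2 ^ (G * (q0 + 1)) := by rw [← pow_mul, hG]; ring_nf
    have h2 : ((b : ℝ) ^ k) ^ d * M ≤ (2 : ℝ) ^ (G * (q0 + 1)) := by exact_mod_cast h1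
    calc y ≤ Θ * (2 : ℝ) ^ (G * (q0 + 1)) := by
          rw [hy]
          gcongr
      _ ≤ (Θ + 1) * (2 : ℝ) ^ (E * (q0 + 1)) := by
          have h3 : (2 : ℝ) ^ (G * (q0 + 1)) ≤ (2 : ℝ) ^ (E * (q0 + 1)) :=
            pow_le_pow_right₀ (by norm_num) (Nat.mul_le_mul_right _ (by omega))
          have h4 : Θ ≤ Θ + 1 := by linarith
          exact mul_le_mul h4 h3 (by positivity) (by linarith)
      _ = C3 * (2 ^ E) ^ q0 := by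
          rw [hC3, mul_add, mul_one, pow_add, pow_mul]
          ring
  obtain ⟨J, hJ⟩ : ∃ J : ℕ, J = ⌈y⌉₊ := ⟨_, rfl⟩
  have hJy : y ≤ J := by rw [hJ]; exact Nat.le_ceil y
  have hJ2 : (J : ℝ) ≤ 2 * y := by
    have := Nat.ceil_lt_add_one hy0.le
    rw [← hJ] at this
    linarith
  have hJ1 : 1 ≤ J := by
    have : (1 : ℝ) ≤ J := hy1.trans hJy
    exact_mod_cast this
  have key := energy_of_levels (fun p : {p : (Fin n → ℕ) × ℕ // p ∈ KV b 𝒟 k M} => fam F θ g h p.1) y hy1 1 2 E h' q0 J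
    le_rfl hh1 (by omega) hJ C1 ((2 : ℝ) ^ (3 * C)) C3 hC10 (one_le_pow₀ (by norm_num)) (by
      calc 2 * (2 : ℝ) ^ (3 * C) = 2 ^ (3 * C + 1) := by ring
        _ ≤ 2 ^ E := pow_le_pow_right₀ (by norm_num) (by omega)) hC30 hyq (by
      intro q hq
      rw [hC1]
      exact pol_count hb F d C H Θ hΘ h' hh1 q 𝒟 hD k M ((hlev q hq).trans hμk) ((hlev q hq).trans hμM)
        θ hθ0 hθ g h J hJ1 (by rw [← hy]; exact hJ2))
  rw [hcard] at key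
  refine key.trans ?_
  apply mul_le_mul_of_nonneg_right _ hcp2
  rw [hC2]
  linarith

/-- all distances -/
theorem pol_R {b : ℕ} (hb : 2 ≤ b) {n : ℕ} (F : MvPolynomial (Fin n) ℤ) (m₀ : Fin n →₀ ℕ) (hm : F.coeff m₀ ≠ 0)
    (hm0 : m₀ ≠ 0) (lam : ℕ) (hlam : 1 ≤ lam) : ∃ h₀ : ℕ, 1 ≤ h₀ ∧ ∀ h' : ℕ, h₀ ≤ h' →
    ∀ Θ : ℝ, 0 ≤ Θ → ∃ K : ℝ, 0 < K ∧ ∀ 𝒟 : Fin n → ℕ → Finset ℕ, (∀ i, DS b (𝒟 i)) → ∀ k M : ℕ, 1 ≤ M →
      b ^ k ≤ M ^ lam → M ≤ (b ^ k) ^ lam → ∀ (θ : ℝ) (g : (Fin n → ℕ) → ℝ) (h : ℕ → ℝ), θ ≠ 0 → |θ| ≤ Θ →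
      ∀ R : ℝ, 1 ≤ R →
      (Cl h' (fun p : {p : (Fin n → ℕ) × ℕ // p ∈ KV b 𝒟 k M} => fam F θ g h p.1) R : ℝ) *
        (|θ| * (((b : ℝ) ^ k) ^ (∑ i, m₀ i) * M)) ≤ K * R * ((KV b 𝒟 k M).card : ℝ) ^ (2 * h') := by
  obtain ⟨h₀, hh₀, H⟩ := pol_energy hb F m₀ hm hm0 lam hlam
  refine ⟨h₀, hh₀, fun h' hh' Θ hΘ => ?_⟩
  have hkr : (1 : ℝ) ≤ h' := by exact_mod_cast hh₀.trans hh'
  obtain ⟨K, hK, H1⟩ := H h' hh' (h' * Θ) (by positivity)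
  refine ⟨K, hK, fun 𝒟 hD k M hM1 hkM hMk θ g h hθ0 hθ R hR => ?_⟩
  have hR0 : 0 < R := by linarith
  have ha : 0 < (h' : ℝ) / R := by positivity
  have h1 := H1 𝒟 hD k M hM1 hkM hMk ((h' : ℝ) / R * θ) (fun x => (h' : ℝ) / R * g x)
    (fun y => (h' : ℝ) / R * h y) (mul_ne_zero ha.ne' hθ0) (by
    rw [abs_mul, abs_of_pos ha]
    apply mul_le_mul _ hθ (abs_nonneg _) (by positivity)
    exact div_le_self (by positivity) hR)
  have h2 := Cl_scale h' (fun p : {p : (Fin n → ℕ) × ℕ // p ∈ KV b 𝒟 k M} => fam F θ g h p.1) R ((h' : ℝ) / R) ha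
  rw [div_mul_cancel₀ _ hR0.ne'] at h2
  have e0 : (fun p : {p : (Fin n → ℕ) × ℕ // p ∈ KV b 𝒟 k M} => (h' : ℝ) / R * fam F θ g h p.1) =
      (fun p : {p : (Fin n → ℕ) × ℕ // p ∈ KV b 𝒟 k M} => fam F ((h' : ℝ) / R * θ) (fun x => (h' : ℝ) / R * g x)
        (fun y => (h' : ℝ) / R * h y) p.1) := by
    funext p
    unfold fam
    ring
  rw [e0] at h2
  rw [h2, abs_mul, abs_of_pos ha] at h1
  obtain ⟨X, hX⟩ : ∃ X : ℝ, X = (Cl h' (fun p : {p : (Fin n → ℕ) × ℕ // p ∈ KV b 𝒟 k M} => fam F θ g h p.1) R : ℝ) :=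
    ⟨_, rfl⟩
  rw [← hX] at h1 ⊢
  calc X * (|θ| * (((b : ℝ) ^ k) ^ (∑ i, m₀ i) * M)) =
      (X * ((h' : ℝ) / R * |θ| * (((b : ℝ) ^ k) ^ (∑ i, m₀ i) * M))) * (R / h') := by
        field_simp
    _ ≤ (K * ((KV b 𝒟 k M).card : ℝ) ^ (2 * h')) * (R / h') := mul_le_mul_of_nonneg_right h1 (by positivity)
    _ ≤ (K * ((KV b 𝒟 k M).card : ℝ) ^ (2 * h')) * R := by
        apply mul_le_mul_of_nonneg_left _ (by positivity)
        exact div_le_self hR0.le hkr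
    _ = _ := by ring

/-- the data of a family -/
structure DatP (b lam : ℕ) {n : ℕ} (F : MvPolynomial (Fin n) ℤ) (d D N k M : ℕ) (𝒟 : Fin n → ℕ → Finset ℕ) (θ : ℝ)
    (g : (Fin n → ℕ) → ℝ) (h : ℕ → ℝ) (A : Finset ((Fin n → ℕ) × ℕ)) : Prop where
  ds : ∀ i, DS b (𝒟 i)
  pos : 1 ≤ M
  len₁ : b ^ k ≤ M ^ lam
  len₂ : M ≤ (b ^ k) ^ lam
  lead : |θ| ≤ Real.log N ^ D
  size : (N : ℝ) / Real.log N ^ D ≤ |θ| * (((b : ℝ) ^ k) ^ d * M)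
  sub : A ⊆ KV b 𝒟 k M
  dense : ((KV b 𝒟 k M).card : ℝ) / Real.log N ^ D ≤ A.card
  bd : ∀ p ∈ A, |fam F θ g h p| ≤ N

/-- the families at dense sets of pairs -/
def PVal (b lam : ℕ) {n : ℕ} (F : MvPolynomial (Fin n) ℤ) (d : ℕ) (D N : ℕ) (A : Finset ((Fin n → ℕ) × ℕ))
    (φ : (Fin n → ℕ) × ℕ → ℝ) : Prop :=
  ∃ (k M : ℕ) (𝒟 : Fin n → ℕ → Finset ℕ) (θ : ℝ) (g : (Fin n → ℕ) → ℝ) (h : ℕ → ℝ),
    DatP b lam F d D N k M 𝒟 θ g h A ∧ ∀ p, φ p = fam F θ g h p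

theorem Sch_val {b : ℕ} (hb : 2 ≤ b) {n : ℕ} (F : MvPolynomial (Fin n) ℤ) (m₀ : Fin n →₀ ℕ) (hm : F.coeff m₀ ≠ 0)
    (hm0 : m₀ ≠ 0) (lam : ℕ) (hlam : 1 ≤ lam) : Sch (PVal b lam F (∑ i, m₀ i)) := by
  refine ⟨?_, ?_⟩
  · rintro D N A φ hL ⟨k, M, 𝒟, θ, g, h, hd, h2⟩
    have h1 : Real.log N ^ D ≤ Real.log N ^ (D + 1) := pow_le_pow_right₀ hL (by omega)
    have h3 : 0 < Real.log N ^ D := by positivity
    refine ⟨k, M, 𝒟, θ, g, h, ⟨hd.ds, hd.pos, hd.len₁, hd.len₂, hd.lead.trans h1, le_trans ?_ hd.size,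
      hd.sub, le_trans ?_ hd.dense, hd.bd⟩, h2⟩
    · exact div_le_div_of_nonneg_left (Nat.cast_nonneg _) h3 h1
    · exact div_le_div_of_nonneg_left (by positivity) h3 h1
  · obtain ⟨h₀, hh₀, H⟩ := pol_R hb F m₀ hm hm0 lam hlam
    refine ⟨h₀, hh₀, fun D => ?_⟩
    obtain ⟨K, hK, H1⟩ := H h₀ le_rfl 1 zero_le_one
    have hlog : ∀ᶠ N : ℕ in atTop, K * (2 * h₀) + 1 ≤ Real.log N :=
      (Real.tendsto_log_atTop.comp tendsto_natCast_atTop_atTop).eventually_ge_atTop _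
    obtain ⟨N₀, hN₀⟩ := eventually_atTop.1 (hlog.and ((log_pow_le D).and (eventually_ge_atTop 1)))
    refine ⟨3 * D + 2 * h₀ * D + 1, N₀, fun N hN A φ hP v hv => ?_⟩
    obtain ⟨g1, g2, g3⟩ := hN₀ N hN
    obtain ⟨k, M, 𝒟, θ, g, h, hd, hφ⟩ := hP
    have hL1 : 1 ≤ Real.log N := by
      have : 0 ≤ K * (2 * h₀) := by positivity
      linarith
    have hLD : 1 ≤ Real.log N ^ D := one_le_pow₀ hL1
    have hNr : (1 : ℝ) ≤ N := by exact_mod_cast g3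
    have hsize := hd.size
    have hdense := hd.dense
    rw [div_le_iff₀ (by positivity)] at hsize hdense
    have hθ0 : θ ≠ 0 := by
      intro h0
      rw [h0, abs_zero, zero_mul, zero_mul] at hsize
      linarith
    have hLp : 0 < 1 / Real.log N ^ D := by positivity
    apply Pool.Agent.X31.en_of_Cl (KV b 𝒟 k M) A φ h₀ D N hh₀ (|θ| * (((b : ℝ) ^ k) ^ (∑ i, m₀ i) * M)) K (Real.log N)
      hL1 g1 hK g2 g3 ?_ hsize hd.sub hdense ?_ v hv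
    · intro R hR
      have h1 := H1 𝒟 hd.ds k M hd.pos hd.len₁ hd.len₂ (1 / Real.log N ^ D * θ)
        (fun x => 1 / Real.log N ^ D * g x) (fun y => 1 / Real.log N ^ D * h y) (mul_ne_zero hLp.ne' hθ0) (by
          rw [abs_mul, abs_of_pos hLp, one_div_mul_eq_div, div_le_one (by positivity)]
          exact hd.lead) R hR
      have e0 : (fun p : {p : (Fin n → ℕ) × ℕ // p ∈ KV b 𝒟 k M} => 1 / Real.log N ^ D * φ p.1) =
          (fun p : {p : (Fin n → ℕ) × ℕ // p ∈ KV b 𝒟 k M} => fam F (1 / Real.log N ^ D * θ)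
            (fun x => 1 / Real.log N ^ D * g x) (fun y => 1 / Real.log N ^ D * h y) p.1) := by
        funext p
        rw [hφ]
        unfold fam
        ring
      rw [e0]
      rw [abs_mul, abs_of_pos hLp, mul_assoc] at h1
      exact h1
    · intro p hp
      rw [hφ]
      exact hd.bd p hp

end Pool.Agent.H56.AC
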