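import Pool.Agent.H56.AC.SV
import Pool.Agent.H56.PD.Div2

/-! Polynomials of several variables modulo one at integers with restricted digits. -/

set_option autoImplicit false

namespace Pool.Agent.H56.AC

open Finset
open Pool.Agent.X31.CT
open Pool.Agent.H56.PD (pi_split pi_card)
open scoped Polynomial

lemma pop1 {β : Type*} [DecidableEq β] (V : Finset β) (g : β → ℕ) (N T : ℕ) (hN : 0 < N) (hg : ∀ z ∈ V, g z ≤ N)
    (hcard : V.card * N ≤ T * ∑ z ∈ V, g z) : V.card ≤ 2 * T * (V.filter (fun z => N ≤ 2 * T * g z)).card := by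
  classical
  obtain ⟨X, hX⟩ : ∃ X, X = V.filter (fun z => N ≤ 2 * T * g z) := ⟨_, rfl⟩
  rw [← hX]
  have h5 : 2 * T * ∑ z ∈ V, g z ≤ 2 * T * X.card * N + V.card * N := by
    rw [mul_sum]
    calc ∑ z ∈ V, 2 * T * g z ≤ ∑ z ∈ V, ((if z ∈ X then 2 * T * N else 0) + N) := by
          apply sum_le_sum
          intro z hz
          split_ifs with hc
          · have := Nat.mul_le_mul_left (2 * T) (hg z hz)
            omega
          · rw [hX, mem_filter] at hc
            push Not at hc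
            have := hc hz
            omega
      _ = _ := by
          rw [sum_add_distrib, sum_const, smul_eq_mul, ← sum_filter, sum_const, smul_eq_mul]
          have e1 : V.filter (fun u => u ∈ X) = X := by
            ext u
            rw [mem_filter]
            constructor
            · exact fun h => h.2
            · intro h
              refine ⟨?_, h⟩
              rw [hX] at h
              exact (mem_filter.1 h).1
          rw [e1]
          ring
  have h6 : V.card * N ≤ 2 * T * X.card * N := by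
    have h7 : 2 * (V.card * N) ≤ 2 * T * ∑ z ∈ V, g z := by
      calc 2 * (V.card * N) ≤ 2 * (T * ∑ z ∈ V, g z) := Nat.mul_le_mul_left _ hcard
        _ = 2 * T * ∑ z ∈ V, g z := by ring
    omega
  exact Nat.le_of_mul_le_mul_right h6 hN

/-- the statement for the polynomials of `n` variables with degree at most `D` in each variable -/
def MV (b n D C : ℕ) : Prop := ∀ T : ℕ, 2 ≤ T → ∀ k : ℕ, T ^ C ≤ b ^ k → ∀ 𝒟 : Fin n → ℕ → Finset ℕ,
  (∀ i, DS b (𝒟 i)) → ∀ F : MvPolynomial (Fin n) ℝ, (∀ i, F.degreeOf i ≤ D) → ∀ η : ℝ, 0 ≤ η → η * (T : ℝ) ^ C ≤ 1 →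
  ∀ G : Finset (Fin n → ℕ), G ⊆ Fintype.piFinset (fun i => KK b (𝒟 i) k) →
  (Fintype.piFinset (fun i => KK b (𝒟 i) k)).card ≤ T * G.card →
  (∀ x ∈ G, nn (MvPolynomial.eval (fun i => (x i : ℝ)) F) ≤ η) →
  ∃ q : ℕ, 1 ≤ q ∧ q ≤ T ^ C ∧ ∀ m : Fin n →₀ ℕ, nn (q * F.coeff m) * ((b : ℝ) ^ k) ^ (∑ i, m i) ≤ (T : ℝ) ^ C * η

theorem mv {b : ℕ} (hb : 2 ≤ b) (D n : ℕ) : ∃ C : ℕ, 1 ≤ C ∧ MV b n D C := by
  classical
  induction n with
  | zero =>
    refine ⟨1, le_rfl, fun T hT k _ 𝒟 hD F _ η hη _ G _ hcard hnn => ?_⟩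
    have hT1 : (1 : ℝ) ≤ T := by exact_mod_cast (by omega : 1 ≤ T)
    have hGne : G.Nonempty := by
      rw [← card_pos]
      rw [Fintype.card_piFinset, Finset.univ_eq_empty, prod_empty] at hcard
      rcases Nat.eq_zero_or_pos G.card with h0 | h0
      · rw [h0, mul_zero] at hcard
        omega
      · exact h0
    obtain ⟨x, hx⟩ := hGne
    refine ⟨1, le_rfl, by rw [pow_one]; omega, fun m => ?_⟩
    rw [Nat.cast_one, one_mul, pow_one, Finset.univ_eq_empty, sum_empty, pow_zero, mul_one]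
    have h1 := hnn x hx
    have hm : m = 0 := Subsingleton.elim _ _
    rw [MvPolynomial.eq_C_of_isEmpty F, MvPolynomial.eval_C] at h1
    rw [hm]
    nlinarith
  | succ n ih =>
    obtain ⟨C₂, hC₂, hIH⟩ := ih
    obtain ⟨C₁, hC₁, hSV⟩ := sv hb D
    obtain ⟨B, hB⟩ : ∃ B, B = 2 * (C₁ + 1) := ⟨_, rfl⟩
    refine ⟨B * C₂ * (D + 2) + 2 * B, by omega,
      fun T hT k hk 𝒟 hD F hF η hη hηT G hG hcard hnn => ?_⟩
    obtain ⟨C, hC⟩ : ∃ C, C = B * C₂ * (D + 2) + 2 * B := ⟨_, rfl⟩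
    rw [← hC] at hk hηT ⊢
    have hT0 : 0 < T := by omega
    have hTr : (2 : ℝ) ≤ T := by exact_mod_cast hT
    have hT1 : (1 : ℝ) ≤ T := by linarith
    have hb1 : (1 : ℝ) ≤ b := by exact_mod_cast (by omega : 1 ≤ b)
    have hBC : B * C₂ ≤ B * C₂ * (D + 2) := Nat.le_mul_of_pos_right _ (by omega)
    have hCge : B * C₂ + 2 * B ≤ C := by omega
    -- the parameters
    have hS1 : (2 * T) ^ C₁ ≤ T ^ B := by
      calc (2 * T) ^ C₁ ≤ (T ^ 2) ^ C₁ := by
            apply Nat.pow_le_pow_left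
            rw [sq]
            exact Nat.mul_le_mul_right _ hT
        _ = T ^ (2 * C₁) := by rw [← pow_mul]
        _ ≤ T ^ B := Nat.pow_le_pow_right hT0 (by omega)
    obtain ⟨T', hT'⟩ : ∃ T', T' = (2 * T) ^ (C₁ + 1) := ⟨_, rfl⟩
    have hT'B : T' ≤ T ^ B := by
      rw [hT']
      calc (2 * T) ^ (C₁ + 1) ≤ (T ^ 2) ^ (C₁ + 1) := by
            apply Nat.pow_le_pow_left
            rw [sq]
            exact Nat.mul_le_mul_right _ hT
        _ = T ^ B := by rw [← pow_mul, hB]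
    have hT'2 : 2 ≤ T' := by
      rw [hT', pow_succ]
      have : 1 ≤ (2 * T) ^ C₁ := Nat.one_le_pow _ _ (by omega)
      nlinarith
    have hT'C : T' ^ C₂ ≤ T ^ (B * C₂) := by
      rw [pow_mul]
      exact Nat.pow_le_pow_left hT'B _
    have hS1r : ((2 * T : ℕ) : ℝ) ^ C₁ ≤ (T : ℝ) ^ B := by exact_mod_cast hS1
    have hT'Cr : (T' : ℝ) ^ C₂ ≤ (T : ℝ) ^ (B * C₂) := by exact_mod_cast hT'C
    -- the fibres
    obtain ⟨W, hW⟩ : ∃ W : Fin (n + 1) → Finset ℕ, W = fun i => KK b (𝒟 i) k := ⟨_, rfl⟩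
    obtain ⟨Ω', hΩ'⟩ : ∃ Ω' : Finset (Fin n → ℕ), Ω' = Fintype.piFinset (fun i : Fin n => KK b (𝒟 i.succ) k) := ⟨_, rfl⟩
    have hGc : G.card = ∑ x' ∈ Ω', ((KK b (𝒟 0) k).filter (fun t => (Fin.cons t x' : Fin (n + 1) → ℕ) ∈ G)).card := by
      have h1 := pi_split W (fun x => x ∈ G)
      rw [hW] at h1
      rw [hΩ', ← h1]
      congr 1
      ext x
      rw [mem_filter]
      exact ⟨fun hx => ⟨hG hx, hx⟩, fun hx => hx.2⟩
    have hcd : (Fintype.piFinset (fun i => KK b (𝒟 i) k)).card = (KK b (𝒟 0) k).card * Ω'.card := by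
      rw [hΩ']
      exact pi_card (fun i => KK b (𝒟 i) k)
    have hK0 : 0 < (KK b (𝒟 0) k).card := lt_of_lt_of_le (by positivity) (card_pos' hb k (hD 0))
    have hpop := pop1 Ω' (fun x' => ((KK b (𝒟 0) k).filter (fun t => (Fin.cons t x' : Fin (n + 1) → ℕ) ∈ G)).card)
      (KK b (𝒟 0) k).card T hK0 (fun x' _ => card_filter_le _ _) (by
        rw [← hGc, mul_comm, ← hcd]
        exact hcard)
    obtain ⟨X, hX⟩ : ∃ X, X = Ω'.filter (fun x' => (KK b (𝒟 0) k).card ≤
      2 * T * ((KK b (𝒟 0) k).filter (fun t => (Fin.cons t x' : Fin (n + 1) → ℕ) ∈ G)).card) := ⟨_, rfl⟩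
    rw [← hX] at hpop
    have hΩpos : 0 < Ω'.card := by
      rw [hΩ', Fintype.card_piFinset]
      exact prod_pos fun i _ => lt_of_lt_of_le (by positivity) (card_pos' hb k (hD i.succ))
    have hXne : X.Nonempty := by
      rw [← card_pos]
      rcases Nat.eq_zero_or_pos X.card with h0 | h0
      · rw [h0, mul_zero] at hpop
        omega
      · exact h0
    -- one variable
    have hone : ∀ x' ∈ X, ∃ q : ℕ, 1 ≤ q ∧ q ≤ (2 * T) ^ C₁ ∧ ∀ e : ℕ,
        nn (q * MvPolynomial.eval (fun i => (x' i : ℝ)) ((MvPolynomial.finSuccEquiv ℝ n F).coeff e)) *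
          ((b : ℝ) ^ k) ^ e ≤ ((2 * T : ℕ) : ℝ) ^ C₁ * η := by
      intro x' hx'
      rw [hX, mem_filter] at hx'
      obtain ⟨q, hq1, hq2, hq3⟩ := hSV (2 * T) (by omega) k (hS1.trans ((Nat.pow_le_pow_right hT0 (by omega)).trans hk))
        (𝒟 0) (hD 0) ((MvPolynomial.finSuccEquiv ℝ n F).map (MvPolynomial.eval (fun i => (x' i : ℝ))))
        ((Polynomial.natDegree_map_le).trans (by
          rw [MvPolynomial.natDegree_finSuccEquiv]
          exact hF 0)) η hη (by
          refine le_trans ?_ hηT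
          apply mul_le_mul_of_nonneg_left _ hη
          exact hS1r.trans (pow_le_pow_right₀ hT1 (by omega)))
        ((KK b (𝒟 0) k).filter (fun t => (Fin.cons t x' : Fin (n + 1) → ℕ) ∈ G)) (filter_subset _ _) hx'.2 (by
          intro t ht
          rw [mem_filter] at ht
          have h1 := hnn _ ht.2
          have e1 : (fun i => (((Fin.cons t x' : Fin (n + 1) → ℕ) i : ℕ) : ℝ)) =
              (Fin.cons (t : ℝ) (fun i => (x' i : ℝ)) : Fin (n + 1) → ℝ) := by
            funext i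
            refine Fin.cases ?_ (fun j => ?_) i
            · simp
            · simp
          rw [e1, MvPolynomial.eval_eq_eval_mv_eval'] at h1
          exact h1)
      refine ⟨q, hq1, hq2, fun e => ?_⟩
      have := hq3 e
      rw [Polynomial.coeff_map] at this
      exact this
    choose! f hf1 hf2 hf3 using hone
    obtain ⟨q₀, hq₀1, hq₀2, hq₀3⟩ := pig X hXne f ((2 * T) ^ C₁) (fun u hu => ⟨hf1 u hu, hf2 u hu⟩)
    obtain ⟨X₂, hX₂⟩ : ∃ X₂, X₂ = X.filter (fun u => f u = q₀) := ⟨_, rfl⟩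
    rw [← hX₂] at hq₀3
    have hX₂c : Ω'.card ≤ T' * X₂.card := by
      calc Ω'.card ≤ 2 * T * X.card := hpop
        _ ≤ 2 * T * ((2 * T) ^ C₁ * X₂.card) := Nat.mul_le_mul_left _ hq₀3
        _ = T' * X₂.card := by rw [hT', pow_succ]; ring
    have hbk1 : (1 : ℝ) ≤ (b : ℝ) ^ k := one_le_pow₀ hb1
    have hbk0 : (0 : ℝ) < (b : ℝ) ^ k := by positivity
    -- the other variables
    have hmany : ∀ e : ℕ, ∃ q : ℕ, 1 ≤ q ∧ q ≤ T' ^ C₂ ∧ ∀ m : Fin n →₀ ℕ,
        nn (q * (q₀ * ((MvPolynomial.finSuccEquiv ℝ n F).coeff e).coeff m)) * ((b : ℝ) ^ k) ^ (∑ i, m i) ≤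
          (T' : ℝ) ^ C₂ * (((2 * T : ℕ) : ℝ) ^ C₁ * η / ((b : ℝ) ^ k) ^ e) := by
      intro e
      have hbe : (1 : ℝ) ≤ ((b : ℝ) ^ k) ^ e := one_le_pow₀ hbk1
      obtain ⟨q, hq1, hq2, hq3⟩ := hIH T' hT'2 k (hT'C.trans ((Nat.pow_le_pow_right hT0 (by omega)).trans hk))
        (fun i => 𝒟 i.succ) (fun i => hD i.succ)
        (MvPolynomial.C (q₀ : ℝ) * (MvPolynomial.finSuccEquiv ℝ n F).coeff e) (fun i => by
          refine (MvPolynomial.degreeOf_C_mul_le _ _ _).trans ?_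
          exact (MvPolynomial.degreeOf_coeff_finSuccEquiv F i e).trans (hF i.succ))
        (((2 * T : ℕ) : ℝ) ^ C₁ * η / ((b : ℝ) ^ k) ^ e) (by positivity) (by
          calc ((2 * T : ℕ) : ℝ) ^ C₁ * η / ((b : ℝ) ^ k) ^ e * (T' : ℝ) ^ C₂ ≤
              ((2 * T : ℕ) : ℝ) ^ C₁ * η * (T' : ℝ) ^ C₂ := by
                apply mul_le_mul_of_nonneg_right _ (by positivity)
                exact div_le_self (by positivity) hbe
            _ ≤ (T : ℝ) ^ B * η * (T : ℝ) ^ (B * C₂) := by gcongr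
            _ = η * (T : ℝ) ^ (B + B * C₂) := by ring
            _ ≤ η * (T : ℝ) ^ C := by
                apply mul_le_mul_of_nonneg_left _ hη
                exact pow_le_pow_right₀ hT1 (by omega)
            _ ≤ 1 := hηT) X₂ (by
          rw [← hΩ', hX₂, hX]
          exact (filter_subset _ _).trans (filter_subset _ _)) (by
          rw [← hΩ']
          exact hX₂c) (by
          intro x' hx'
          rw [hX₂, mem_filter] at hx'
          have h1 := hf3 x' hx'.1 e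
          rw [hx'.2] at h1
          rw [MvPolynomial.eval_mul, MvPolynomial.eval_C, le_div_iff₀ (by positivity)]
          exact h1)
      refine ⟨q, hq1, hq2, fun m => ?_⟩
      have := hq3 m
      rw [MvPolynomial.coeff_C_mul] at this
      exact this
    choose g hg1 hg2 hg3 using hmany
    obtain ⟨Pr, hPr⟩ : ∃ Pr, Pr = ∏ e ∈ range (D + 1), g e := ⟨_, rfl⟩
    have hPrT : Pr ≤ T ^ (B * C₂ * (D + 1)) := by
      rw [hPr]
      calc ∏ e ∈ range (D + 1), g e ≤ ∏ _e ∈ range (D + 1), T ^ (B * C₂) :=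
            prod_le_prod (fun _ _ => Nat.zero_le _) (fun e _ => (hg2 e).trans hT'C)
        _ = T ^ (B * C₂ * (D + 1)) := by rw [prod_const, card_range, ← pow_mul]
    have hPr1 : 1 ≤ Pr := by
      rw [hPr]
      exact Nat.one_le_iff_ne_zero.2 (Finset.prod_ne_zero_iff.2 fun e _ => Nat.one_le_iff_ne_zero.1 (hg1 e))
    refine ⟨q₀ * Pr, Nat.mul_pos hq₀1 hPr1, ?_, fun m => ?_⟩
    · calc q₀ * Pr ≤ T ^ B * T ^ (B * C₂ * (D + 1)) := Nat.mul_le_mul (hq₀2.trans hS1) hPrT
        _ = T ^ (B + B * C₂ * (D + 1)) := by rw [← pow_add]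
        _ ≤ T ^ C := by
            apply Nat.pow_le_pow_right hT0
            have : B * C₂ * (D + 1) ≤ B * C₂ * (D + 2) := Nat.mul_le_mul_left _ (by omega)
            omega
    · obtain ⟨e, m', hm⟩ : ∃ e m', m = Finsupp.cons e m' := ⟨m 0, m.tail, (Finsupp.cons_tail m).symm⟩
      rw [hm]
      have hsum : ∑ i, (Finsupp.cons e m' : Fin (n + 1) →₀ ℕ) i = e + ∑ i, m' i := by
        rw [Fin.sum_univ_succ, Finsupp.cons_zero]
        congr 1
      rw [hsum, ← MvPolynomial.finSuccEquiv_coeff_coeff]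
      by_cases he : e < D + 1
      · obtain ⟨R, hR⟩ : g e ∣ Pr := by
          rw [hPr]
          exact dvd_prod_of_mem g (mem_range.2 he)
        have hRPr : R ≤ Pr := by
          rw [hR]
          exact Nat.le_mul_of_pos_left _ (hg1 e)
        have hRr : (R : ℝ) ≤ (T : ℝ) ^ (B * C₂ * (D + 1)) := by exact_mod_cast hRPr.trans hPrT
        have e1 : ((q₀ * Pr : ℕ) : ℝ) * ((MvPolynomial.finSuccEquiv ℝ n F).coeff e).coeff m' =
            R * (g e * (q₀ * ((MvPolynomial.finSuccEquiv ℝ n F).coeff e).coeff m')) := by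
          rw [hR]
          push_cast
          ring
        rw [e1]
        have h3 := hg3 e m'
        have h4 := nn_nat_mul R (g e * (q₀ * ((MvPolynomial.finSuccEquiv ℝ n F).coeff e).coeff m'))
        have h5 := nn_nonneg ((g e : ℝ) * (q₀ * ((MvPolynomial.finSuccEquiv ℝ n F).coeff e).coeff m'))
        obtain ⟨v, hv⟩ : ∃ v, v = nn ((g e : ℝ) * (q₀ * ((MvPolynomial.finSuccEquiv ℝ n F).coeff e).coeff m')) := ⟨_, rfl⟩
        rw [← hv] at h3 h4 h5
        calc nn (R * (g e * (q₀ * ((MvPolynomial.finSuccEquiv ℝ n F).coeff e).coeff m'))) *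
              ((b : ℝ) ^ k) ^ (e + ∑ i, m' i) ≤ (R * v) * ((b : ℝ) ^ k) ^ (e + ∑ i, m' i) :=
              mul_le_mul_of_nonneg_right h4 (by positivity)
          _ = R * ((v * ((b : ℝ) ^ k) ^ (∑ i, m' i)) * ((b : ℝ) ^ k) ^ e) := by rw [pow_add]; ring
          _ ≤ R * (((T' : ℝ) ^ C₂ * (((2 * T : ℕ) : ℝ) ^ C₁ * η / ((b : ℝ) ^ k) ^ e)) * ((b : ℝ) ^ k) ^ e) := by
              gcongr
          _ = R * ((T' : ℝ) ^ C₂ * (((2 * T : ℕ) : ℝ) ^ C₁ * η)) := by field_simp
          _ ≤ (T : ℝ) ^ (B * C₂ * (D + 1)) * ((T : ℝ) ^ (B * C₂) * ((T : ℝ) ^ B * η)) := by gcongr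
          _ = (T : ℝ) ^ (B * C₂ * (D + 2) + B) * η := by ring
          _ ≤ (T : ℝ) ^ C * η := by
              apply mul_le_mul_of_nonneg_right _ hη
              exact pow_le_pow_right₀ hT1 (by omega)
      · have h0 : (MvPolynomial.finSuccEquiv ℝ n F).coeff e = 0 := by
          apply Polynomial.coeff_eq_zero_of_natDegree_lt
          rw [MvPolynomial.natDegree_finSuccEquiv]
          have := hF 0
          omega
        rw [h0, MvPolynomial.coeff_zero, mul_zero, nn_zero, zero_mul]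
        positivity

end Pool.Agent.H56.AC
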