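import Pool.Agent.H56.AC.Base

/-! Popular differences; pigeonholes; the coefficients of the translates of a polynomial. -/

set_option autoImplicit false

namespace Pool.Agent.H56.AC

open Finset
open Pool.Agent.X31.CT
open scoped Polynomial

lemma exj {b : ℕ} (hb : 2 ≤ b) (T : ℕ) (hT : 2 ≤ T) : ∃ j : ℕ, T ≤ b ^ j ∧ b ^ j ≤ T ^ (2 * b) := by
  refine ⟨Nat.log 2 T + 1, ?_, ?_⟩
  · have h1 := Nat.lt_pow_succ_log_self (b := 2) (by norm_num) T
    exact h1.le.trans (Nat.pow_le_pow_left hb _)
  · have hj2 : 2 ^ (Nat.log 2 T + 1) ≤ 2 * T := by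
      rw [pow_succ, mul_comm]
      exact Nat.mul_le_mul_left _ (Nat.pow_log_le_self 2 (by omega))
    calc b ^ (Nat.log 2 T + 1) ≤ (2 ^ b) ^ (Nat.log 2 T + 1) := Nat.pow_le_pow_left (Nat.lt_two_pow_self).le _
      _ = (2 ^ (Nat.log 2 T + 1)) ^ b := by rw [← pow_mul, ← pow_mul, mul_comm]
      _ ≤ (T * T) ^ b := Nat.pow_le_pow_left (hj2.trans (Nat.mul_le_mul_right _ hT)) _
      _ = T ^ (2 * b) := by rw [← sq, ← pow_mul]

/-- popular differences: a dense set of pairs contains many long common fibres -/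
lemma pop {α β : Type*} [DecidableEq α] [DecidableEq β] (U : Finset α) (V : Finset β) (hU : U.Nonempty) (hV : V.Nonempty)
    (S : α → β → Prop) [∀ u, DecidablePred (S u)] (T : ℕ)
    (hcard : U.card * V.card ≤ T * ∑ z ∈ V, (U.filter (fun u => S u z)).card) :
    ∃ u' ∈ U, ∃ U₁ ⊆ U, U.card ≤ 2 * T ^ 2 * U₁.card ∧
      ∀ u ∈ U₁, V.card ≤ 2 * T ^ 2 * (V.filter (fun z => S u z ∧ S u' z)).card := by
  obtain ⟨tot, htot⟩ : ∃ tot, tot = ∑ z ∈ V, (U.filter (fun u => S u z)).card := ⟨_, rfl⟩
  rw [← htot] at hcard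
  have hU0 : 0 < U.card := hU.card_pos
  have hV0 : 0 < V.card := hV.card_pos
  -- Cauchy–Schwarz
  have h1 : tot ^ 2 ≤ V.card * ∑ z ∈ V, (U.filter (fun u => S u z)).card ^ 2 := by
    rw [htot]
    exact sq_sum_le_card_mul_sum_sq
  have h2 : ∑ z ∈ V, (U.filter (fun u => S u z)).card ^ 2 =
      ∑ u' ∈ U, ∑ u ∈ U, (V.filter (fun z => S u z ∧ S u' z)).card := by
    have e1 : ∀ z ∈ V, (U.filter (fun u => S u z)).card ^ 2 =
        ∑ u' ∈ U, ∑ u ∈ U, (if S u z ∧ S u' z then 1 else 0) := by
      intro z _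
      rw [sq, card_filter, sum_mul_sum, sum_comm]
      apply sum_congr rfl
      intro u' _
      apply sum_congr rfl
      intro u _
      split_ifs <;> simp_all
    rw [sum_congr rfl e1, sum_comm]
    apply sum_congr rfl
    intro u' _
    rw [sum_comm]
    apply sum_congr rfl
    intro u _
    rw [card_filter]
  obtain ⟨u', hu', hmax⟩ := exists_max_image U (fun u' => ∑ u ∈ U, (V.filter (fun z => S u z ∧ S u' z)).card) hU
  obtain ⟨s, hs⟩ : ∃ s, s = ∑ u ∈ U, (V.filter (fun z => S u z ∧ S u' z)).card := ⟨_, rfl⟩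
  have h3 : ∑ u' ∈ U, ∑ u ∈ U, (V.filter (fun z => S u z ∧ S u' z)).card ≤ U.card * s := by
    have := sum_le_card_nsmul U (fun u' => ∑ u ∈ U, (V.filter (fun z => S u z ∧ S u' z)).card) s (fun x hx => by
      rw [hs]
      exact hmax x hx)
    rwa [smul_eq_mul] at this
  have h4 : U.card * V.card ≤ T ^ 2 * s := by
    have h5 : (U.card * V.card) ^ 2 ≤ T ^ 2 * (V.card * (U.card * s)) := by
      calc (U.card * V.card) ^ 2 ≤ (T * tot) ^ 2 := Nat.pow_le_pow_left hcard 2
        _ = T ^ 2 * tot ^ 2 := mul_pow _ _ _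
        _ ≤ T ^ 2 * (V.card * (U.card * s)) := by
            apply Nat.mul_le_mul_left
            refine h1.trans (Nat.mul_le_mul_left _ ?_)
            rw [h2]
            exact h3
    have h6 : (U.card * V.card) * (U.card * V.card) ≤ (U.card * V.card) * (T ^ 2 * s) := by
      calc (U.card * V.card) * (U.card * V.card) = (U.card * V.card) ^ 2 := (sq _).symm
        _ ≤ T ^ 2 * (V.card * (U.card * s)) := h5
        _ = (U.card * V.card) * (T ^ 2 * s) := by ring
    exact Nat.le_of_mul_le_mul_left h6 (Nat.mul_pos hU0 hV0)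
  obtain ⟨U₁, hU₁⟩ : ∃ U₁, U₁ = U.filter (fun u => V.card ≤ 2 * T ^ 2 * (V.filter (fun z => S u z ∧ S u' z)).card) := ⟨_, rfl⟩
  refine ⟨u', hu', U₁, by rw [hU₁]; exact filter_subset _ _, ?_, ?_⟩
  · have h5 : 2 * T ^ 2 * s ≤ 2 * T ^ 2 * U₁.card * V.card + U.card * V.card := by
      rw [hs, mul_sum]
      calc ∑ u ∈ U, 2 * T ^ 2 * (V.filter (fun z => S u z ∧ S u' z)).card ≤
          ∑ u ∈ U, ((if u ∈ U₁ then 2 * T ^ 2 * V.card else 0) + V.card) := by
            apply sum_le_sum
            intro u hu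
            split_ifs with hc
            · have : (V.filter (fun z => S u z ∧ S u' z)).card ≤ V.card := card_filter_le _ _
              have := Nat.mul_le_mul_left (2 * T ^ 2) this
              omega
            · rw [hU₁, mem_filter] at hc
              push Not at hc
              have := hc hu
              omega
        _ = _ := by
            rw [sum_add_distrib, sum_const, smul_eq_mul, ← sum_filter, sum_const, smul_eq_mul]
            have e1 : U.filter (fun u => u ∈ U₁) = U₁ := by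
              ext u
              rw [mem_filter]
              constructor
              · exact fun h => h.2
              · intro h
                refine ⟨?_, h⟩
                rw [hU₁] at h
                exact (mem_filter.1 h).1
            rw [e1]
            ring
    have h6 : U.card * V.card ≤ 2 * T ^ 2 * U₁.card * V.card := by
      have h7 : 2 * (U.card * V.card) ≤ 2 * T ^ 2 * s := by
        calc 2 * (U.card * V.card) ≤ 2 * (T ^ 2 * s) := Nat.mul_le_mul_left _ h4
          _ = 2 * T ^ 2 * s := by ring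
      omega
    exact Nat.le_of_mul_le_mul_right h6 hV0
  · intro u hu
    rw [hU₁] at hu
    exact (mem_filter.1 hu).2

/-- a pigeonhole -/
lemma pig {α : Type*} [DecidableEq α] (U : Finset α) (hU : U.Nonempty) (f : α → ℕ) (B : ℕ)
    (hf : ∀ u ∈ U, 1 ≤ f u ∧ f u ≤ B) :
    ∃ q, 1 ≤ q ∧ q ≤ B ∧ U.card ≤ B * (U.filter (fun u => f u = q)).card := by
  obtain ⟨u₀, hu₀⟩ := hU
  have hB : 1 ≤ B := (hf u₀ hu₀).1.trans (hf u₀ hu₀).2
  have hne : (Icc 1 B).Nonempty := ⟨1, mem_Icc.2 ⟨le_rfl, hB⟩⟩
  obtain ⟨q, hq, hmax⟩ := exists_max_image (Icc 1 B) (fun q => (U.filter (fun u => f u = q)).card) hne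
  rw [mem_Icc] at hq
  refine ⟨q, hq.1, hq.2, ?_⟩
  rw [card_eq_sum_card_fiberwise (f := f) (t := Icc 1 B) (fun u hu => by
    rw [mem_coe, mem_Icc]
    exact hf u hu)]
  refine (sum_le_card_nsmul _ _ _ hmax).trans (le_of_eq ?_)
  rw [smul_eq_mul, Nat.card_Icc, Nat.add_sub_cancel]

lemma taylor_coeff_sum (P : ℝ[X]) (N : ℕ) (hP : P.natDegree ≤ N) (r : ℝ) (n : ℕ) :
    (Polynomial.taylor r P).coeff n = ∑ i ∈ range (N + 1), (i.choose n : ℝ) * P.coeff i * r ^ (i - n) := by
  rw [Polynomial.taylor_coeff, Polynomial.hasseDeriv_apply,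
    Polynomial.sum_over_range' _ _ (N + 1) (by omega), Polynomial.eval_finsetSum]
  · apply sum_congr rfl
    intro i _
    rw [Polynomial.eval_monomial]
  · intro i
    rw [mul_zero, Polynomial.monomial_zero_right]

/-- the difference of two translates -/
lemma diff_poly (P : ℝ[X]) (D : ℕ) (hP : P.natDegree ≤ D + 1) (u u' B : ℝ) :
    ∃ Q : ℝ[X], Q.natDegree ≤ D ∧ Q.coeff D = (D + 1) * P.coeff (D + 1) * (u - u') * B ^ D ∧
      ∀ z, Q.eval z = P.eval (u + B * z) - P.eval (u' + B * z) := by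
  have hco : ∀ r : ℝ, ∀ m, D < m → (Polynomial.taylor r P).coeff m = P.coeff m := by
    intro r m hm
    rw [taylor_coeff_sum P (D + 1) hP, sum_range_succ, sum_eq_zero]
    · rcases (by omega : m = D + 1 ∨ D + 1 < m) with h | h
      · rw [h]
        simp
      · rw [Nat.choose_eq_zero_of_lt h, Polynomial.coeff_eq_zero_of_natDegree_lt (by omega : P.natDegree < m)]
        simp
    · intro i hi
      rw [mem_range] at hi
      rw [Nat.choose_eq_zero_of_lt (by omega)]
      simp
  have hcD : ∀ r : ℝ, (Polynomial.taylor r P).coeff D = P.coeff D + (D + 1) * P.coeff (D + 1) * r := by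
    intro r
    rw [taylor_coeff_sum P (D + 1) hP, sum_range_succ, sum_range_succ, sum_eq_zero]
    · rw [Nat.choose_self, Nat.choose_succ_self_right]
      push_cast
      simp
    · intro i hi
      rw [mem_range] at hi
      rw [Nat.choose_eq_zero_of_lt hi]
      simp
  refine ⟨(Polynomial.taylor u P - Polynomial.taylor u' P).comp (Polynomial.C B * Polynomial.X), ?_, ?_, ?_⟩
  · rw [Polynomial.natDegree_le_iff_coeff_eq_zero]
    intro m hm
    rw [Polynomial.comp_C_mul_X_coeff, Polynomial.coeff_sub, hco u m hm, hco u' m hm, sub_self, zero_mul]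
  · rw [Polynomial.comp_C_mul_X_coeff, Polynomial.coeff_sub, hcD, hcD]
    ring
  · intro z
    rw [Polynomial.eval_comp, Polynomial.eval_mul, Polynomial.eval_C, Polynomial.eval_X, Polynomial.eval_sub,
      Polynomial.taylor_eval, Polynomial.taylor_eval, add_comm (B * z) u, add_comm (B * z) u']

end Pool.Agent.H56.AC
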