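import Pool.Agent.H56.AC.Pop

/-! Polynomials of one variable modulo one at integers with restricted digits. -/

set_option autoImplicit false

namespace Pool.Agent.H56.AC

open Finset
open Pool.Agent.X31.CT
open scoped Polynomial

/-- the statement for the polynomials of degree at most `D` -/
def SV (b D C : ℕ) : Prop := ∀ T : ℕ, 2 ≤ T → ∀ k : ℕ, T ^ C ≤ b ^ k → ∀ 𝒟 : ℕ → Finset ℕ, DS b 𝒟 →
  ∀ P : ℝ[X], P.natDegree ≤ D → ∀ η : ℝ, 0 ≤ η → η * (T : ℝ) ^ C ≤ 1 →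
  ∀ G : Finset ℕ, G ⊆ KK b 𝒟 k → (KK b 𝒟 k).card ≤ T * G.card → (∀ x ∈ G, nn (P.eval (x : ℝ)) ≤ η) →
  ∃ q : ℕ, 1 ≤ q ∧ q ≤ T ^ C ∧ ∀ e : ℕ, nn (q * P.coeff e) * ((b : ℝ) ^ k) ^ e ≤ (T : ℝ) ^ C * η

lemma two_sq_le (T : ℕ) (hT : 2 ≤ T) : 2 * T ^ 2 ≤ T ^ 3 := by
  calc 2 * T ^ 2 ≤ T * T ^ 2 := Nat.mul_le_mul_right _ hT
    _ = T ^ 3 := by ring

theorem diff {b : ℕ} (hb : 2 ≤ b) (D C₁ : ℕ) (hIH : SV b D C₁) : ∃ A : ℕ, 1 ≤ A ∧ ∀ T : ℕ, 2 ≤ T → ∀ h m : ℕ,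
    T ^ A ≤ b ^ h → T ^ A ≤ b ^ m → ∀ 𝒟 : ℕ → Finset ℕ, DS b 𝒟 → ∀ P : ℝ[X], P.natDegree ≤ D + 1 →
    ∀ η : ℝ, 0 ≤ η → η * (T : ℝ) ^ A ≤ 1 → ∀ G : Finset ℕ, G ⊆ KK b 𝒟 (h + m) →
    (KK b 𝒟 (h + m)).card ≤ T * G.card → (∀ x ∈ G, nn (P.eval (x : ℝ)) ≤ η) →
    ∃ w : ℕ, 1 ≤ w ∧ w ≤ T ^ A ∧
      nn (w * (P.coeff (D + 1) * ((b : ℝ) ^ h) ^ D)) * ((b : ℝ) ^ h * ((b : ℝ) ^ m) ^ D) ≤ (T : ℝ) ^ A * η := by
  classical
  obtain ⟨R, hR1, hR⟩ := rc_one hb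
  refine ⟨3 * (C₁ + 1) * R + 3 * C₁ + D + 1, by omega,
    fun T hT h m hTh hTm 𝒟 hD P hP η hη hηT G hG hcard hnn => ?_⟩
  have hT0 : 0 < T := by omega
  have hTr : (2 : ℝ) ≤ T := by exact_mod_cast hT
  have hT1 : (1 : ℝ) ≤ T := by linarith
  have hb1 : (1 : ℝ) ≤ b := by exact_mod_cast (by omega : 1 ≤ b)
  obtain ⟨A, hA⟩ : ∃ A, A = 3 * (C₁ + 1) * R + 3 * C₁ + D + 1 := ⟨_, rfl⟩
  rw [← hA] at hTh hTm hηT ⊢
  obtain ⟨T', hT'⟩ : ∃ T', T' = 2 * T ^ 2 := ⟨_, rfl⟩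
  have hT'2 : 2 ≤ T' := by
    rw [hT']
    have : 1 ≤ T ^ 2 := Nat.one_le_pow _ _ hT0
    omega
  have hT'3 : T' ≤ T ^ 3 := by rw [hT']; exact two_sq_le T hT
  have hT'C : T' ^ C₁ ≤ T ^ (3 * C₁) := by
    rw [pow_mul]
    exact Nat.pow_le_pow_left hT'3 _
  obtain ⟨T'', hT''⟩ : ∃ T'', T'' = T' ^ (C₁ + 1) := ⟨_, rfl⟩
  have hT''2 : 2 ≤ T'' := by
    rw [hT'', pow_succ]
    have : 1 ≤ T' ^ C₁ := Nat.one_le_pow _ _ (by omega)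
    nlinarith
  have hT''R : T'' ^ R ≤ T ^ (3 * (C₁ + 1) * R) := by
    rw [hT'', pow_mul, pow_mul]
    exact Nat.pow_le_pow_left (Nat.pow_le_pow_left hT'3 _) _
  have hT'Cr : (T' : ℝ) ^ C₁ ≤ (T : ℝ) ^ (3 * C₁) := by exact_mod_cast hT'C
  have hT''Rr : (T'' : ℝ) ^ R ≤ (T : ℝ) ^ (3 * (C₁ + 1) * R) := by exact_mod_cast hT''R
  have hT'0 : (0 : ℝ) < T' := by exact_mod_cast (by omega : 0 < T')
  have hT''0 : (0 : ℝ) < T'' := by exact_mod_cast (by omega : 0 < T'')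
  -- the product structure
  obtain ⟨U, hU⟩ : ∃ U, U = KK b 𝒟 h := ⟨_, rfl⟩
  obtain ⟨V, hV⟩ : ∃ V, V = KK b (sh h 𝒟) m := ⟨_, rfl⟩
  have hUpos : 0 < U.card := by rw [hU]; exact lt_of_lt_of_le (by positivity) (card_pos' hb h hD)
  have hVpos : 0 < V.card := by rw [hV]; exact lt_of_lt_of_le (by positivity) (card_pos' hb m (DS_sh hD h))
  have hcs := card_split hb hD h m
  rw [← hU, ← hV] at hcs
  have hGc : G.card = ∑ z ∈ V, (U.filter (fun u => u + b ^ h * z ∈ G)).card := by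
    have e1 : G.card = ∑ x ∈ KK b 𝒟 (h + m), (if x ∈ G then 1 else 0) := by
      rw [← card_filter]
      congr 1
      ext x
      rw [mem_filter]
      exact ⟨fun hx => ⟨hG hx, hx⟩, fun hx => hx.2⟩
    rw [e1, sum_split hb h m hD, sum_comm, ← hU, ← hV]
    apply sum_congr rfl
    intro z _
    rw [card_filter]
  obtain ⟨u', hu', U₁, hU₁, hU₁c, hZ⟩ := pop U V (card_pos.1 hUpos) (card_pos.1 hVpos)
    (fun u z => u + b ^ h * z ∈ G) T (by rw [← hGc, ← hcs]; exact hcard)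
  rw [← hT'] at hU₁c hZ
  -- the induction hypothesis
  have hIHu : ∀ u ∈ U₁, ∃ q : ℕ, 1 ≤ q ∧ q ≤ T' ^ C₁ ∧
      nn (q * ((D + 1) * P.coeff (D + 1) * ((u : ℝ) - u') * ((b : ℝ) ^ h) ^ D)) * ((b : ℝ) ^ m) ^ D ≤
        (T' : ℝ) ^ C₁ * (2 * η) := by
    intro u hu
    obtain ⟨Q, hQ1, hQ2, hQ3⟩ := diff_poly P D hP u u' ((b : ℝ) ^ h)
    obtain ⟨q, hq1, hq2, hq3⟩ := hIH T' hT'2 m (hT'C.trans ((Nat.pow_le_pow_right hT0 (by omega)).trans hTm))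
      (sh h 𝒟) (DS_sh hD h) Q hQ1 (2 * η) (by positivity) (by
        calc 2 * η * (T' : ℝ) ^ C₁ ≤ T * η * (T : ℝ) ^ (3 * C₁) := by gcongr
          _ = η * (T : ℝ) ^ (3 * C₁ + 1) := by ring
          _ ≤ η * (T : ℝ) ^ A := by
              apply mul_le_mul_of_nonneg_left _ hη
              exact pow_le_pow_right₀ hT1 (by omega)
          _ ≤ 1 := hηT)
      (V.filter (fun z => u + b ^ h * z ∈ G ∧ u' + b ^ h * z ∈ G)) (by rw [← hV]; exact filter_subset _ _)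
      (by rw [← hV]; exact hZ u hu) (by
        intro z hz
        rw [mem_filter] at hz
        rw [hQ3]
        have h1 := hnn _ hz.2.1
        have h2 := hnn _ hz.2.2
        push_cast at h1 h2
        refine (nn_sub _ _).trans ?_
        linarith)
    refine ⟨q, hq1, hq2, ?_⟩
    have := hq3 D
    rw [hQ2] at this
    exact this
  choose! f hf1 hf2 hf3 using hIHu
  have hU₁ne : U₁.Nonempty := by
    rw [← card_pos]
    rcases Nat.eq_zero_or_pos U₁.card with h0 | h0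
    · rw [h0, mul_zero] at hU₁c
      omega
    · exact h0
  obtain ⟨q, hq1, hq2, hq3⟩ := pig U₁ hU₁ne f (T' ^ C₁) (fun u hu => ⟨hf1 u hu, hf2 u hu⟩)
  obtain ⟨U₂, hU₂⟩ : ∃ U₂, U₂ = U₁.filter (fun u => f u = q) := ⟨_, rfl⟩
  rw [← hU₂] at hq3
  obtain ⟨γ, hγ⟩ : ∃ γ : ℝ, γ = q * ((D + 1) * P.coeff (D + 1) * ((b : ℝ) ^ h) ^ D) := ⟨_, rfl⟩
  obtain ⟨η', hη'⟩ : ∃ η' : ℝ, η' = (T' : ℝ) ^ C₁ * (2 * η) / ((b : ℝ) ^ m) ^ D := ⟨_, rfl⟩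
  have hbm : (1 : ℝ) ≤ ((b : ℝ) ^ m) ^ D := one_le_pow₀ (one_le_pow₀ hb1)
  have hη'0 : 0 ≤ η' := by rw [hη']; positivity
  obtain ⟨q', hq'1, hq'2, hq'3⟩ := hR T'' hT''2 h (hT''R.trans ((Nat.pow_le_pow_right hT0 (by omega)).trans hTh)) 𝒟 hD
    γ (-(γ * u')) η' hη'0 (by
      calc η' * (T'' : ℝ) ^ R ≤ ((T' : ℝ) ^ C₁ * (2 * η)) * (T'' : ℝ) ^ R := by
            apply mul_le_mul_of_nonneg_right _ (by positivity)
            rw [hη']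
            exact div_le_self (by positivity) hbm
        _ ≤ ((T : ℝ) ^ (3 * C₁) * (T * η)) * (T : ℝ) ^ (3 * (C₁ + 1) * R) := by gcongr
        _ = η * (T : ℝ) ^ (3 * (C₁ + 1) * R + 3 * C₁ + 1) := by ring
        _ ≤ η * (T : ℝ) ^ A := by
            apply mul_le_mul_of_nonneg_left _ hη
            exact pow_le_pow_right₀ hT1 (by omega)
        _ ≤ 1 := hηT) U₂ (by
      rw [hU₂, ← hU]
      exact (filter_subset _ _).trans hU₁) (by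
      rw [← hU]
      calc U.card ≤ T' * U₁.card := hU₁c
        _ ≤ T' * (T' ^ C₁ * U₂.card) := Nat.mul_le_mul_left _ hq3
        _ = T'' * U₂.card := by rw [hT'', pow_succ]; ring) (by
      intro u hu
      rw [hU₂, mem_filter] at hu
      have := hf3 u hu.1
      rw [hu.2] at this
      rw [hη', le_div_iff₀ (by positivity)]
      refine le_trans (le_of_eq ?_) this
      congr 2
      rw [hγ]
      ring)
  refine ⟨q' * q * (D + 1), Nat.mul_pos (Nat.mul_pos hq'1 hq1) (by omega), ?_, ?_⟩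
  · have hD1 : D + 1 ≤ T ^ (D + 1) := by
      calc D + 1 ≤ 2 ^ (D + 1) := Nat.lt_two_pow_self.le
        _ ≤ T ^ (D + 1) := Nat.pow_le_pow_left hT _
    calc q' * q * (D + 1) ≤ T ^ (3 * (C₁ + 1) * R) * T ^ (3 * C₁) * T ^ (D + 1) :=
          Nat.mul_le_mul (Nat.mul_le_mul (hq'2.trans hT''R) (hq2.trans hT'C)) hD1
      _ = T ^ A := by rw [← pow_add, ← pow_add, hA]; congr 1
  · have e1 : ((q' * q * (D + 1) : ℕ) : ℝ) * (P.coeff (D + 1) * ((b : ℝ) ^ h) ^ D) = q' * γ := by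
      rw [hγ]
      push_cast
      ring
    rw [e1]
    calc nn (q' * γ) * ((b : ℝ) ^ h * ((b : ℝ) ^ m) ^ D) = (nn (q' * γ) * (b : ℝ) ^ h) * ((b : ℝ) ^ m) ^ D := by ring
      _ ≤ ((T'' : ℝ) ^ R * η') * ((b : ℝ) ^ m) ^ D := mul_le_mul_of_nonneg_right hq'3 (by positivity)
      _ = (T'' : ℝ) ^ R * ((T' : ℝ) ^ C₁ * (2 * η)) := by
          rw [hη']
          field_simp
      _ ≤ (T : ℝ) ^ (3 * (C₁ + 1) * R) * ((T : ℝ) ^ (3 * C₁) * (T * η)) := by gcongr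
      _ = (T : ℝ) ^ (3 * (C₁ + 1) * R + 3 * C₁ + 1) * η := by ring
      _ ≤ (T : ℝ) ^ A * η := by
          apply mul_le_mul_of_nonneg_right _ hη
          exact pow_le_pow_right₀ hT1 (by omega)

lemma nonempty_of_dense {b : ℕ} (hb : 2 ≤ b) {𝒟 : ℕ → Finset ℕ} (hD : DS b 𝒟) (k T : ℕ) (G : Finset ℕ)
    (hcard : (KK b 𝒟 k).card ≤ T * G.card) : G.Nonempty := by
  rw [← card_pos]
  have h1 : 0 < (KK b 𝒟 k).card := lt_of_lt_of_le (by positivity) (card_pos' hb k hD)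
  rcases Nat.eq_zero_or_pos G.card with h0 | h0
  · rw [h0, mul_zero] at hcard
    omega
  · exact h0

/-- from the two block estimates to the top coefficient -/
lemma top_coeff (c B₁ B₂ κ η : ℝ) (D w₁ w₂ : ℕ) (hB₁ : 1 ≤ B₁) (hB₂ : 1 ≤ B₂) (W₁ W₂ : ℕ)
    (hW₁ : (W₁ : ℝ) = w₁ * B₁ ^ D) (hW₂ : (W₂ : ℝ) = w₂ * B₂ ^ D) (hw₂ : 1 ≤ w₂) (hκ : 0 ≤ κ) (hη : 0 ≤ η)
    (hw₁κ : (w₁ : ℝ) ≤ κ) (hw₂κ : (w₂ : ℝ) ≤ κ) (hκη : κ * (κ * η) ≤ 1 / 2)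
    (h1 : nn (W₁ * c) * (B₁ * B₂ ^ D) ≤ κ * η) (h2 : nn (W₂ * c) * (B₂ * B₁ ^ D) ≤ κ * η) :
    nn (W₁ * c) * (B₂ * B₁) ^ (D + 1) ≤ κ * (κ * η) * B₁ ^ (D + 1) := by
  have hB₁0 : 0 < B₁ := by linarith
  have hB₂0 : 0 < B₂ := by linarith
  have hw₂r : (1 : ℝ) ≤ w₂ := by exact_mod_cast hw₂
  obtain ⟨δ, hδ⟩ : ∃ δ : ℝ, δ = W₁ * c - round (W₁ * c) := ⟨_, rfl⟩
  have hδa : nn (W₁ * c) = |δ| := by rw [hδ]; rfl
  have e1 : nn (W₂ * (W₁ * c)) = nn (W₂ * δ) := by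
    have e2 : (W₂ : ℝ) * (W₁ * c) = W₂ * δ + ((W₂ * round (W₁ * c) : ℤ) : ℝ) := by
      rw [hδ]
      push_cast
      ring
    rw [e2, nn_add_int]
  have e3 : |(W₂ : ℝ) * δ| = W₂ * |δ| := by
    rw [abs_mul, abs_of_nonneg (Nat.cast_nonneg W₂)]
  have h1' : |δ| * (B₁ * B₂ ^ D) ≤ κ * η := by rw [← hδa]; exact h1
  have h3 : |(W₂ : ℝ) * δ| ≤ 1 / 2 := by
    rw [e3, hW₂]
    calc (w₂ : ℝ) * B₂ ^ D * |δ| = w₂ * (|δ| * (1 * B₂ ^ D)) := by ring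
      _ ≤ κ * (|δ| * (B₁ * B₂ ^ D)) := by gcongr
      _ ≤ κ * (κ * η) := by gcongr
      _ ≤ 1 / 2 := hκη
  have h4 : W₂ * |δ| ≤ W₁ * nn (W₂ * c) := by
    rw [← e3, ← nn_eq_abs _ h3, ← e1]
    calc nn (W₂ * (W₁ * c)) = nn (W₁ * (W₂ * c)) := by congr 1; ring
      _ ≤ W₁ * nn (W₂ * c) := nn_nat_mul _ _
  have h5 : |δ| * B₂ ^ (D + 1) * B₁ ^ D ≤ (κ * (κ * η)) * B₁ ^ D := by
    calc |δ| * B₂ ^ (D + 1) * B₁ ^ D = (1 * B₂ ^ D * |δ|) * (B₂ * B₁ ^ D) := by ring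
      _ ≤ (w₂ * B₂ ^ D * |δ|) * (B₂ * B₁ ^ D) := by gcongr
      _ = (W₂ * |δ|) * (B₂ * B₁ ^ D) := by rw [hW₂]
      _ ≤ (W₁ * nn (W₂ * c)) * (B₂ * B₁ ^ D) := by gcongr
      _ = W₁ * (nn (W₂ * c) * (B₂ * B₁ ^ D)) := by ring
      _ ≤ W₁ * (κ * η) := by gcongr
      _ = w₁ * B₁ ^ D * (κ * η) := by rw [hW₁]
      _ ≤ κ * B₁ ^ D * (κ * η) := by gcongr
      _ = _ := by ring
  rw [hδa]
  calc |δ| * (B₂ * B₁) ^ (D + 1) = (|δ| * B₂ ^ (D + 1) * B₁ ^ D) * B₁ := by ring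
    _ ≤ ((κ * (κ * η)) * B₁ ^ D) * B₁ := by gcongr
    _ = _ := by ring

theorem sv {b : ℕ} (hb : 2 ≤ b) (D : ℕ) : ∃ C : ℕ, 1 ≤ C ∧ SV b D C := by
  induction D with
  | zero =>
    refine ⟨1, le_rfl, fun T hT k _ 𝒟 hD P hP η hη _ G _ hcard hnn => ?_⟩
    have hT1 : (1 : ℝ) ≤ T := by exact_mod_cast (by omega : 1 ≤ T)
    obtain ⟨x, hx⟩ := nonempty_of_dense hb hD k T G hcard
    refine ⟨1, le_rfl, by rw [pow_one]; omega, fun e => ?_⟩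
    rw [Nat.cast_one, one_mul, pow_one]
    rcases Nat.eq_zero_or_pos e with he | he
    · rw [he, pow_zero, mul_one]
      have h1 := hnn x hx
      rw [Polynomial.eq_C_of_natDegree_le_zero hP, Polynomial.eval_C] at h1
      nlinarith
    · rw [Polynomial.coeff_eq_zero_of_natDegree_lt (by omega), nn_zero, zero_mul]
      positivity
  | succ D ih =>
    obtain ⟨C₁, hC₁, hIH⟩ := ih
    obtain ⟨A, hA1, hA⟩ := diff hb D C₁ hIH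
    obtain ⟨B, hB⟩ : ∃ B, B = 2 * A + 2 * b * A * (D + 1) := ⟨_, rfl⟩
    refine ⟨C₁ + B + 1, by omega, fun T hT k hk 𝒟 hD P hP η hη hηT G hG hcard hnn => ?_⟩
    have hT0 : 0 < T := by omega
    have hTr : (2 : ℝ) ≤ T := by exact_mod_cast hT
    have hT1 : (1 : ℝ) ≤ T := by linarith
    have hb1 : (1 : ℝ) ≤ b := by exact_mod_cast (by omega : 1 ≤ b)
    obtain ⟨j, hj1, hj2⟩ := exj hb T hT
    obtain ⟨h₀, hh₀⟩ : ∃ h₀, h₀ = A * j := ⟨_, rfl⟩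
    have hh1 : T ^ A ≤ b ^ h₀ := by
      rw [hh₀, mul_comm, pow_mul]
      exact Nat.pow_le_pow_left hj1 _
    have hh2 : b ^ h₀ ≤ T ^ (2 * b * A) := by
      rw [hh₀, mul_comm, pow_mul, pow_mul]
      exact Nat.pow_le_pow_left hj2 _
    have hBge : 2 * A + 2 * b * A ≤ B := by
      rw [hB]
      have : 2 * b * A * 1 ≤ 2 * b * A * (D + 1) := Nat.mul_le_mul_left _ (by omega)
      omega
    have hh3 : h₀ ≤ k := by
      have h1 : b ^ h₀ ≤ b ^ k := hh2.trans ((Nat.pow_le_pow_right hT0 (by omega)).trans hk)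
      exact (Nat.pow_le_pow_iff_right (by omega)).1 h1
    obtain ⟨m₀, hm₀⟩ : ∃ m₀, k = h₀ + m₀ := ⟨k - h₀, by omega⟩
    have hm1 : T ^ A ≤ b ^ m₀ := by
      have h1 : T ^ A * b ^ h₀ ≤ b ^ m₀ * b ^ h₀ := by
        calc T ^ A * b ^ h₀ ≤ T ^ A * T ^ (2 * b * A) := Nat.mul_le_mul_left _ hh2
          _ = T ^ (A + 2 * b * A) := by rw [← pow_add]
          _ ≤ T ^ (C₁ + B + 1) := Nat.pow_le_pow_right hT0 (by omega)
          _ ≤ b ^ k := hk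
          _ = b ^ m₀ * b ^ h₀ := by rw [hm₀, pow_add, mul_comm]
      exact Nat.le_of_mul_le_mul_right h1 (by positivity)
    have hηA : η * (T : ℝ) ^ A ≤ 1 := by
      refine le_trans ?_ hηT
      apply mul_le_mul_of_nonneg_left _ hη
      exact pow_le_pow_right₀ hT1 (by omega)
    obtain ⟨c, hc⟩ : ∃ c, c = P.coeff (D + 1) := ⟨_, rfl⟩
    obtain ⟨w₁, hw₁, hw₁T, hw₁n⟩ := hA T hT h₀ m₀ hh1 hm1 𝒟 hD P hP η hη hηA G (by rw [← hm₀]; exact hG)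
      (by rw [← hm₀]; exact hcard) hnn
    obtain ⟨w₂, hw₂, hw₂T, hw₂n⟩ := hA T hT m₀ h₀ hm1 hh1 𝒟 hD P hP η hη hηA G
      (by rw [add_comm m₀ h₀, ← hm₀]; exact hG) (by rw [add_comm m₀ h₀, ← hm₀]; exact hcard) hnn
    rw [← hc] at hw₁n hw₂n
    obtain ⟨W₁, hW₁⟩ : ∃ W₁ : ℕ, W₁ = w₁ * (b ^ h₀) ^ D := ⟨_, rfl⟩
    obtain ⟨W₂, hW₂⟩ : ∃ W₂ : ℕ, W₂ = w₂ * (b ^ m₀) ^ D := ⟨_, rfl⟩
    have hW₁r : (W₁ : ℝ) = w₁ * ((b : ℝ) ^ h₀) ^ D := by rw [hW₁]; push_cast; rfl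
    have hW₂r : (W₂ : ℝ) = w₂ * ((b : ℝ) ^ m₀) ^ D := by rw [hW₂]; push_cast; rfl
    have hbh : (1 : ℝ) ≤ (b : ℝ) ^ h₀ := one_le_pow₀ hb1
    have hbm : (1 : ℝ) ≤ (b : ℝ) ^ m₀ := one_le_pow₀ hb1
    have hκη : (T : ℝ) ^ A * ((T : ℝ) ^ A * η) ≤ 1 / 2 := by
      have h1 : (T : ℝ) ^ A * ((T : ℝ) ^ A * η) * 2 ≤ 1 := by
        calc (T : ℝ) ^ A * ((T : ℝ) ^ A * η) * 2 ≤ (T : ℝ) ^ A * ((T : ℝ) ^ A * η) * T := by gcongr
          _ = η * (T : ℝ) ^ (2 * A + 1) := by ring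
          _ ≤ η * (T : ℝ) ^ (C₁ + B + 1) := by
              apply mul_le_mul_of_nonneg_left _ hη
              exact pow_le_pow_right₀ hT1 (by omega)
          _ ≤ 1 := hηT
      linarith
    have key := top_coeff c ((b : ℝ) ^ h₀) ((b : ℝ) ^ m₀) ((T : ℝ) ^ A) η D w₁ w₂ hbh hbm W₁ W₂ hW₁r hW₂r hw₂
      (by positivity) hη (by exact_mod_cast hw₁T) (by exact_mod_cast hw₂T) hκη
      (by
        refine le_trans (le_of_eq ?_) hw₁n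
        congr 2
        rw [hW₁r]
        ring)
      (by
        refine le_trans (le_of_eq ?_) hw₂n
        congr 2
        rw [hW₂r]
        ring)
    have hbk : (b : ℝ) ^ m₀ * (b : ℝ) ^ h₀ = (b : ℝ) ^ k := by rw [hm₀, pow_add, mul_comm]
    rw [hbk] at key
    have hW₁T : W₁ ≤ T ^ B := by
      rw [hW₁]
      calc w₁ * (b ^ h₀) ^ D ≤ T ^ A * (T ^ (2 * b * A)) ^ D := Nat.mul_le_mul hw₁T (Nat.pow_le_pow_left hh2 _)
        _ = T ^ (A + 2 * b * A * D) := by rw [← pow_mul, ← pow_add]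
        _ ≤ T ^ B := by
            apply Nat.pow_le_pow_right hT0
            rw [hB, mul_add]
            omega
    have hW₁Tr : (W₁ : ℝ) ≤ (T : ℝ) ^ B := by exact_mod_cast hW₁T
    have hW₁pos : 1 ≤ W₁ := by
      rw [hW₁]
      exact Nat.mul_pos hw₁ (by positivity)
    have key2 : nn (W₁ * c) * ((b : ℝ) ^ k) ^ (D + 1) ≤ (T : ℝ) ^ B * η := by
      refine key.trans ?_
      have h1 : ((b : ℝ) ^ h₀) ^ (D + 1) ≤ ((T : ℝ) ^ (2 * b * A)) ^ (D + 1) := by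
        apply pow_le_pow_left₀ (by positivity)
        exact_mod_cast hh2
      calc (T : ℝ) ^ A * ((T : ℝ) ^ A * η) * ((b : ℝ) ^ h₀) ^ (D + 1) ≤
          (T : ℝ) ^ A * ((T : ℝ) ^ A * η) * ((T : ℝ) ^ (2 * b * A)) ^ (D + 1) := by gcongr
        _ = (T : ℝ) ^ (2 * A + 2 * b * A * (D + 1)) * η := by
            rw [← pow_mul]
            ring
        _ = (T : ℝ) ^ B * η := by rw [hB]
    -- the lower coefficients
    obtain ⟨P₁, hP₁⟩ : ∃ P₁ : ℝ[X], P₁ = Polynomial.C (W₁ : ℝ) * (P - Polynomial.C c * Polynomial.X ^ (D + 1)) := ⟨_, rfl⟩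
    have hP₁c : ∀ e, P₁.coeff e = if e = D + 1 then 0 else W₁ * P.coeff e := by
      intro e
      rw [hP₁, Polynomial.coeff_C_mul, Polynomial.coeff_sub, Polynomial.coeff_C_mul, Polynomial.coeff_X_pow]
      split_ifs with h1
      · rw [h1, hc, mul_one, sub_self, mul_zero]
      · rw [mul_zero, sub_zero]
    have hP₁d : P₁.natDegree ≤ D := by
      rw [Polynomial.natDegree_le_iff_coeff_eq_zero]
      intro m hm
      rw [hP₁c]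
      split_ifs with h1
      · rfl
      · rw [Polynomial.coeff_eq_zero_of_natDegree_lt (by omega : P.natDegree < m), mul_zero]
    have hTB : (0 : ℝ) ≤ (T : ℝ) ^ B * η := by positivity
    obtain ⟨q₁, hq₁, hq₁T, hq₁n⟩ := hIH T hT k ((Nat.pow_le_pow_right hT0 (by omega)).trans hk) 𝒟 hD P₁ hP₁d
      ((T : ℝ) ^ (B + 1) * η) (by positivity) (by
        calc (T : ℝ) ^ (B + 1) * η * (T : ℝ) ^ C₁ = η * (T : ℝ) ^ (C₁ + B + 1) := by ring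
          _ ≤ 1 := hηT) G hG hcard (by
        intro x hx
        have hxk : (x : ℝ) ≤ (b : ℝ) ^ k := by exact_mod_cast (KK_lt k hD x (hG hx)).le
        have e1 : P₁.eval (x : ℝ) = W₁ * P.eval (x : ℝ) - ((x ^ (D + 1) : ℕ) : ℝ) * (W₁ * c) := by
          rw [hP₁]
          simp
          ring
        rw [e1]
        have h1 := nn_sub (W₁ * P.eval (x : ℝ)) (((x ^ (D + 1) : ℕ) : ℝ) * (W₁ * c))
        have h2 := nn_nat_mul W₁ (P.eval (x : ℝ))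
        have h3 := nn_nat_mul (x ^ (D + 1)) (W₁ * c)
        have h4 : (W₁ : ℝ) * nn (P.eval (x : ℝ)) ≤ (T : ℝ) ^ B * η :=
          mul_le_mul hW₁Tr (hnn x hx) (nn_nonneg _) (by positivity)
        have h5 : ((x ^ (D + 1) : ℕ) : ℝ) * nn (W₁ * c) ≤ (T : ℝ) ^ B * η := by
          refine le_trans ?_ key2
          rw [mul_comm]
          apply mul_le_mul_of_nonneg_left _ (nn_nonneg _)
          push_cast
          exact pow_le_pow_left₀ (Nat.cast_nonneg x) hxk _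
        calc nn (W₁ * P.eval (x : ℝ) - ((x ^ (D + 1) : ℕ) : ℝ) * (W₁ * c)) ≤ 2 * ((T : ℝ) ^ B * η) := by linarith
          _ ≤ T * ((T : ℝ) ^ B * η) := by gcongr
          _ = _ := by ring)
    have hq₁Tr : (q₁ : ℝ) ≤ (T : ℝ) ^ C₁ := by exact_mod_cast hq₁T
    refine ⟨q₁ * W₁, Nat.mul_pos hq₁ hW₁pos, ?_, fun e => ?_⟩
    · calc q₁ * W₁ ≤ T ^ C₁ * T ^ B := Nat.mul_le_mul hq₁T hW₁T
        _ = T ^ (C₁ + B) := by rw [← pow_add]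
        _ ≤ T ^ (C₁ + B + 1) := Nat.pow_le_pow_right hT0 (by omega)
    · by_cases he : e = D + 1
      · rw [he, ← hc]
        have e2 : ((q₁ * W₁ : ℕ) : ℝ) * c = (q₁ : ℝ) * (W₁ * c) := by
          push_cast
          ring
        calc nn (((q₁ * W₁ : ℕ) : ℝ) * c) * ((b : ℝ) ^ k) ^ (D + 1) =
            nn ((q₁ : ℝ) * (W₁ * c)) * ((b : ℝ) ^ k) ^ (D + 1) := by rw [e2]
          _ ≤ (q₁ * nn (W₁ * c)) * ((b : ℝ) ^ k) ^ (D + 1) := by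
              apply mul_le_mul_of_nonneg_right (nn_nat_mul _ _) (by positivity)
          _ = q₁ * (nn (W₁ * c) * ((b : ℝ) ^ k) ^ (D + 1)) := by ring
          _ ≤ (T : ℝ) ^ C₁ * ((T : ℝ) ^ B * η) :=
              mul_le_mul hq₁Tr key2 (mul_nonneg (nn_nonneg _) (by positivity)) (by positivity)
          _ = (T : ℝ) ^ (C₁ + B) * η := by ring
          _ ≤ (T : ℝ) ^ (C₁ + B + 1) * η := by
              apply mul_le_mul_of_nonneg_right _ hη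
              exact pow_le_pow_right₀ hT1 (by omega)
      · have h1 := hq₁n e
        rw [hP₁c, if_neg he] at h1
        have e2 : ((q₁ * W₁ : ℕ) : ℝ) * P.coeff e = (q₁ : ℝ) * (W₁ * P.coeff e) := by
          push_cast
          ring
        calc nn (((q₁ * W₁ : ℕ) : ℝ) * P.coeff e) * ((b : ℝ) ^ k) ^ e =
            nn ((q₁ : ℝ) * (W₁ * P.coeff e)) * ((b : ℝ) ^ k) ^ e := by rw [e2]
          _ ≤ (T : ℝ) ^ C₁ * ((T : ℝ) ^ (B + 1) * η) := h1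
          _ = (T : ℝ) ^ (C₁ + B + 1) * η := by ring

end Pool.Agent.H56.AC
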