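import Pool.Agent.H56.AC.Core

/-! Linear equations in three primes, the large coefficient near polynomial values: one scale. -/

set_option autoImplicit false

namespace Pool.Agent.H56.AC

open Finset Filter Topology
open Pool.Agent.X31 (Sch FamO)
open Pool.Agent.X31.CT
open Pool.Agent.X275.MD (Alm alm_single log_ev bad badY RL solvR rpow_log_ev exists_m)
open Pool.Agent.Y883.T5 (Solv)

/-- the size of the values -/
lemma val_le {b : ℕ} (hb : 2 ≤ b) {n : ℕ} (F : MvPolynomial (Fin n) ℤ) : ∃ H : ℕ, 1 ≤ H ∧ ∀ k : ℕ,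
    ∀ 𝒟 : Fin n → ℕ → Finset ℕ, (∀ i, DS b (𝒟 i)) → ∀ x ∈ Fintype.piFinset (fun i => KK b (𝒟 i) k),
      |val F x| ≤ H * ((b : ℝ) ^ k) ^ F.totalDegree := by
  refine ⟨1 + ∑ m ∈ F.support, (F.coeff m).natAbs, by omega, fun k 𝒟 hD x hx => ?_⟩
  have hb1 : (1 : ℝ) ≤ b := by exact_mod_cast (by omega : 1 ≤ b)
  have hbk : (1 : ℝ) ≤ (b : ℝ) ^ k := one_le_pow₀ hb1
  rw [Fintype.mem_piFinset] at hx
  have hx' : ∀ i, (x i : ℝ) ≤ (b : ℝ) ^ k := fun i => by exact_mod_cast (KK_lt k (hD i) (x i) (hx i)).le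
  unfold val
  rw [MvPolynomial.eval_eq']
  push_cast
  refine (abs_sum_le_sum_abs _ _).trans ?_
  rw [add_mul, one_mul, sum_mul]
  have h1 : ∀ m ∈ F.support, |((F.coeff m : ℤ) : ℝ) * ∏ i, (x i : ℝ) ^ m i| ≤
      ((F.coeff m).natAbs : ℝ) * ((b : ℝ) ^ k) ^ F.totalDegree := by
    intro m hm
    rw [abs_mul, ← Int.cast_abs, ← Nat.cast_natAbs]
    apply mul_le_mul_of_nonneg_left _ (Nat.cast_nonneg _)
    rw [abs_of_nonneg (prod_nonneg fun i _ => by positivity)]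
    calc ∏ i, (x i : ℝ) ^ m i ≤ ∏ i, ((b : ℝ) ^ k) ^ m i :=
          prod_le_prod (fun i _ => by positivity) (fun i _ => pow_le_pow_left₀ (Nat.cast_nonneg _) (hx' i) _)
      _ = ((b : ℝ) ^ k) ^ (∑ i, m i) := prod_pow_eq_pow_sum _ _ _
      _ ≤ ((b : ℝ) ^ k) ^ F.totalDegree := by
          apply pow_le_pow_right₀ hbk
          have := MvPolynomial.le_totalDegree hm
          rw [Finsupp.sum_fintype _ _ (fun _ => rfl)] at this
          exact this
  have h2 := sum_le_sum h1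
  have h3 : (0 : ℝ) ≤ ((b : ℝ) ^ k) ^ F.totalDegree := by positivity
  linarith

/-- a monomial of maximal degree -/
lemma exists_top {n : ℕ} (F : MvPolynomial (Fin n) ℤ) (hF : 1 ≤ F.totalDegree) :
    ∃ m₀ : Fin n →₀ ℕ, F.coeff m₀ ≠ 0 ∧ ∑ i, m₀ i = F.totalDegree := by
  have hF0 : F ≠ 0 := by
    rintro rfl
    simp at hF
  have hne : F.support.Nonempty := MvPolynomial.support_nonempty.2 hF0
  obtain ⟨m, hm, h⟩ := exists_mem_eq_sup F.support hne (fun s => s.sum fun _ e => e)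
  refine ⟨m, MvPolynomial.mem_support_iff.1 hm, ?_⟩
  have h2 : F.totalDegree = m.sum fun _ e => e := h
  rw [h2, Finsupp.sum_fintype _ _ (fun _ => rfl)]

set_option maxHeartbeats 4000000 in
/-- one scale -/
theorem scaleP {b : ℕ} (hb : 2 ≤ b) {n : ℕ} (F : MvPolynomial (Fin n) ℤ) (hF : 1 ≤ F.totalDegree) (η : ℝ) (hη : 0 < η)
    (T A : ℕ) (hA : 4 * T + 10 ≤ A) :
    ∃ N₀ : ℕ, ∀ N : ℕ, N₀ ≤ N → ∀ (k : ℕ) (c₀ : ℤ) (𝒟 : Fin n → ℕ → Finset ℕ), (∀ i, DS b (𝒟 i)) →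
      (N : ℝ) ^ η ≤ ((b : ℝ) ^ k) ^ F.totalDegree → ((b : ℝ) ^ k) ^ F.totalDegree ≤ (N : ℝ) ^ (1 - η) →
      |(c₀ : ℝ)| ≤ ((b : ℝ) ^ k) ^ F.totalDegree * Real.log N ^ A →
      ∀ X : Finset (Fin n → ℕ), X ⊆ Fintype.piFinset (fun i => KK b (𝒟 i) k) →
        (∀ x ∈ X, ∃ m : ℤ, |((m - (c₀ + MvPolynomial.eval (fun i => (x i : ℤ)) F) : ℤ) : ℝ)| ≤ Real.log N ^ A ∧
          m ≠ 0 ∧ ¬ Solv N T m.natAbs) →
        (X.card : ℝ) ≤ (Fintype.piFinset (fun i => KK b (𝒟 i) k)).card / Real.log N ^ A := by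
  classical
  obtain ⟨m₀, hm₀, hm₀d⟩ := exists_top F hF
  have hm₀1 : 1 ≤ ∑ i, m₀ i := by omega
  have hm₀ne : m₀ ≠ 0 := by
    intro h
    rw [h] at hm₀1
    simp at hm₀1
  obtain ⟨d, hd⟩ : ∃ d, d = F.totalDegree := ⟨_, rfl⟩
  rw [← hd] at hm₀d hF ⊢
  have hdr : (1 : ℝ) ≤ d := by exact_mod_cast hF
  obtain ⟨lam, hlam⟩ : ∃ lam : ℕ, lam = ⌈2 * d / η⌉₊ + 1 := ⟨_, rfl⟩
  have hlam1 : 1 ≤ lam := by omega
  have hlamη : 2 * d / η ≤ lam := by
    rw [hlam]
    push_cast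
    exact (Nat.le_ceil _).trans (by linarith)
  obtain ⟨H, hH1, hH⟩ := val_le hb F
  rw [← hd] at hH
  obtain ⟨Cs, hCs1, hCs⟩ := small_val hb F m₀ hm₀ hm₀1
  rw [hm₀d] at hCs
  obtain ⟨E, hE⟩ : ∃ E : ℕ, E = (A + 2) * Cs := ⟨_, rfl⟩
  obtain ⟨D, hD⟩ : ∃ D : ℕ, D = E + 3 * A + 6 := ⟨_, rfl⟩
  have hSch := Sch_val hb F m₀ hm₀ hm₀ne lam hlam1
  rw [hm₀d] at hSch
  obtain ⟨N₁, h1⟩ := coreP F d lam (RL T) (alm_single hSch
    (fun h _ => Pool.Agent.X31.famO_lin h (1 / 2) (by norm_num) le_rfl (T + 2) 1 T)) D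
  obtain ⟨N₂, h2⟩ := solvR T A hA (η / 2) (by linarith)
  obtain ⟨N₃, h3⟩ := rpow_log_ev 2 (η / 2) (by norm_num) (by linarith) (A + 1)
  obtain ⟨N₄, h4⟩ := log_ev (12 + H)
  obtain ⟨N₅, h5⟩ := rpow_log_ev 4 (η / d) (by norm_num) (by positivity) (E + A + 1)
  refine ⟨N₁ + N₂ + N₃ + N₄ + N₅ + 3, fun N hN k c₀ 𝒟 hDS hlo hhi hc₀ X hX hbad => ?_⟩
  have hcore := h1 N (by omega)
  have hsolv := h2 N (by omega)
  have h3' := h3 N (by omega)
  have hL12 := h4 N (by omega)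
  have h5' := h5 N (by omega)
  clear h1 h2 h3 h4 h5
  obtain ⟨L, hL⟩ : ∃ L, L = Real.log (N : ℝ) := ⟨_, rfl⟩
  rw [← hL] at hL12 h3' h5' hc₀ hcore hbad hsolv ⊢
  have hHr : (1 : ℝ) ≤ H := by exact_mod_cast hH1
  have hL1 : 1 ≤ L := by linarith
  have hL0 : 0 < L := by linarith
  have hNr : (3 : ℝ) ≤ N := by exact_mod_cast (by omega : 3 ≤ N)
  have hN0 : (0 : ℝ) < N := by linarith
  have hN1 : (1 : ℝ) ≤ N := by linarith
  have hb1 : (1 : ℝ) ≤ b := by exact_mod_cast (by omega : 1 ≤ b)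
  obtain ⟨Ω, hΩ⟩ : ∃ Ω, Ω = Fintype.piFinset (fun i => KK b (𝒟 i) k) := ⟨_, rfl⟩
  obtain ⟨bk, hbk⟩ : ∃ bk : ℝ, bk = (b : ℝ) ^ k := ⟨_, rfl⟩
  have hbk1 : 1 ≤ bk := by rw [hbk]; exact one_le_pow₀ hb1
  obtain ⟨B, hB⟩ : ∃ B : ℝ, B = bk ^ d := ⟨_, rfl⟩
  have hB1 : 1 ≤ B := by rw [hB]; exact one_le_pow₀ hbk1
  have hB0 : 0 < B := by linarith
  have hH' := hH k 𝒟 hDS
  have hCs' := fun T hT hk => hCs T hT k hk 𝒟 hDS
  rw [← hΩ] at hX ⊢ hH' hCs'
  rw [← hbk, ← hB] at hlo hhi hc₀ hH' hCs'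
  obtain ⟨S, hS⟩ : ∃ S : ℝ, S = L ^ A := ⟨_, rfl⟩
  have hS1 : 1 ≤ S := by rw [hS]; exact one_le_pow₀ hL1
  have hS0 : 0 < S := by linarith
  -- the sizes of the powers
  have hNbk : (N : ℝ) ^ (η / d) ≤ bk := by
    have e1 : ((N : ℝ) ^ (η / d)) ^ (d : ℝ) ≤ bk ^ (d : ℝ) := by
      rw [← Real.rpow_mul hN0.le, div_mul_cancel₀ _ (by positivity), Real.rpow_natCast]
      rw [hB] at hlo
      exact hlo
    exact (Real.rpow_le_rpow_iff (by positivity) (by linarith) (by linarith)).1 e1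
  have hLbk : 4 * L ^ (E + A + 1) ≤ bk := h5'.trans hNbk
  have hbkB : bk ≤ B := by
    rw [hB]
    exact le_self_pow₀ hbk1 (by omega)
  have hBN : B ≤ N := by
    refine hhi.trans ?_
    calc (N : ℝ) ^ (1 - η) ≤ (N : ℝ) ^ (1 : ℝ) := Real.rpow_le_rpow_of_exponent_le hN1 (by linarith)
      _ = N := Real.rpow_one _
  have hLE : 1 ≤ L ^ E := one_le_pow₀ hL1
  -- the small values
  obtain ⟨T₀, hT₀⟩ : ∃ T₀ : ℕ, T₀ = ⌈L ^ (A + 1)⌉₊ := ⟨_, rfl⟩
  have hT₀a : L ^ (A + 1) ≤ T₀ := by rw [hT₀]; exact Nat.le_ceil _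
  have hT₀b : (T₀ : ℝ) ≤ L ^ (A + 2) := by
    have h6 : (T₀ : ℝ) < L ^ (A + 1) + 1 := by rw [hT₀]; exact Nat.ceil_lt_add_one (by positivity)
    have h7 : 1 ≤ L ^ (A + 1) := one_le_pow₀ hL1
    have h8 : L ^ (A + 2) = L ^ (A + 1) * L := by ring
    nlinarith
  have hT₀2 : 2 ≤ T₀ := by
    have h6 : L ≤ L ^ (A + 1) := le_self_pow₀ hL1 (by omega)
    have h7 : (2 : ℝ) ≤ T₀ := by linarith
    exact_mod_cast h7
  have hT₀E : (T₀ : ℝ) ^ Cs ≤ L ^ E := by
    rw [hE, pow_mul]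
    exact pow_le_pow_left₀ (Nat.cast_nonneg _) hT₀b _
  have hEA : L ^ E ≤ L ^ (E + A + 1) := pow_le_pow_right₀ hL1 (by omega)
  have hT₀k : T₀ ^ Cs ≤ b ^ k := by
    have h6 : (T₀ : ℝ) ^ Cs ≤ (b : ℝ) ^ k := by
      rw [← hbk]
      have : (0 : ℝ) ≤ L ^ (E + A + 1) := by positivity
      linarith
    exact_mod_cast h6
  have hsm := hCs' T₀ hT₀2 hT₀k (c₀ : ℝ)
  obtain ⟨Xs, hXs⟩ : ∃ Xs, Xs = Ω.filter (fun x => |val F x + c₀| * (T₀ : ℝ) ^ Cs ≤ B) := ⟨_, rfl⟩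
  rw [← hXs] at hsm
  have hXsc : (Xs.card : ℝ) ≤ Ω.card / (2 * S) := by
    rw [le_div_iff₀ (by positivity)]
    have h6 : ((T₀ * Xs.card : ℕ) : ℝ) ≤ Ω.card := by exact_mod_cast hsm.le
    push_cast at h6
    have h7 : 2 * S ≤ T₀ := by
      refine le_trans ?_ hT₀a
      rw [pow_succ, ← hS]
      nlinarith
    have h8 : (0 : ℝ) ≤ Xs.card := Nat.cast_nonneg _
    nlinarith
  obtain ⟨X₁, hX₁⟩ : ∃ X₁, X₁ = X.filter (fun x => x ∉ Xs) := ⟨_, rfl⟩
  -- the data of the vectors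
  have hdata : ∀ x ∈ X₁, ∃ (s σ : ℤ) (g : ℕ) (δ : ℝ), |(s : ℝ)| ≤ S ∧ (σ = 1 ∨ σ = -1) ∧ 1 ≤ g ∧ (g : ℝ) ≤ S ∧
      ∃ q : ℕ, 1 ≤ q ∧ (q : ℝ) = σ * (val F x + (c₀ + s)) ∧ B ≤ q * (2 * L ^ E) ∧ (q : ℝ) ≤ B * L ^ (A + 1) ∧
      (N : ℝ) / (q * S) ≤ ((badY (RL T) A N q g δ).card : ℝ) := by
    intro x hx
    rw [hX₁, mem_filter] at hx
    obtain ⟨m, hm1, hm2, hm3⟩ := hbad x hx.1
    have hxΩ : x ∈ Ω := hX hx.1
    have hxs : B < |val F x + c₀| * L ^ E := by
      have h6 := hx.2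
      rw [hXs, mem_filter] at h6
      push Not at h6
      refine lt_of_lt_of_le (h6 hxΩ) ?_
      exact mul_le_mul_of_nonneg_left hT₀E (abs_nonneg _)
    obtain ⟨s, hs⟩ : ∃ s : ℤ, s = m - (c₀ + MvPolynomial.eval (fun i => (x i : ℤ)) F) := ⟨_, rfl⟩
    rw [← hs, ← hS] at hm1
    obtain ⟨q, hq⟩ : ∃ q, q = m.natAbs := ⟨_, rfl⟩
    rw [← hq] at hm3
    have hq1 : 1 ≤ q := by rw [hq]; exact Int.natAbs_pos.2 hm2
    have hq0 : (0 : ℝ) < q := by exact_mod_cast hq1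
    have hmr : (m : ℝ) = val F x + (c₀ + s) := by
      have : m = MvPolynomial.eval (fun i => (x i : ℤ)) F + (c₀ + s) := by rw [hs]; ring
      rw [this]
      unfold val
      push_cast
      ring
    obtain ⟨σ, hσ, hσq⟩ : ∃ σ : ℤ, (σ = 1 ∨ σ = -1) ∧ (q : ℝ) = σ * (val F x + (c₀ + s)) := by
      rcases Int.natAbs_eq m with h6 | h6
      · refine ⟨1, Or.inl rfl, ?_⟩
        have h7 : (m : ℝ) = q := by
          rw [← hq] at h6
          exact_mod_cast h6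
        rw [← hmr, h7, Int.cast_one, one_mul]
      · refine ⟨-1, Or.inr rfl, ?_⟩
        have h7 : (m : ℝ) = -q := by
          rw [← hq] at h6
          exact_mod_cast h6
        rw [← hmr, h7, Int.cast_neg, Int.cast_one]
        ring
    have hqa : (q : ℝ) = |val F x + c₀ + s| := by
      rw [hq, Nat.cast_natAbs, Int.cast_abs, hmr, add_assoc]
    have hlow : B ≤ q * (2 * L ^ E) := by
      have h6 : |val F x + c₀| ≤ q + S := by
        have h7 := abs_sub (val F x + c₀ + s) (s : ℝ)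
        rw [add_sub_cancel_right, ← hqa] at h7
        linarith
      have h7 : 4 * (S * L ^ E) ≤ B := by
        refine le_trans ?_ (hLbk.trans hbkB)
        have h8 : L ^ (E + A + 1) = (S * L ^ E) * L := by rw [hS]; ring
        rw [h8]
        have h9 : 0 ≤ S * L ^ E := by positivity
        nlinarith
      have h8 : |val F x + c₀| * L ^ E ≤ (q + S) * L ^ E := mul_le_mul_of_nonneg_right h6 (by positivity)
      nlinarith
    have hupp : (q : ℝ) ≤ B * L ^ (A + 1) := by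
      have h6 := hH' x hxΩ
      have h7 : |val F x + c₀ + s| ≤ |val F x| + |(c₀ : ℝ)| + |(s : ℝ)| := abs_add_three _ _ _
      rw [← hqa] at h7
      rw [← hS] at hc₀
      have h8 : S ≤ B * S := le_mul_of_one_le_left hS0.le hB1
      have h9 : (H : ℝ) * B ≤ H * (B * S) := by
        apply mul_le_mul_of_nonneg_left _ (by linarith)
        exact le_mul_of_one_le_right hB0.le hS1
      have h10 : B * L ^ (A + 1) = L * (B * S) := by rw [hS]; ring
      rw [h10]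
      have h11 : (H + 2) * (B * S) ≤ L * (B * S) := mul_le_mul_of_nonneg_right (by linarith) (by positivity)
      linarith
    have hqN : (q : ℝ) ≤ (N : ℝ) ^ (1 - η / 2) := by
      refine hupp.trans ?_
      calc B * L ^ (A + 1) ≤ (N : ℝ) ^ (1 - η) * (N : ℝ) ^ (η / 2) := by
            apply mul_le_mul hhi _ (by positivity) (by positivity)
            have : (0 : ℝ) ≤ L ^ (A + 1) := by positivity
            linarith
        _ = (N : ℝ) ^ (1 - η / 2) := by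
            rw [← Real.rpow_add hN0]
            congr 1
            ring
    by_contra hcon
    push Not at hcon
    apply hm3
    apply hsolv q hq1 hqN
    intro g δ hg1 hg2
    rw [← hS] at hg2 ⊢
    exact hcon s σ g δ hm1 hσ hg1 hg2 q hq1 hσq hlow hupp
  choose! sf σf gf δf hsf hσf hgf1 hgf2 hqf using hdata
  -- the classes
  obtain ⟨Z, hZ⟩ : ∃ Z : ℕ, Z = ⌊S⌋₊ := ⟨_, rfl⟩
  have hZS : (Z : ℝ) ≤ S := by rw [hZ]; exact Nat.floor_le hS0.le
  obtain ⟨I, hI⟩ : ∃ I : Finset (ℤ × ℤ × ℕ), I = Icc (-(Z : ℤ)) Z ×ˢ (({1, -1} : Finset ℤ) ×ˢ Icc 1 Z) := ⟨_, rfl⟩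
  have hIc : (I.card : ℝ) ≤ 6 * (S * S) := by
    rw [hI, card_product, card_product, Int.card_Icc, Nat.card_Icc]
    have h6 : ((Z : ℤ) + 1 - -(Z : ℤ)).toNat = 2 * Z + 1 := by omega
    have h7 : (({1, -1} : Finset ℤ)).card = 2 := by decide
    rw [h6, h7, Nat.add_sub_cancel]
    push_cast
    have h8 : (2 * (Z : ℝ) + 1) ≤ 3 * S := by linarith
    calc (2 * (Z : ℝ) + 1) * (2 * Z) ≤ (3 * S) * (2 * S) := by gcongr
      _ = 6 * (S * S) := by ring
  have hcover : X₁ ⊆ I.biUnion (fun j => X₁.filter (fun x => sf x = j.1 ∧ σf x = j.2.1 ∧ gf x = j.2.2)) := by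
    intro x hx
    rw [mem_biUnion]
    refine ⟨(sf x, σf x, gf x), ?_, ?_⟩
    · rw [hI, mem_product, mem_product, mem_Icc, mem_Icc]
      have h6 := hsf x hx
      have h7 : |sf x| ≤ (Z : ℤ) := by
        have h8 : ((|sf x|).toNat : ℝ) ≤ S := by
          have h9 : (((|sf x|).toNat : ℤ) : ℝ) = |(sf x : ℝ)| := by
            rw [Int.toNat_of_nonneg (abs_nonneg _), Int.cast_abs]
          have h10 : ((|sf x|).toNat : ℝ) = |(sf x : ℝ)| := by exact_mod_cast h9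
          rw [h10]
          exact h6
        have h9 := Nat.le_floor h8
        rw [← hZ] at h9
        omega
      rw [abs_le] at h7
      refine ⟨h7, ?_, hgf1 x hx, ?_⟩
      · rcases hσf x hx with h8 | h8 <;> simp [h8]
      · rw [hZ]
        exact Nat.le_floor (hgf2 x hx)
    · exact mem_filter.2 ⟨hx, rfl, rfl, rfl⟩
  -- the length of the second variable
  obtain ⟨Y, hY⟩ : ∃ Y, Y = 2 * N * L ^ E / B := ⟨_, rfl⟩
  have hYB : Y * B = 2 * N * L ^ E := by rw [hY]; field_simp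
  have hNB : (N : ℝ) ^ η ≤ N / B := by
    rw [le_div_iff₀ hB0]
    calc (N : ℝ) ^ η * B ≤ (N : ℝ) ^ η * (N : ℝ) ^ (1 - η) := mul_le_mul_of_nonneg_left hhi (by positivity)
      _ = N := by rw [← Real.rpow_add hN0]; norm_num
  have hYge : (N : ℝ) / B ≤ Y := by
    rw [hY, div_le_div_iff_of_pos_right hB0]
    nlinarith
  have hNη : 1 ≤ (N : ℝ) ^ η := Real.one_le_rpow hN1 hη.le
  have hY1 : 1 ≤ Y := hNη.trans (hNB.trans hYge)
  obtain ⟨mm, hmm1, hmm2, hmm3⟩ := exists_m Y hY1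
  have hlen1 : b ^ k ≤ (2 ^ mm) ^ lam := by
    have h6 : bk ≤ ((2 : ℝ) ^ mm) ^ lam := by
      calc bk ≤ N := hbkB.trans hBN
        _ = ((N : ℝ) ^ η) ^ (1 / η) := by
            rw [← Real.rpow_mul hN0.le, mul_one_div_cancel hη.ne', Real.rpow_one]
        _ ≤ ((N : ℝ) ^ η) ^ (lam : ℝ) := by
            apply Real.rpow_le_rpow_of_exponent_le hNη
            refine le_trans ?_ hlamη
            apply div_le_div_of_nonneg_right _ hη.le
            linarith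
        _ = ((N : ℝ) ^ η) ^ lam := Real.rpow_natCast _ _
        _ ≤ ((2 : ℝ) ^ mm) ^ lam := by
            apply pow_le_pow_left₀ (by positivity)
            linarith
    rw [hbk] at h6
    exact_mod_cast h6
  have hlen2 : 2 ^ mm ≤ (b ^ k) ^ lam := by
    have h6 : (2 : ℝ) ^ mm ≤ bk ^ lam := by
      have h7 : (2 : ℝ) ^ mm ≤ (N : ℝ) ^ 2 := by
        have h8 : Y ≤ 2 * N * L ^ E := by
          rw [hY]
          exact div_le_self (by positivity) hB1
        have h9 : 4 * L ^ E ≤ N := by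
          have : (0 : ℝ) ≤ L ^ (E + A + 1) := by positivity
          linarith
        calc (2 : ℝ) ^ mm ≤ 2 * (2 * N * L ^ E) := by linarith
          _ = N * (4 * L ^ E) := by ring
          _ ≤ N * N := mul_le_mul_of_nonneg_left h9 hN0.le
          _ = (N : ℝ) ^ 2 := by ring
      calc (2 : ℝ) ^ mm ≤ (N : ℝ) ^ 2 := h7
        _ = ((N : ℝ) ^ (η / d)) ^ (2 * d / η) := by
            rw [← Real.rpow_mul hN0.le]
            have : η / d * (2 * d / η) = ((2 : ℕ) : ℝ) := by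
              push_cast
              field_simp
            rw [this, Real.rpow_natCast]
        _ ≤ ((N : ℝ) ^ (η / d)) ^ (lam : ℝ) := by
            apply Real.rpow_le_rpow_of_exponent_le _ hlamη
            exact Real.one_le_rpow hN1 (by positivity)
        _ = ((N : ℝ) ^ (η / d)) ^ lam := Real.rpow_natCast _ _
        _ ≤ bk ^ lam := pow_le_pow_left₀ (by positivity) hNbk _
    rw [hbk] at h6
    exact_mod_cast h6
  have hLD : 1 ≤ L ^ D := one_le_pow₀ hL1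
  have hLD0 : 0 < L ^ D := by linarith
  have hSD : S ≤ L ^ D := by
    rw [hS, hD]
    exact pow_le_pow_right₀ hL1 (by omega)
  have hkey : ∀ j ∈ I, ((X₁.filter (fun x => sf x = j.1 ∧ σf x = j.2.1 ∧ gf x = j.2.2)).card : ℝ) ≤ Ω.card / L ^ D := by
    intro j hj
    obtain ⟨s, σ, g⟩ := j
    rw [hI, mem_product, mem_product, mem_Icc, mem_Icc, mem_insert, mem_singleton] at hj
    obtain ⟨hj1, hj2, hj3, hj4⟩ := hj
    simp only at hj1 hj2 hj3 hj4 ⊢
    have hg0 : (0 : ℝ) < g := by exact_mod_cast hj3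
    have hg1 : (1 : ℝ) ≤ g := by exact_mod_cast hj3
    have hgS : (g : ℝ) ≤ S := le_trans (by exact_mod_cast hj4) hZS
    have hσa : |(σ : ℝ)| = 1 := by
      rcases hj2 with h6 | h6 <;> simp [h6]
    have hθa : |(σ : ℝ) / g| = 1 / g := by rw [abs_div, hσa, abs_of_pos hg0]
    rw [hΩ]
    apply hcore k mm 𝒟 ((σ : ℝ) / g) ((c₀ : ℝ) + s) hDS hlen1 hlen2
    · rw [hθa]
      exact ((div_le_one hg0).2 hg1).trans hLD
    · rw [hθa, ← hbk, ← hB]
      have h6 : (N : ℝ) / L ^ D ≤ N / g := div_le_div_of_nonneg_left hN0.le hg0 (hgS.trans hSD)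
      refine h6.trans ?_
      rw [div_mul_eq_mul_div, one_mul]
      apply div_le_div_of_nonneg_right _ hg0.le
      calc (N : ℝ) ≤ 2 * N * L ^ E := by nlinarith
        _ = Y * B := hYB.symm
        _ = B * Y := mul_comm _ _
        _ ≤ B * 2 ^ mm := mul_le_mul_of_nonneg_left hmm2.le hB0.le
    · rw [← hΩ]
      refine (filter_subset _ _).trans ?_
      rw [hX₁]
      exact (filter_subset _ _).trans hX
    · intro x hx
      obtain ⟨hxX, hx1, hx2, hx3⟩ := mem_filter.1 hx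
      obtain ⟨q, hq1, hq2, hq3, hq4, hq5⟩ := hqf x hxX
      rw [hx1, hx2] at hq2
      rw [hx3] at hq5
      have hq0 : (0 : ℝ) < q := by exact_mod_cast hq1
      refine ⟨δf x, ?_⟩
      have hu : (σ : ℝ) / g * (val F x + ((c₀ : ℝ) + s)) = (q : ℝ) / g := by
        rw [hq2]
        ring
      rw [hu]
      have hcard : ((badY (RL T) A N q g (δf x)).card : ℝ) ≤ ((bad (RL T) D N mm ((q : ℝ) / g) (δf x)).card : ℝ) := by
        apply Nat.cast_le.2
        apply card_le_card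
        intro y hy
        unfold badY at hy
        unfold bad
        rw [mem_filter, mem_range] at hy ⊢
        obtain ⟨hy1, hy2, z, hz1, hz2⟩ := hy
        refine ⟨?_, hy2, z, hz1.trans ?_, hz2⟩
        · have hyN : y * q ≤ N := (Nat.le_div_iff_mul_le hq1).1 (by omega)
          have e2 : (y : ℝ) * (q : ℝ) ≤ N := by exact_mod_cast hyN
          have e1 : (y : ℝ) ≤ Y := by
            have e3 : (y : ℝ) * B ≤ Y * B := by
              rw [hYB]
              calc (y : ℝ) * B ≤ y * (q * (2 * L ^ E)) := mul_le_mul_of_nonneg_left hq3 (Nat.cast_nonneg _)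
                _ = (y * q) * (2 * L ^ E) := by ring
                _ ≤ N * (2 * L ^ E) := mul_le_mul_of_nonneg_right e2 (by positivity)
                _ = 2 * N * L ^ E := by ring
            exact le_of_mul_le_mul_right e3 hB0
          have e3 : (y : ℝ) < ((2 ^ mm : ℕ) : ℝ) := by push_cast; linarith
          exact_mod_cast e3
        · rw [← hL, ← hS]
          exact hSD
      refine le_trans ?_ (hq5.trans hcard)
      -- the sizes
      rw [div_le_div_iff₀ hLD0 (by positivity)]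
      have e1 : (2 : ℝ) ^ mm * B ≤ 4 * N * L ^ E := by
        calc (2 : ℝ) ^ mm * B ≤ 2 * Y * B := mul_le_mul_of_nonneg_right hmm3 hB0.le
          _ = 2 * (Y * B) := by ring
          _ = 4 * N * L ^ E := by rw [hYB]; ring
      calc (2 : ℝ) ^ mm * (q * S) ≤ (2 : ℝ) ^ mm * ((B * L ^ (A + 1)) * S) := by
            apply mul_le_mul_of_nonneg_left _ (by positivity)
            exact mul_le_mul_of_nonneg_right hq4 hS0.le
        _ = ((2 : ℝ) ^ mm * B) * (L ^ (A + 1) * S) := by ring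
        _ ≤ (4 * N * L ^ E) * (L ^ (A + 1) * S) := mul_le_mul_of_nonneg_right e1 (by positivity)
        _ = N * (4 * L ^ (E + 2 * A + 1)) := by rw [hS]; ring
        _ ≤ N * (L * L ^ (E + 2 * A + 1)) := by
            apply mul_le_mul_of_nonneg_left _ hN0.le
            apply mul_le_mul_of_nonneg_right _ (by positivity)
            linarith
        _ = N * L ^ (E + 2 * A + 2) := by ring
        _ ≤ N * L ^ D := by
            apply mul_le_mul_of_nonneg_left _ hN0.le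
            exact pow_le_pow_right₀ hL1 (by omega)
  have hΩ0 : (0 : ℝ) ≤ Ω.card := Nat.cast_nonneg _
  have hX₁c : (X₁.card : ℝ) ≤ Ω.card / (2 * S) := by
    have e2 : (X₁.card : ℝ) ≤ ∑ j ∈ I, ((X₁.filter (fun x => sf x = j.1 ∧ σf x = j.2.1 ∧ gf x = j.2.2)).card : ℝ) := by
      exact_mod_cast (card_le_card hcover).trans card_biUnion_le
    refine e2.trans ((sum_le_sum hkey).trans ?_)
    rw [sum_const, nsmul_eq_mul]
    calc (I.card : ℝ) * (Ω.card / L ^ D) ≤ 6 * (S * S) * (Ω.card / L ^ D) :=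
          mul_le_mul_of_nonneg_right hIc (by positivity)
      _ = (12 * (S * S * S)) * Ω.card / (L ^ D * (2 * S)) := by
          field_simp
          ring
      _ ≤ L ^ D * Ω.card / (L ^ D * (2 * S)) := by
          apply div_le_div_of_nonneg_right _ (by positivity)
          apply mul_le_mul_of_nonneg_right _ hΩ0
          calc 12 * (S * S * S) ≤ L * (S * S * S) := mul_le_mul_of_nonneg_right (by linarith) (by positivity)
            _ = L ^ (3 * A + 1) := by rw [hS]; ring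
            _ ≤ L ^ D := pow_le_pow_right₀ hL1 (by omega)
      _ = Ω.card / (2 * S) := by field_simp
  have hXle : (X.card : ℝ) ≤ X₁.card + Xs.card := by
    have e1 : X ⊆ X₁ ∪ Xs := by
      intro x hx
      rw [mem_union]
      by_cases h6 : x ∈ Xs
      · exact Or.inr h6
      · left
        rw [hX₁]
        exact mem_filter.2 ⟨hx, h6⟩
    exact_mod_cast (card_le_card e1).trans (card_union_le _ _)
  rw [← hS]
  calc (X.card : ℝ) ≤ Ω.card / (2 * S) + Ω.card / (2 * S) := by linarith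
    _ = Ω.card / S := by field_simp; ring

end Pool.Agent.H56.AC
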